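import Pool.Agent.Lib.DT.PI.SpecC
import Pool.Agent.Lib.DI.B.A12

/-!
# THEOREM DT, module PI/Kap: the cubic Kummer character is additive
-/

set_option autoImplicit false

open scoped Pointwise nonZeroDivisors

noncomputable section

namespace Pool.Agent.DT.PI

open Pool.Agent.MuZ Pool.Agent.DT NumberField IsDedekindDomain
open Pool.Agent.DI (io ofC io_inj exists_io io_ofC ofC_io VP MP UP TP ex)

private theorem Kap_prim : IsPrimitiveRoot (zet 3) 3 := (DI.tA2 3 (by norm_num)).2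

private theorem Kap_cbr (w : Om) : cbr w ^ 3 = w := by
  have h : ∃ y : Om, y ^ 3 = w := IsAlgClosed.exists_pow_nat_eq w (by norm_num)
  unfold cbr
  rw [dif_pos h]
  exact h.choose_spec

private theorem Kap_ne {w : Om} (hw : w ≠ 0) : cbr w ≠ 0 := by
  intro h
  apply hw
  rw [← Kap_cbr w, h]
  norm_num

/-- Two cube roots of `w` differ by a power of `ζ`. -/
private theorem Kap_rt {x y : Om} (hy : y ≠ 0) (h : x ^ 3 = y ^ 3) :
    ∃ i < 3, x = zet 3 ^ i * y := by
  have h1 : (x / y) ^ 3 = 1 := by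
    rw [div_pow, h]
    exact div_self (pow_ne_zero _ hy)
  obtain ⟨i, hi, hi'⟩ := Kap_prim.eq_pow_of_pow_eq_one h1
  exact ⟨i, hi, by rw [hi']; field_simp⟩

/-- The definition of `kap`. -/
private theorem Kap_def {d : Gal(Om/ℚ)} {w : Om} (hw : w ≠ 0) (hd : d w = w) :
    d (cbr w) = zet 3 ^ (kap w d).val * cbr w := by
  have h3 : (d (cbr w)) ^ 3 = cbr w ^ 3 := by rw [← map_pow, Kap_cbr, hd]
  obtain ⟨i, hi, h⟩ := Kap_rt (Kap_ne hw) h3
  have hv0 : ((0 : ZMod 3)).val = 0 := rfl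
  have hv1 : ((1 : ZMod 3)).val = 1 := rfl
  have hv2 : ((2 : ZMod 3)).val = 2 := rfl
  unfold kap
  split_ifs with c1 c2
  · rw [hv0, pow_zero, one_mul, c1]
  · rw [hv1, pow_one, c2]
  · rw [hv2]
    interval_cases i
    · rw [pow_zero, one_mul] at h
      exact absurd h c1
    · rw [pow_one] at h
      exact absurd h c2
    · exact h

/-- The same for every cube root. -/
private theorem Kap_any {d : Gal(Om/ℚ)} {w y : Om} (hw : w ≠ 0) (hd : d w = w) (hz : d (zet 3) = zet 3)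
    (hy : y ^ 3 = w) : d y = zet 3 ^ (kap w d).val * y := by
  have h3 : y ^ 3 = cbr w ^ 3 := by rw [hy, Kap_cbr]
  obtain ⟨i, -, h⟩ := Kap_rt (Kap_ne hw) h3
  rw [h, map_mul, map_pow, hz, Kap_def hw hd]
  ring

private theorem Kap_mod (i : ℕ) : zet 3 ^ i = zet 3 ^ (i % 3) := by
  conv_lhs => rw [← Nat.div_add_mod i 3, pow_add, pow_mul, Kap_prim.pow_eq_one, one_pow, one_mul]

/-- The exponent is unique modulo `3`. -/
private theorem Kap_uni {i j : ℕ} {y : Om} (hy : y ≠ 0) (h : zet 3 ^ i * y = zet 3 ^ j * y) :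
    (i : ZMod 3) = j := by
  have h1 : zet 3 ^ i = zet 3 ^ j := mul_right_cancel₀ hy h
  have h2 : i ≡ j [MOD 3] := by
    rw [Kap_mod i, Kap_mod j] at h1
    exact Kap_prim.pow_inj (Nat.mod_lt _ (by norm_num)) (Nat.mod_lt _ (by norm_num)) h1
  exact (ZMod.natCast_eq_natCast_iff _ _ _).2 h2

theorem pKap : S_Kap := by
  constructor
  · intro d x y hx hy hdx hdy hz
    have h1 : d (cbr x * cbr y) = zet 3 ^ (kap (x * y) d).val * (cbr x * cbr y) :=
      Kap_any (mul_ne_zero hx hy) (by rw [map_mul, hdx, hdy]) hz (by rw [mul_pow, Kap_cbr, Kap_cbr])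
    have h2 : d (cbr x * cbr y) = zet 3 ^ ((kap x d).val + (kap y d).val) * (cbr x * cbr y) := by
      rw [map_mul, Kap_def hx hdx, Kap_def hy hdy]
      ring
    have h3 := Kap_uni (mul_ne_zero (Kap_ne hx) (Kap_ne hy)) (h1.symm.trans h2)
    rw [Nat.cast_add, ZMod.natCast_zmod_val, ZMod.natCast_zmod_val, ZMod.natCast_zmod_val] at h3
    exact h3
  · intro d x b hx hb hdx hdb hz
    have h1 : d (b * cbr x) = zet 3 ^ (kap (b ^ 3 * x) d).val * (b * cbr x) :=
      Kap_any (mul_ne_zero (pow_ne_zero _ hb) hx) (by rw [map_mul, map_pow, hdx, hdb]) hz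
        (by rw [mul_pow, Kap_cbr])
    have h2 : d (b * cbr x) = zet 3 ^ (kap x d).val * (b * cbr x) := by
      rw [map_mul, Kap_def hx hdx, hdb]
      ring
    have h3 := Kap_uni (mul_ne_zero hb (Kap_ne hx)) (h1.symm.trans h2)
    rw [ZMod.natCast_zmod_val, ZMod.natCast_zmod_val] at h3
    exact h3

end Pool.Agent.DT.PI
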