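import Pool.Agent.Lib.DT.PI.SpecC
import Mathlib.NumberTheory.GaussSum
import Mathlib.NumberTheory.LegendreSymbol.QuadraticChar.Basic

/-! # THEOREM DT, Part I: square roots of integers are in cyclotomic fields (Gauss sums). -/

set_option autoImplicit false

open scoped Pointwise

noncomputable section

namespace Pool.Agent.DT.PI

open Pool.Agent.MuZ

/-- The property of `n` to be proved. -/
private def Sqr_good (n : ℤ) : Prop :=
  ∃ (m : ℕ) (g : Om), 0 < m ∧ g ^ 2 = (n : Om) ∧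
    ∀ σ : Gal(Om/ℚ), (∀ z : Om, z ^ m = 1 → σ z = z) → σ g = g

private lemma Sqr_mul {a b : ℤ} (ha : Sqr_good a) (hb : Sqr_good b) : Sqr_good (a * b) := by
  obtain ⟨m, g, hm, hg, h⟩ := ha
  obtain ⟨m', g', hm', hg', h'⟩ := hb
  refine ⟨m * m', g * g', Nat.mul_pos hm hm', ?_, ?_⟩
  · rw [mul_pow, hg, hg']; push_cast; ring
  · intro σ hσ
    rw [map_mul, h σ, h' σ]
    · intro z hz
      exact hσ z (by rw [mul_comm, pow_mul, hz, one_pow])
    · intro z hz
      exact hσ z (by rw [pow_mul, hz, one_pow])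

private lemma Sqr_zero : Sqr_good 0 := ⟨1, 0, one_pos, by simp, fun σ _ => by simp⟩

private lemma Sqr_one : Sqr_good 1 := ⟨1, 1, one_pos, by simp, fun σ _ => by simp⟩

private lemma Sqr_neg : Sqr_good (-1) := by
  obtain ⟨g, hg⟩ := IsAlgClosed.exists_pow_nat_eq (k := Om) (-1) (n := 2) (by norm_num)
  refine ⟨4, g, by norm_num, by rw [hg]; simp, fun σ hσ => hσ g ?_⟩
  rw [show (4 : ℕ) = 2 * 2 from rfl, pow_mul, hg]; norm_num

private lemma Sqr_two : Sqr_good 2 := by
  obtain ⟨z, hz⟩ := IsAlgClosed.exists_pow_nat_eq (k := Om) (-1) (n := 4) (by norm_num)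
  have hz0 : z ≠ 0 := by
    rintro rfl
    norm_num at hz
  refine ⟨8, z + z⁻¹, by norm_num, ?_, fun σ hσ => ?_⟩
  · have h1 : z ^ 2 + (z ^ 2)⁻¹ = 0 := by
      have h2 : z ^ 2 ≠ 0 := pow_ne_zero _ hz0
      field_simp
      rw [show z ^ 4 = -1 from hz]
      norm_num
    have h3 : (z + z⁻¹) ^ 2 = z ^ 2 + (z ^ 2)⁻¹ + 2 := by
      field_simp
      ring
    rw [h3, h1]
    norm_num
  · have h := hσ z (by rw [show (8 : ℕ) = 4 * 2 from rfl, pow_mul, hz]; norm_num)
    rw [map_add, map_inv₀, h]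

private lemma Sqr_odd (l : ℕ) (hl : l.Prime) (h2 : l ≠ 2) :
    Sqr_good (l : ℤ) ∨ Sqr_good (-(l : ℤ)) := by
  have : Fact l.Prime := ⟨hl⟩
  have : NeZero l := ⟨hl.ne_zero⟩
  have : NeZero (l : Om) := ⟨Nat.cast_ne_zero.mpr hl.ne_zero⟩
  obtain ⟨ζ, hζ⟩ := HasEnoughRootsOfUnity.exists_primitiveRoot Om l
  let ψ : AddChar (ZMod l) Om := AddChar.zmodChar l ((IsPrimitiveRoot.iff_def ζ l).mp hζ).left
  have hψ : ψ.IsPrimitive := AddChar.zmodChar_primitive_of_primitive_root l hζ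
  let χ : MulChar (ZMod l) Om := (quadraticChar (ZMod l)).ringHomComp (Int.castRingHom Om)
  have hχ1 : χ ≠ 1 := by
    refine (MulChar.ringHomComp_ne_one_iff (RingHom.injective_int _)).mpr (quadraticChar_ne_one ?_)
    rw [ZMod.ringChar_zmod_n]
    exact h2
  have hχ2 : χ.IsQuadratic := (quadraticChar_isQuadratic (ZMod l)).comp _
  have hsq := gaussSum_sq hχ1 hχ2 hψ
  rw [ZMod.card] at hsq
  have hfix : ∀ σ : Gal(Om/ℚ), (∀ z : Om, z ^ l = 1 → σ z = z) →
      σ (gaussSum χ ψ) = gaussSum χ ψ := by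
    intro σ hσ
    have hζl : ζ ^ l = 1 := hζ.pow_eq_one
    unfold gaussSum
    rw [map_sum]
    refine Finset.sum_congr rfl fun a _ => ?_
    rw [map_mul]
    congr 1
    · change σ ((Int.castRingHom Om) (quadraticChar (ZMod l) a)) = _
      simp [χ]
    · change σ (AddChar.zmodChar l _ a) = AddChar.zmodChar l _ a
      rw [AddChar.zmodChar_apply, map_pow, hσ ζ hζl]
  have hv : χ (-1) = 1 ∨ χ (-1) = -1 := by
    rcases hχ2 (-1) with h | h | h
    · exfalso
      have h1 : IsUnit (χ (-1)) := (isUnit_one.neg).map χ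
      exact h1.ne_zero h
    · exact Or.inl h
    · exact Or.inr h
  rcases hv with h | h
  · left
    refine ⟨l, gaussSum χ ψ, hl.pos, ?_, hfix⟩
    rw [hsq, h]; push_cast; ring
  · right
    refine ⟨l, gaussSum χ ψ, hl.pos, ?_, hfix⟩
    rw [hsq, h]; push_cast; ring

private lemma Sqr_prime (l : ℕ) (hl : l.Prime) : Sqr_good (l : ℤ) := by
  rcases eq_or_ne l 2 with rfl | h2
  · exact Sqr_two
  · rcases Sqr_odd l hl h2 with h | h
    · exact h
    · have := Sqr_mul Sqr_neg h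
      simpa using this

private lemma Sqr_nat (n : ℕ) : Sqr_good (n : ℤ) := by
  induction n using Nat.recOnMul with
  | zero => exact Sqr_zero
  | one => exact Sqr_one
  | prime p hp => exact Sqr_prime p hp
  | mul a b ha hb => rw [Nat.cast_mul]; exact Sqr_mul ha hb

theorem pSqr : S_Sqr := by
  intro n
  rcases Int.natAbs_eq n with h | h
  · rw [h]; exact Sqr_nat _
  · rw [h, neg_eq_neg_one_mul]; exact Sqr_mul Sqr_neg (Sqr_nat _)

end Pool.Agent.DT.PI
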