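import Pool.Agent.Lib.DT.PI.SpecC

set_option autoImplicit false

/-!
# THEOREM DT, Part I: Teichmüller representatives
-/

open scoped Pointwise

noncomputable section

namespace Pool.Agent.DT.PI

open Pool.Agent.MuZ Pool.Agent.DT

theorem Tei_pos {m : ℕ} (hm : m.Coprime 3) : 0 < m := by
  rcases Nat.eq_zero_or_pos m with h | h
  · rw [h] at hm
    exact absurd hm (by decide)
  · exact h

theorem Tei_one {P : Ideal ZZ} (hP : P.IsPrime) (h2 : (3 : ZZ) ∈ P) {m : ℕ} (hm : m.Coprime 3)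
    {ξ : ZZ} (h1 : ξ ^ m = 1) (hξ : Ideal.Quotient.mk P ξ = 1) : ξ = 1 := by
  by_contra hne
  have h3 : (∑ i ∈ Finset.range m, ξ ^ i) * (ξ - 1) = 0 := by
    rw [geom_sum_mul, h1, sub_self]
  have h4 : ∑ i ∈ Finset.range m, ξ ^ i = 0 := by
    rcases mul_eq_zero.1 h3 with h | h
    · exact h
    · exact absurd (sub_eq_zero.1 h) hne
  have h5 := congrArg (Ideal.Quotient.mk P) h4
  rw [map_sum, map_zero] at h5
  simp only [map_pow, hξ, one_pow, Finset.sum_const, Finset.card_range, nsmul_eq_mul,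
    mul_one] at h5
  have h6 : ((m : ℕ) : ZZ) ∈ P := by
    rw [← Ideal.Quotient.eq_zero_iff_mem, map_natCast]
    exact h5
  have h7 : (1 : ZZ) ∈ P := by
    obtain ⟨u, v, huv⟩ := Nat.isCoprime_iff_coprime.2 hm
    have h8 : (1 : ZZ) = (u : ZZ) * ((m : ℕ) : ZZ) + (v : ZZ) * 3 := by
      have h9 := congrArg (fun x : ℤ => (x : ZZ)) huv
      push_cast at h9
      exact h9.symm
    rw [h8]
    exact P.add_mem (P.mul_mem_left _ h6) (P.mul_mem_left _ h2)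
  exact hP.ne_top ((Ideal.eq_top_iff_one P).2 h7)

theorem Tei_uni {P : Ideal ZZ} (hP : P.IsPrime) (h2 : (3 : ZZ) ∈ P) {m : ℕ} (hm : m.Coprime 3)
    {z z' : ZZ} (hz : z ^ m = 1) (hz' : z' ^ m = 1)
    (h : Ideal.Quotient.mk P z = Ideal.Quotient.mk P z') : z = z' := by
  obtain ⟨k, hk⟩ : ∃ k, m = k + 1 := ⟨m - 1, by have := Tei_pos hm; omega⟩
  have h1 : (z * z' ^ k) ^ m = 1 := by
    rw [mul_pow, hz, ← pow_mul, mul_comm k m, pow_mul, hz', one_pow, one_mul]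
  have h3 : z' * z' ^ k = 1 := by
    rw [← pow_succ', ← hk]; exact hz'
  have h4 : Ideal.Quotient.mk P (z * z' ^ k) = 1 := by
    rw [map_mul, h, ← map_mul, h3, map_one]
  have h5 := Tei_one hP h2 hm h1 h4
  calc z = z * (z' * z' ^ k) := by rw [h3, mul_one]
    _ = (z * z' ^ k) * z' := by ring
    _ = z' := by rw [h5, one_mul]

theorem Tei_root (m : ℕ) (hm : 0 < m) : ∃ ζ : ZZ, IsPrimitiveRoot ζ m := by
  have : NeZero (m : Om) := ⟨by exact_mod_cast hm.ne'⟩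
  have : NeZero m := ⟨hm.ne'⟩
  obtain ⟨ζ, hζ⟩ := HasEnoughRootsOfUnity.exists_primitiveRoot Om m
  refine ⟨⟨ζ, hζ.isIntegral hm⟩, ?_⟩
  have hinj : Function.Injective (algebraMap ZZ Om) := Subtype.coe_injective
  exact IsPrimitiveRoot.of_map_of_injective (f := algebraMap ZZ Om) hζ hinj

theorem Tei_ex {P : Ideal ZZ} (hP : P.IsPrime) {m : ℕ} (hm : 0 < m) {x : ZZ ⧸ P}
    (hx : x ^ m = 1) : ∃ z : ZZ, z ^ m = 1 ∧ Ideal.Quotient.mk P z = x := by
  have : IsDomain (ZZ ⧸ P) := Ideal.Quotient.isDomain P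
  obtain ⟨ζ, hζ⟩ := Tei_root m hm
  have h1 := Polynomial.X_pow_sub_one_eq_prod hm hζ
  have h2 := congrArg (Polynomial.eval₂ (Ideal.Quotient.mk P) x) h1
  rw [Polynomial.eval₂_finsetProd, Polynomial.eval₂_sub, Polynomial.eval₂_pow,
    Polynomial.eval₂_X, Polynomial.eval₂_one, hx, sub_self] at h2
  obtain ⟨z, hz, hz'⟩ := Finset.prod_eq_zero_iff.1 h2.symm
  rw [Polynomial.mem_nthRootsFinset hm] at hz
  rw [Polynomial.eval₂_sub, Polynomial.eval₂_X, Polynomial.eval₂_C] at hz'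
  exact ⟨z, hz, (sub_eq_zero.1 hz').symm⟩

theorem pTei : S_Tei := by
  intro P hP h2 m hm
  refine ⟨?_, fun z z' hz hz' h => Tei_uni hP h2 hm hz hz' h⟩
  have hex : ∀ x : ZZ ⧸ P, ∃ z : ZZ, x ^ m = 1 → z ^ m = 1 ∧ Ideal.Quotient.mk P z = x := by
    intro x
    by_cases hx : x ^ m = 1
    · obtain ⟨z, hz⟩ := Tei_ex hP (Tei_pos hm) hx
      exact ⟨z, fun _ => hz⟩
    · exact ⟨0, fun h => absurd h hx⟩
  choose t ht using hex
  refine ⟨t, fun x hx => ⟨(ht x hx).1, (ht x hx).2, fun y hy => ?_⟩⟩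
  have hxy : (x * y) ^ m = 1 := by rw [mul_pow, hx, hy, one_mul]
  refine Tei_uni hP h2 hm (ht _ hxy).1 ?_ ?_
  · rw [mul_pow, (ht x hx).1, (ht y hy).1, one_mul]
  · rw [(ht _ hxy).2, map_mul, (ht x hx).2, (ht y hy).2]

end Pool.Agent.DT.PI
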