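import Pool.Agent.Lib.DI.PI.SpecC
import Pool.Agent.Lib.DK.PI.SpecC
import Pool.Agent.Lib.DT.PI.Bas

/-!
# THEOREM DT, Part I (helper55), chapter C: from Thaine's argument to the hypothesis of the descent

Every `S_<Name>` is proved in its own module `Pool/Agent/Lib/DT/PI/<Name>.lean`, namespace `Pool.Agent.DT.PI`,
theorem `p<Name> : S_<Name>`; the statements named as hypotheses only have to be introduced. `Bas k t` (`DT/PI/Bas.lean`,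
with lemmas) are the basic facts; `S_G3`, `S_GM`, `S_GR`, `S_G`, `S_H` are in `DT/IfaceG.lean` (proved by other parts).
Most modules are EDITS of the modules of the same name `Pool/Agent/Lib/DK/PI/<Name>.lean` of Theorem DK (`p = 2`), with
`2` replaced by `3`, `n + 2` by `n + 1`, the moduli `N` (numbers) by ideals (`sN k t N`), the modulus `f` by
`sN k t (3 * f)`, and the facts `S_O..`, `S_E..` by the fields of `Bas`: `S_E1` (1)-(5) = `psi uni ray pmu down`, `S_E6` = `cyc`,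
`S_E7` = `sur`, `S_E8` = `gal`, `S_O7` = `refl symm trans mul bot pri mono inv fin`, `S_O9` = `rnm`, `S_O2` = `nmul nsp imul izero cj`,
`S_O6` = `pmul pni`. `Reps`, `HypI`, `Meas`, `tr`, `DI.PI.S_RpS`, `DI.PI.S_LyU`, `DK.PI.rsys`, `DK.PI.S_RpT` are those of DI, DK
(proved there: `pRpS`, `pLyU`, `pRpT`).
-/

set_option autoImplicit false

open scoped Pointwise nonZeroDivisors

noncomputable section

namespace Pool.Agent.DT.PI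

open Pool.Agent.MuZ Pool.Agent.DT NumberField IsDedekindDomain
open Pool.Agent.DI (io ofC io_inj exists_io io_ofC ofC_io VP MP UP TP ex)
open Pool.Agent.DI.PI (Reps HypI Meas tr)
open Pool.Agent.DK.PI (rsys)

/-- `H` is (the property of belonging to) a group of ray classes modulo `n`. -/
structure NiceI {k t : ℕ} (n : Ideal (OO k t)) (H : Ideal (OO k t) → Prop) : Prop where
  top : H ⊤
  cop : ∀ a, H a → a ≠ ⊥ ∧ PrI a n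
  ray : ∀ a a', H a → Ray n a a' → H a'
  mul : ∀ a a', H a → H a' → H (a * a')

/-- The layers of the cyclotomic `ℤ_3`-extension of `FixI (sN (3 f)) H`. -/
def LyI {k t : ℕ} (f n : ℕ) (H : Ideal (OO k t) → Prop) : IntermediateField ℚ Om :=
  FixI (sN k t (f * 3 ^ (n + 1))) (fun a => H a ∧ Nm1 (n + 1) a)

/-- The layers of the cyclotomic `ℤ_3`-extension of `K`. -/
def Kn (k t n : ℕ) : IntermediateField ℚ Om := LyI 1 n (Gd (sN k t (3 * 1)))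

/-- (100 lines) **The ray class group.** Start from `DK/PI/Cg.lean`.
PROOF. `C` is the quotient of `{a // Gd n a}` by the equivalence relation `Ray n` (`refl`, `symm`, `trans`), with
the product of ideals (`Quotient.map₂`, `mul`; `Gd n (a * b)`: `pmul` and `mul_ne_zero` in `Ideal (OO k t)`,
`OO k t` is a domain by `dd`), unit `⊤` (`prI_top`, `Bas.top_ne`), inverse by choice (`inv`). Group laws from those of
ideals. `c a` is the class of `a` if `Gd n a`, `1` otherwise. `C` is finite: the classes of the elements of the finite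
set `R` of `fin` (`IsRC.mem`, `IsRC.ex`) are everything. -/
def S_Cg : Prop :=
  ∀ (k t : ℕ) [SqT k t], Bas k t → ∀ n : Ideal (OO k t), n ≠ ⊥ →
    ∃ (C : Type) (_ : CommGroup C) (_ : Finite C) (c : Ideal (OO k t) → C),
      (∀ a b : Ideal (OO k t), Gd n a → Gd n b → c (a * b) = c a * c b) ∧
      (∀ a b : Ideal (OO k t), Gd n a → Gd n b → (c a = c b ↔ Ray n a b)) ∧
      ∀ x : C, ∃ a : Ideal (OO k t), Gd n a ∧ c a = x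

/-- (100 lines) **Elementary existence.** Uses nothing. Start from `DK/PI/Ar2.lean`.
PROOF. (1) `x f + y 3 ^ N = 1` (Bézout), `v = a y 3 ^ N + b x f`. (2) Let `N ≥ 1` (the case `N = 0` follows: `3 ^ 0 = 1`
divides everything, `v = 1`). `c = 1 + 3 c'`. `t = 1` or `t = 4` (`SqT.out`), so `3 ∣ t - 1`. The map `y ↦ t y + 9 k y ^ 2` on
`ZMod (3 ^ (N - 1))` is injective: `(y - y') (t + 9 k (y + y')) = 0`, and the second factor is a unit (it is `1` modulo `3`). So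
it is surjective (finite set), there is `y ∈ ℤ` with `t y + 9 k y ^ 2 ≡ c'` modulo `3 ^ (N - 1)`; put `b = ⟨1, 3 y⟩`:
`Nm b = 1 + 3 t y + 27 k y ^ 2 = 1 + 3 (t y + 9 k y ^ 2) ≡ c` modulo `3 ^ N`. (1) with `a = 1` and this `b`: `f ∣ v - 1`,
`3 ^ N ∣ v - b`, so `3 ∣ v - 1` (`3 ∣ b - 1`, `N ≥ 1`), and `3 f ∣ v - 1` as `3` and `f` are coprime (`x f + y 3 = 1`:
`v - 1 = x f (v - 1) + 3 y (v - 1)`). The norm modulo `3 ^ N` depends only on the class (an easy computation with the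
definition of `Nm`). -/
def S_Ar2 : Prop :=
  ∀ (k t : ℕ) [SqT k t],
    (∀ (f N : ℕ) (a b : OO k t), f.Coprime 3 →
      ∃ v : OO k t, (f : OO k t) ∣ v - a ∧ ((3 ^ N : ℕ) : OO k t) ∣ v - b) ∧
    ∀ (f N : ℕ) (c : ℤ), f.Coprime 3 → (3 : ℤ) ∣ c - 1 →
      ∃ v : OO k t, ((3 * f : ℕ) : OO k t) ∣ v - 1 ∧ (3 : ℤ) ^ N ∣ Nm v - c

/-- (150 lines) **Exponents.** Uses `S_Cg`. Start from `DK/PI/Ar3.lean`.
PROOF. `n = sN (3 f)`. Let `C`, `c` be the ray class group modulo `n` (`S_Cg`), `e` its order, `e = 3 ^ t' m`, `m` prime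
to `3` (`Nat.exists_eq_pow_mul_and_not_dvd`). `c (a ^ i) = c a ^ i` for `Gd n a` (induction). (1) `c (a ^ m) ^ 3 ^ t' = c a ^ e = 1 =
c ⊤`: `Ray n ((a ^ m) ^ 3 ^ t') ⊤`. (2) Let `M = f 3 ^ N`, `Gd (sN M) a`, `H3 f a`; `Gd n a` (`Bas.pr3`), and `x = c a`
satisfies `x ^ 3 ^ j = 1` and `x ^ (3 ^ t' m) = 1`, hence `x ^ 3 ^ t' = 1` (`orderOf x` divides both; it is a power of `3`
dividing `3 ^ t' m`, so it divides `3 ^ t'`): `Ray n B ⊤`, `B = a ^ 3 ^ t'`, i.e. `(α) B = (α')`, `α - α' ∈ 3 f O`, `α`, `α'`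
prime to `3 f`, not `0`. `α' ∈ (α) B ≤ (α)`, so `α' = α v` and `B = (v)` (cancel `(α)`, `dd`, or: `x ∈ B → α x ∈ (α v) →
x ∈ (v)`, and `α v ∈ (α) B` gives `v ∈ B`). `3 f ∣ α (v - 1)` and `α` is prime to `3 f` (`Bas.prsp`: `a' Nm α + b' (3 f) = 1` and
`Nm α = α cjO α`), so `3 f ∣ v - 1`. By induction `3 ^ (i + 1) ∣ v ^ 3 ^ i - 1` (`x = 1 + 3 ^ (i + 1) u`:
`x ^ 3 = 1 + 3 ^ (i + 2) (...)`), so `w = v ^ 3 ^ N` satisfies `w ≡ 1` modulo `3 ^ N` and modulo `f` (`v - 1 ∣ v ^ i - 1`), so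
modulo `f 3 ^ N` (`x f + y 3 ^ N = 1`), and `a ^ 3 ^ (t' + N) = B ^ 3 ^ N = (w)`: `Ray (sN M) (w) ⊤` with `α = 1`, `α' = w`
(`w` is prime to `M` because it is `1` modulo `M`: `1 = w - M u ∈ (w) ⊔ (M)`; `w ≠ 0` because `B ≠ ⊥`). (3) `top`: `j = 0`,
`refl`. `cop`: `bot`, `pri` for `a ^ 3 ^ j` and `⊤`, and `pmul`: `PrI (a ^ i) n → PrI a n` for `i > 0`; `⊥ ^ i = ⊥`. `ray`:
`Ray n (a ^ i) (a' ^ i)` by `mul`. `mul`: `j + j'`, `mul_pow`. (4) `3 f ∣ NI a ^ 3 ^ j - 1` (`rnm`, `imul`, `Bas.top`), so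
`x = NI a` has `x ^ 3 ^ j ≡ 1` modulo `3`, and `x ^ 3 ≡ x` modulo `3`. (5) by (4): if `3 ^ N ∣ NI a + 1`, `N ≥ 1`, then
`3 ∣ 2`: contradiction (`funext`, `propext`). (6) With `C`, `c` of `S_Cg` for `n`: `a' = a ^ (e - 1)` (`e ≥ 1` the order of
`C`; `a ^ 0 = 1 = ⊤`); `H (a ^ i)` by induction. -/
def S_Ar3 : Prop :=
  S_Cg → ∀ (k t : ℕ) [SqT k t], Bas k t →
    (∀ f : ℕ, 0 < f → f.Coprime 3 →
      (∃ m : ℕ, m.Coprime 3 ∧ ∀ a : Ideal (OO k t), Gd (sN k t (3 * f)) a → H3 f (a ^ m)) ∧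
      (∀ N : ℕ, 1 ≤ N → ∃ e : ℕ, ∀ a : Ideal (OO k t), Gd (sN k t (f * 3 ^ N)) a → H3 f a →
        Ray (sN k t (f * 3 ^ N)) (a ^ 3 ^ e) ⊤) ∧
      NiceI (sN k t (3 * f)) (H3 (k := k) (t := t) f) ∧
      (∀ a : Ideal (OO k t), H3 f a → (3 : ℤ) ∣ (NI a : ℤ) - 1) ∧
      ∀ N : ℕ, 1 ≤ N → H3N (k := k) (t := t) f N = fun a => H3 f a ∧ Nm1 N a) ∧
    ∀ (n : Ideal (OO k t)) (H : Ideal (OO k t) → Prop), n ≠ ⊥ → NiceI n H →
      ∀ a, H a → ∃ a', H a' ∧ Ray n (a * a') ⊤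

/-- (60 lines) **The group of a layer.** Start from `DK/PI/NiL.lean`.
PROOF. `M = f * 3 ^ (n + 1)`. `top`: `NI ⊤ = 1` (`Bas.top`). `cop`: `Bas.pr3`. `ray`: `mono` with `le3`: `Ray (sN (3 f)) a a'`;
`M ∣ NI a - NI a'` (`rnm`; `PrI a' (sN M)`: `pri`), so `3 ^ (n + 1)` divides it. `mul`: `imul`, `(±1)(±1) = ±1`. -/
def S_NiL : Prop :=
  ∀ (k t : ℕ) [SqT k t], Bas k t → ∀ (f : ℕ) (H : Ideal (OO k t) → Prop), 0 < f →
    NiceI (sN k t (3 * f)) H → ∀ n : ℕ,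
      NiceI (sN k t (f * 3 ^ (n + 1))) (fun a => H a ∧ Nm1 (n + 1) a)

/-- (80 lines) **Elementary facts about `Psi`.** Start from `DK/PI/Ps.lean`.
PROOF. (1) directly from the definition of `Psi` (`AlgEquiv.one_apply`, `Ideal.top_mul`; `prI_top`; `Bas.top_ne`). (2) `psi`
gives `a'` with `Psi τ⁻¹ n a'`; `τ τ⁻¹ = 1` has `Psi 1 n (a a')` (`pmu`) and `Psi 1 n ⊤`: `uni`. (3) induction.
(4) with `σ⁻¹ : a'`, `τ⁻¹ : b'` of (2) the element has `Psi _ n (a b a' b')`, and `Ray n (a b a' b') ⊤`: `mul` applied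
to `a a'`, `b b'` and commutativity; `ray`. (5) `τ⁻¹ : b` as in (2), `Psi (τ⁻¹ τ') n (b a')`,
`Ray n (b a') (b a)`, `Ray n (b a) ⊤`. -/
def S_Ps : Prop :=
  ∀ (k t : ℕ) [SqT k t], Bas k t → ∀ n : Ideal (OO k t), n ≠ ⊥ →
    Psi 1 n (⊤ : Ideal (OO k t)) ∧
    (∀ τ ∈ GK k t, ∀ a : Ideal (OO k t), Psi τ n a → ∃ a', Psi τ⁻¹ n a' ∧ Ray n (a * a') ⊤) ∧
    (∀ (τ : Gal(Om/ℚ)) (a : Ideal (OO k t)) (i : ℕ), Psi τ n a → Psi (τ ^ i) n (a ^ i)) ∧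
    (∀ σ ∈ GK k t, ∀ τ ∈ GK k t, Psi (σ * τ * σ⁻¹ * τ⁻¹) n (⊤ : Ideal (OO k t))) ∧
    ∀ τ ∈ GK k t, ∀ τ' ∈ GK k t, ∀ a a' : Ideal (OO k t), Psi τ n a → Psi τ' n a' → Ray n a a' →
      Psi (τ⁻¹ * τ') n (⊤ : Ideal (OO k t))

/-- (80 lines) **Galois theory for groups of ray classes.** Uses `S_Ps`. Start from `DK/PI/GalI.lean`.
PROOF. (1), (2), (4): `gal` (its hypotheses are `top`, `cop`, `ray`, `mul`). (3): (2) and
`IntermediateField.fixingSubgroup_le`. (5): the definition of `FixI` (if `τ ∈ GK`, `Psi τ n a`, `H a` then `τ x = x`).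
(6): by (5): let `τ ∈ GK k t`, `Psi τ n a`, `H a`. `σ⁻¹ τ σ` has `Psi _ n (b' a b)` with `Ray n (b b') ⊤` (`S_Ps` (2)), so
`Ray n (b' a b) a` and `Psi (σ⁻¹ τ σ) n a`: it fixes `x` and `τ (σ x) = σ ((σ⁻¹ τ σ) x) = σ x`. (7): `S_Ps` (4) and (4)
(`H ⊤`). (8): (7) and (6): for `τ` in the fixing subgroup and `x ∈ FixI`: `σ⁻¹ x ∈ FixI`, so `σ τ σ⁻¹ x = x`. -/
def S_GalI : Prop :=
  S_Ps → ∀ (k t : ℕ) [SqT k t], Bas k t → ∀ (n : Ideal (OO k t)) (H : Ideal (OO k t) → Prop),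
    n ≠ ⊥ → NiceI n H →
    FiniteDimensional ℚ (FixI n H) ∧ KQ k t ≤ FixI n H ∧ (FixI n H).fixingSubgroup ≤ GK k t ∧
    (∀ τ ∈ GK k t, ∀ a : Ideal (OO k t), Psi τ n a → (τ ∈ (FixI n H).fixingSubgroup ↔ H a)) ∧
    (∀ x : Om, (∀ τ ∈ GK k t, (∃ a : Ideal (OO k t), Psi τ n a ∧ H a) → τ x = x) → x ∈ FixI n H) ∧
    (∀ σ ∈ GK k t, ∀ x ∈ FixI n H, σ x ∈ FixI n H) ∧
    (∀ σ ∈ GK k t, ∀ τ ∈ GK k t, σ * τ * σ⁻¹ * τ⁻¹ ∈ (FixI n H).fixingSubgroup) ∧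
    ∀ σ ∈ GK k t, ∀ τ ∈ (FixI n H).fixingSubgroup, σ * τ * σ⁻¹ ∈ (FixI n H).fixingSubgroup

/-- (80 lines) **The norm of `a` and `Qcyc 3`.** Uses MuZ `S_TFix`. Compare `DK/PI/NoC.lean` (here it is simpler).
PROOF. Let `τ ∈ GK k t` fix `Qcyc 3`, `Psi τ (sN (M 3 ^ N)) a`. Let `ζ = zet (3 ^ N)`, a primitive `3 ^ N`-th root of unity
in `Om` (`DI.tA2` in `DI/B/A12.lean` for `DI.zet`; `zet` of DT is the same expression). `cyc`: `τ ζ = ζ ^ c`, `c = NI a`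
(`ζ ^ (M 3 ^ N) = 1`). `S_TFix` for `p = 3`: `τ ^ 4` fixes `ζ`: `ζ ^ (c ^ 4) = ζ`, so `3 ^ N ∣ c ^ 4 - 1 = (c ^ 2 + 1)(c ^ 2 - 1)`. `3` does not
divide `c ^ 2 + 1`, so `3 ^ N ∣ c ^ 2 - 1 = (c - 1)(c + 1)`; `3` does not divide both factors, so one of them is prime to
`3` and `3 ^ N` divides the other. -/
def S_NoC : Prop :=
  S_TFix → ∀ (k t : ℕ) [SqT k t], Bas k t → ∀ τ ∈ GK k t, τ ∈ (Qcyc 3).fixingSubgroup →
    ∀ (M N : ℕ) (a : Ideal (OO k t)), 0 < M → Psi τ (sN k t (M * 3 ^ N)) a → Nm1 N a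

/-- (200 lines) **The layers.** Uses `S_NoC`, `S_GalI`, `S_NiL`, `S_Ps`, `S_Ar2`, MuZ `S_Lay`. Start from `DK/PI/LyI.lean`.
PROOF. `N = n + 1`, `H'` the predicate in `LyI`, nice by `S_NiL`; `L = FixI (sN (3 f)) H`, `F = LyI f n H`. `S_Lay` (second part)
for `k = L` and `Y = F.fixingSubgroup.subgroupOf L.fixingSubgroup`. `L ≤ F`: from the definition of `FixI`: if `τ ∈ GK k t`,
`Psi τ (sN (f 3 ^ N)) a` and `H a ∧ _` then `Psi τ (sN (3 f)) a` (`down`, `le3`), so `τ` fixes the elements of `L`. `Y` is open as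
`F` is finite dimensional. `Y` contains `(cyc 3 L).fixingSubgroup`: by `fix_cyc` (`MuZ/AsmA.lean`) such a `τ` fixes `L` and
`Qcyc 3`; `Psi τ (sN (f 3 ^ N)) a` (`psi`), `Psi τ (sN (3 f)) a`, `H a` by `S_GalI` (4), the norm is `±1` by `S_NoC`. INDEX: for
`τ ∈ L.fixingSubgroup` choose `a_τ` with `Psi τ (sN (f 3 ^ N)) a_τ`; `NI a_τ` is prime to `3` (`pni`), let `φ τ` be its class
in `(ZMod (3 ^ N))ˣ`. It does not depend on the choice (`uni`, `rnm`) and is multiplicative (`pmu`, `imul`): a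
homomorphism `φ : L.fixingSubgroup →* (ZMod (3 ^ N))ˣ`. Let `ψ` be its composition with the projection to the quotient
`Q = (ZMod (3 ^ N))ˣ ⧸ zpowers (-1)`. `ψ` is surjective: a class of `Q` is the class of an integer `c` prime to `3`, and also
of `-c`; one of them is `1` modulo `3`, say `c`. `S_Ar2` (2) gives `v`, `3 f ∣ v - 1`, `3 ^ N ∣ Nm v - c`; `v ≠ 0`
(`3 ∣ v - 1`) and `PrI (sp v) (sN (3 f))` (`1 ∈ (v) ⊔ (3 f)`), so `PrI (sp v) (sN (f 3 ^ N))` (`Bas.pr3`); `sur` for the ideal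
`(v)` (`NI (sp v) = Nm v`): `τ ∈ GK k t` with `Psi τ (sN (f 3 ^ N)) (sp v)`, and `Ray (sN (3 f)) ⊤ (sp v)` (`α = v`, `α' = 1`), so
`H (sp v)` (`top`, `ray`): `τ` fixes `L`. `Y` is the kernel of `ψ` (`S_GalI` (4) for `F`; `H a_τ` holds for `τ` in
`L.fixingSubgroup`; `QuotientGroup.eq_one_iff`, `Subgroup.mem_zpowers_iff`: `±1`). So its index is the order of `Q`
(`Subgroup.index_ker`), which is `φ(3 ^ N) / 2 = 3 ^ (N - 1) = 3 ^ n` (`-1 ≠ 1`). The field given by `S_Lay` has the same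
fixing subgroup as `F`, so it is `F`. -/
def S_LyI : Prop :=
  S_NoC → S_TFix → S_GalI → S_NiL → S_Ps → S_Ar2 → S_Lay → ∀ (k t : ℕ) [SqT k t], Bas k t →
  ∀ (f : ℕ) (H : Ideal (OO k t) → Prop), 0 < f → f.Coprime 3 → NiceI (sN k t (3 * f)) H →
    ∀ n : ℕ, Layer 3 (FixI (sN k t (3 * f)) H) n (LyI f n H)

/-- (50 lines) **The field `K` as `FixI`.** Uses `S_Ps`, `S_GalI`. Start from `DK/PI/KF1.lean`.
PROOF. `NiceI`: `top`: `Bas.top_ne`, `prI_top`. `cop`: clear. `ray`: `bot`, `pri`. `mul`: `mul_ne_zero`, `pmul`.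
`KQ k t ≤ FixI _ _`: `S_GalI` (2). `≥`: let `x ∈ FixI _ _`; every `τ ∈ GK k t` fixes it (`psi` gives `a` with `Psi τ _ a`,
`Gd _ a` by `Psi.ne`, `Psi.cop`), so `x ∈ KQ k t` by `InfiniteGalois.fixedField_fixingSubgroup`. -/
def S_KF1 : Prop :=
  S_Ps → S_GalI → ∀ (k t : ℕ) [SqT k t], Bas k t →
    NiceI (sN k t (3 * 1)) (Gd (sN k t (3 * 1))) ∧
      FixI (sN k t (3 * 1)) (Gd (sN k t (3 * 1))) = KQ k t

/-- (80 lines) **A prime above `𝔭` exists.** Start from `DK/PI/ExP.lean`; complex conjugation: `DI.tA1` in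
`DI/B/A12.lean` (`S_A1` of DI).
PROOF. `wO k t` is a root of `x ^ 2 = t x - 3 k` (`io (wO k t) = wC k t`: `wC k t` is algebraic, `io_ofC`; `wC` has real part `t / 2`
and imaginary part `√D / 2`, `D = 12 k - t ^ 2 ≥ 0`), so it is integral; `w' : ZZ` the corresponding element. The ideal
`I = (3, w')` of `ZZ` is not everything: the complex conjugation `c ∈ Gal(Om/ℚ)` maps `wO` to `t - wO` (apply `io`;
`conj wC = t - wC`), so if `1 = 3 x + w' y` then `1 = 3 x' + (t - w') y'` and the product is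
`1 = 3 z + w' (t - w') y y' = 3 (z + k y y')`; but `1 / 3` is not integral over `ℤ` (`IsIntegrallyClosed ℤ`). So `I` is
contained in a maximal ideal `P` (`Ideal.exists_le_maximal`), `P ≠ ⊥` as `3 ≠ 0`. `MP P 3`, `MP P wO`: `b = 1`. Second part:
if `3 b = a` with `a ∈ P`, `b ∉ P` then `3 ∈ P`. -/
def S_ExP : Prop :=
  ∀ (k t : ℕ) [SqT k t], (∃ P : Ideal ZZ, AbP k t P) ∧
    ∀ P : Ideal ZZ, AbP k t P → (3 : ZZ) ∈ P ∧ Npr P ∧ MP P 3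

/-- (80 lines) **Teichmüller representatives.** Start from `DI/PI/Tei.lean` (`2` replaced by `3`, `Odd m` by
`m.Coprime 3`; `m ∈ P` and `3 ∈ P` gives `1 ∈ P` by Bézout). -/
def S_Tei : Prop :=
  ∀ P : Ideal ZZ, P.IsPrime → (3 : ZZ) ∈ P → ∀ m : ℕ, m.Coprime 3 →
    (∃ t : ZZ ⧸ P → ZZ, ∀ x, x ^ m = 1 → (t x) ^ m = 1 ∧ Ideal.Quotient.mk P (t x) = x ∧
      ∀ y, y ^ m = 1 → t (x * y) = t x * t y) ∧
    ∀ z z' : ZZ, z ^ m = 1 → z' ^ m = 1 → Ideal.Quotient.mk P z = Ideal.Quotient.mk P z' → z = z'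

/-- (80 lines) **The Kummer character is additive.** Uses nothing.
PROOF. `ζ = zet 3` is a primitive third root of unity (`DI.tA2`). `cbr w ^ 3 = w` (`Om` is algebraically closed:
`IsAlgClosed.exists_pow_nat_eq`), `cbr w ≠ 0` for `w ≠ 0`. If `d w = w`, `w ≠ 0` then `(d (cbr w)) ^ 3 = w = cbr w ^ 3`, so
`d (cbr w) = ζ ^ i cbr w` for a unique `i ∈ {0, 1, 2}` (`IsPrimitiveRoot.eq_pow_of_pow_eq_one`) and `kap w d = i`. FACT: for every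
`y` with `y ^ 3 = w ≠ 0` and `d ζ = ζ`, `d w = w`: `d y = ζ ^ (kap w d).val y` (`y = ζ ^ l cbr w`). (1) `y = cbr x cbr y'`.
(2) `y = b cbr x` is a cube root of `b ^ 3 x` with `d y = ζ ^ (kap x d).val y`; uniqueness of the exponent modulo `3`. -/
def S_Kap : Prop :=
  (∀ (d : Gal(Om/ℚ)) (x y : Om), x ≠ 0 → y ≠ 0 → d x = x → d y = y → d (zet 3) = zet 3 →
    kap (x * y) d = kap x d + kap y d) ∧
  ∀ (d : Gal(Om/ℚ)) (x b : Om), x ≠ 0 → b ≠ 0 → d x = x → d b = b → d (zet 3) = zet 3 →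
    kap (b ^ 3 * x) d = kap x d

/-- (150 lines) **The lift of a character.** Uses `S_Tei`, `S_Ps`, `S_GalI`, `S_Ar3`. Start from `DK/PI/Chi.lean`.
PROOF. `n = sN (3 f)`. `m` from `S_Ar3` (1), `T` from `S_Tei`. For `a` with `Gd n a`: `sur` gives `τ ∈ GK k t` with `Psi τ n a`; put
`σ = τ⁻¹`, so `Psi σ⁻¹ n a`. FACT 1: if `σ, σ' ∈ GK`, `Psi σ⁻¹ n a`, `Psi σ'⁻¹ n a'`, `Ray n a a'` then `χb σ = χb σ'`: `σ σ'⁻¹` has
`Psi _ n ⊤` (`S_Ps` (5) for `σ⁻¹`, `σ'⁻¹`), so it fixes `Lf k t f = FixI n (H3 f)` (`S_GalI`; `NiceI` by `S_Ar3`), so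
`χb σ = χb (σ σ'⁻¹) χb σ' = χb σ'`. FACT 2: `(χb σ) ^ m = 1` for `σ ∈ GK`: `Psi σ n a` (`psi`), `Psi (σ ^ m) n (a ^ m)`
(`S_Ps` (3)), `H3 f (a ^ m)`, so `σ ^ m` fixes `Lf k t f` (`χb (σ ^ m) = (χb σ) ^ m` by induction; `χb 1 = 1` since `1` fixes
`Lf k t f`). DEFINITION: `χ a = T (χb σ)` for some `σ ∈ GK` with `Psi σ⁻¹ n a` if `Gd n a`, `χ a = 0` otherwise; by FACT 1 it
does not depend on `σ` and depends only on the class. `zero`, `ray`: clear. `mul`: if one of `a`, `b` is not in `Gd n` then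
`a b` is not (`pmul`; `a * b = ⊥ ↔ ..`, `dd`) and both sides are `0`; otherwise `(σ_a σ_b)⁻¹ = σ_b⁻¹ σ_a⁻¹` has
`Psi _ n (b a)` (`pmu`) and `T` is multiplicative. `cop`: `(T x) ^ m = 1`. Last property: definition, `mk (T x) = x`, `Psi.ne`,
`Psi.cop`. -/
def S_Chi : Prop :=
  S_Tei → S_Ps → S_GalI → S_Ar3 → S_Cg → ∀ (k t : ℕ) [SqT k t], Bas k t → ∀ f : ℕ, Fok f →
  ∀ P : Ideal ZZ, P.IsPrime → (3 : ZZ) ∈ P →
  ∀ χb : Gal(Om/ℚ) → ZZ ⧸ P, (∀ σ ∈ GK k t, ∀ τ ∈ GK k t, χb (σ * τ) = χb σ * χb τ) →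
    (∀ σ ∈ (Lf k t f).fixingSubgroup, χb σ = 1) →
    ∃ χ : Ideal (OO k t) → ZZ, IsChi (sN k t (3 * f)) (fun a => (χ a : Om)) ∧
      (∀ σ ∈ GK k t, ∀ a : Ideal (OO k t), Psi σ⁻¹ (sN k t (3 * f)) a →
        Ideal.Quotient.mk P (χ a) = χb σ) ∧
      ∃ m : ℕ, m.Coprime 3 ∧ ∀ σ ∈ GK k t, χb σ ^ m = 1

/-- The data given by Part G. -/
structure GDat (k t f : ℕ) (m : Ideal (OO k t)) (P : Ideal ZZ) (d : Gal(Om/ℚ))
    (T : ℕ → Finset (OO k t)) : Prop where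
  fm : FM f m
  ab : AbP k t P
  dec : ∀ x : ZZ, x ∈ P → d • x ∈ P
  fix : ∀ n : ℕ, 1 ≤ n → ∀ x ∈ Mn k t f n, d x = x
  rep : ∀ n : ℕ, IsRep f (n + 1) (T n)

/-- The functions `b n` on `Gal(L'_n/K)`. -/
def bb {k t : ℕ} (f : ℕ) (m : Ideal (OO k t)) (d : Gal(Om/ℚ)) (T : ℕ → Finset (OO k t)) (n : ℕ)
    (σ : Gal(Om/ℚ)) : ZMod 3 :=
  kap (σ⁻¹ (uN f (n + 1) m (T n) ⊤)) d

/-- The functions `A n` on `Gal(L_n/K)`. -/
def AA {k t : ℕ} (f : ℕ) (m : Ideal (OO k t)) (d : Gal(Om/ℚ)) (T : ℕ → Finset (OO k t)) (n : ℕ)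
    (σ : Gal(Om/ℚ)) : ZMod 3 :=
  ∑ s ∈ rsys (Ln k t f (n + 1)).fixingSubgroup (Mn k t f (n + 1)).fixingSubgroup,
    bb f m d T n (σ * s)

/-- The functions `a n` on `Gal(L_n/K)`. -/
def aG {k t : ℕ} (f : ℕ) (m : Ideal (OO k t)) (d : Gal(Om/ℚ)) (T : ℕ → Finset (OO k t))
    (g : Gal(Om/ℚ)) (n : ℕ) (σ : Gal(Om/ℚ)) : ZMod 3 :=
  AA f m d T n (σ * g⁻¹) - AA f m d T n σ

/-- (100 lines) **The fields `L_n` and `L'_n`.** Uses `S_GM`, `S_Ar3`, `S_NiL`, `S_GalI`. Start from `DK/PI/LM.lean`.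
PROOF. `N = n + 1`. `Ln k t f N = LyI f n (H3 f)` by `S_Ar3` (5) (rewrite `H3N` in the definition of `Ln`), `Lf k t f =
FixI (sN (3 f)) (H3 f)` (`rfl`), `NiceI` by `S_Ar3` (3), `S_NiL`; `S_GalI` for both. The same for `Mf k t f = FixI _ (HP f)`,
`Mn k t f N = FixI _ (HPN f N)` (`NiceI` from `S_GM`). `Lf ≤ Ln`: if `Psi τ (sN (f 3 ^ N)) a` and `H3 f a ∧ _` then
`Psi τ (sN (3 f)) a` (`down`, `le3`): definition of `FixI`. `Ln ≤ Mn`: `HPN f N a → H3N f N a`: `HPN f N a` gives `HP f a` and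
`3 ^ N ∣ NI a - 1` (`S_GM`); `HP f a → H3 f a`: `Ray (sN (3 f)) a (sp v)`, `3 f ∣ v ^ 3 ^ j - 1`, so `Ray (sN (3 f)) (a ^ 3 ^ j) (sp (v ^ 3 ^ j))`
(`mul`, `Ideal.span_singleton_pow`) and `Ray (sN (3 f)) (sp (v ^ 3 ^ j)) ⊤` (`α = 1`, `α' = v ^ 3 ^ j`); then the definition of
`FixI`. The relative index of `Mn.fixingSubgroup` in `Ln.fixingSubgroup` is not `0`: the subgroup is open (`Mn` is finite
dimensional), so of finite index in the compact group `Gal(Om/ℚ)` (see `DK/PI/LM.lean`). The inclusions for `n + 2`: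
definition of `FixI` again; the same for `Mn`: `S_GM`. `zet 3`: `Mn k t f 1 ≤ Mn k t f (n + 1)` (`S_GM`, induction) and the
last part of `S_GM` for `N = 1`, `ζ = zet 3` (primitive third root of unity, `DI.tA2`). -/
def S_LM : Prop :=
  S_Cg → S_Ar3 → S_NiL → S_Ps → S_GalI → S_GM → ∀ (k t : ℕ) [SqT k t], Bas k t → ∀ f : ℕ, Fok f →
    (Lf k t f).fixingSubgroup ≤ GK k t ∧
    (∀ n : ℕ, Ln k t f (n + 1) = LyI f n (H3 (k := k) (t := t) f)) ∧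
    ∀ n : ℕ,
      (Ln k t f (n + 1)).fixingSubgroup ≤ (Lf k t f).fixingSubgroup ∧
      (Mn k t f (n + 1)).fixingSubgroup ≤ (Ln k t f (n + 1)).fixingSubgroup ∧
      (Mn k t f (n + 1)).fixingSubgroup.relIndex (Ln k t f (n + 1)).fixingSubgroup ≠ 0 ∧
      (Ln k t f (n + 1 + 1)).fixingSubgroup ≤ (Ln k t f (n + 1)).fixingSubgroup ∧
      (Mn k t f (n + 1 + 1)).fixingSubgroup ≤ (Mn k t f (n + 1)).fixingSubgroup ∧
      (Mn k t f (n + 1 + 1)).fixingSubgroup.relIndex (Mn k t f (n + 1)).fixingSubgroup ≠ 0 ∧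
      (∀ σ ∈ GK k t, ∀ τ ∈ (Ln k t f (n + 1)).fixingSubgroup,
        σ * τ * σ⁻¹ ∈ (Ln k t f (n + 1)).fixingSubgroup) ∧
      (∀ σ ∈ GK k t, ∀ τ ∈ (Mn k t f (n + 1)).fixingSubgroup,
        σ * τ * σ⁻¹ ∈ (Mn k t f (n + 1)).fixingSubgroup) ∧
      (∀ σ ∈ GK k t, ∀ τ ∈ GK k t, σ * τ * σ⁻¹ * τ⁻¹ ∈ (Mn k t f (n + 1)).fixingSubgroup) ∧
      (∀ τ ∈ GK k t, ∀ a : Ideal (OO k t), Psi τ (sN k t (f * 3 ^ (n + 1))) a →
        (τ ∈ (Mn k t f (n + 1)).fixingSubgroup ↔ HPN f (n + 1) a)) ∧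
      ∀ τ ∈ (Mn k t f (n + 1)).fixingSubgroup, τ (zet 3) = zet 3

/-- (60 lines) **Invariance of `b n`.** Uses `S_G3`. Start from `DK/PI/BInv.lean`.
PROOF. `(σ τ)⁻¹ u = τ⁻¹ (σ⁻¹ u)`; `psi` gives `a` with `Psi σ⁻¹ (sN (f 3 ^ (n + 1))) a`; `S_G3`: `σ⁻¹ u(⊤) = u(a * ⊤) = u(a)`
(`Gd (sN (3 f)) a` from `Psi.ne`, `Psi.cop`, `Bas.pr3`), which is in `Mn k t f (n + 1)`, so it is fixed by `τ⁻¹`. -/
def S_BInv : Prop :=
  S_G3 → ∀ (k t : ℕ) [SqT k t], Bas k t → ∀ (f : ℕ) (m : Ideal (OO k t)) (P : Ideal ZZ)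
    (d : Gal(Om/ℚ)) (T : ℕ → Finset (OO k t)), GDat k t f m P d T → ∀ n : ℕ, ∀ σ ∈ GK k t,
    (∀ τ ∈ (Mn k t f (n + 1)).fixingSubgroup, bb f m d T n (σ * τ) = bb f m d T n σ) ∧
    ∀ a : Ideal (OO k t), Psi σ⁻¹ (sN k t (f * 3 ^ (n + 1))) a → Gd (sN k t (3 * f)) a ∧
      bb f m d T n σ = kap (uN f (n + 1) m (T n) a) d

/-- (200 lines) **Norm compatibility of `b n`.** Uses `S_BInv`, `S_G3`, `S_Kap`, `S_GM`, `S_Ps`, `S_Ar2` (and `S_LM`, whose conclusion is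
the hypothesis `hl`). Compare `DK/PI/BNrm.lean`.
PROOF. `N = n + 1`, `F = Mn N`, `F' = Mn (N + 1)`, `M' = f 3 ^ (N + 1)`, `V = F.fixingSubgroup`, `V' = F'.fixingSubgroup`. For `τ ∈ V`
let `Psi τ (sN M') a`; then `Psi τ (sN (f 3 ^ N)) a` (`down`), `HPN f N a` (`hl`), so `HP f a` and `NI a = 1 + 3 ^ N j`, and the class
`i(τ)` of `j` modulo `3` does not depend on `a` (`uni`, `rnm`). `i : V → ZMod 3` is additive (`pmu`, `imul`,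
`(1 + 3 ^ N j)(1 + 3 ^ N j') ≡ 1 + 3 ^ N (j + j')` modulo `3 ^ (N + 1)` as `2 N ≥ N + 1`), and `i(τ) = 0` iff `τ ∈ V'` (`S_GM`: `HPN f (N+1) a`
iff `HP f a` and `3 ^ (N + 1) ∣ NI a - 1`). There is `s ∈ V` with `i(s) = 1`: `v` from `S_Ar2` (2) with `3 f ∣ v - 1`,
`Nm v ≡ 1 + 3 ^ N mod 3 ^ (N + 1)`, `τ` with `Psi τ (sN M') (sp v)` (`sur`; `v ≠ 0`, `PrI (sp v) _` as in `S_LyI`): `HPN f N (sp v)`
(`HP f (sp v)` from `HP f ⊤` and `Ray (sN (3 f)) ⊤ (sp v)`; norm). So the map `R → ZMod 3`, `r ↦ i(r⁻¹)`, is a bijection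
(injective: `Reps.uni`; surjective: `Reps.ex` for `s ^ j`, ...); let `r_j` correspond to `j = 0, 1, 2`: `r_j⁻¹ = s ^ j v_j`, `v_j ∈ V'`
(`i(s ^ (-j) r_j⁻¹) = 0`). Put `x = σ⁻¹ u'`, `u' = u_(n+1)(⊤)`: it is `u'(a)` for `Psi σ⁻¹ (sN M') a` (`S_BInv`), in `F'`, so
`(σ r_j)⁻¹ u' = r_j⁻¹ x = s ^ j x`, and the sum is `kap x d + kap (s x) d + kap (s (s x)) d = kap (x * s x * s (s x)) d` (`S_Kap`; the
three elements are in `F'` [they are `u'` of ideals by `S_G3`], so they are fixed by `d`, and not `0`; `d (zet 3) = zet 3`: `hl` for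
`d ∈ V`, `GDat.fix`). `S_G3` (last part) with `b = a`, `T = T n`, `T' = T (n + 1)`, `s`, `Psi s (sN M') a'`, `HPN f N a'`,
`¬ HPN f (N + 1) a'`: `x * s x * s (s x) = c ^ 3 u_n(a)`, `c ∈ Mf ≤ F`, so `d c = c` and the sum is `kap (u_n(a)) d = bb n σ` (`S_Kap` (2),
`S_BInv` (2); `Psi σ⁻¹ (sN (f 3 ^ N)) a` by `down`). -/
def S_BNrm : Prop :=
  S_BInv → S_G3 → S_Kap → S_GM → S_Ps → S_Ar2 → ∀ (k t : ℕ) [SqT k t], Bas k t →
    ∀ (f : ℕ) (m : Ideal (OO k t)) (P : Ideal ZZ) (d : Gal(Om/ℚ)) (T : ℕ → Finset (OO k t)),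
    GDat k t f m P d T →
    (∀ n : ℕ, (Mn k t f (n + 1)).fixingSubgroup ≤ GK k t ∧
      (∀ τ ∈ GK k t, ∀ a : Ideal (OO k t), Psi τ (sN k t (f * 3 ^ (n + 1))) a →
        (τ ∈ (Mn k t f (n + 1)).fixingSubgroup ↔ HPN f (n + 1) a)) ∧
      ∀ τ ∈ (Mn k t f (n + 1)).fixingSubgroup, τ (zet 3) = zet 3) →
    ∀ n : ℕ, ∀ σ ∈ GK k t, ∀ R : Finset Gal(Om/ℚ),
    Reps (Mn k t f (n + 1)).fixingSubgroup (Mn k t f (n + 1 + 1)).fixingSubgroup R →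
    ∑ r ∈ R, bb f m d T (n + 1) (σ * r) = bb f m d T n σ

/-- (80 lines) **Properties of `A n`.** Uses `DI.PI.S_RpS`, `DK.PI.S_RpT`. Edit of `DK/PI/AP.lean` (same proof, `n + 2` replaced
by `n + 1`). -/
def S_AP : Prop :=
  DI.PI.S_RpS → DK.PI.S_RpT → ∀ (k t : ℕ) [SqT k t] (f : ℕ) (m : Ideal (OO k t)) (d : Gal(Om/ℚ))
    (T : ℕ → Finset (OO k t)),
    (∀ n : ℕ, ∀ σ ∈ GK k t, ∀ τ ∈ (Mn k t f (n + 1)).fixingSubgroup,
      bb f m d T n (σ * τ) = bb f m d T n σ) →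
    (∀ n : ℕ, ∀ σ ∈ GK k t, ∀ R : Finset Gal(Om/ℚ),
      Reps (Mn k t f (n + 1)).fixingSubgroup (Mn k t f (n + 1 + 1)).fixingSubgroup R →
      ∑ r ∈ R, bb f m d T (n + 1) (σ * r) = bb f m d T n σ) →
    (∀ n : ℕ, (Ln k t f (n + 1)).fixingSubgroup ≤ GK k t ∧
      (Mn k t f (n + 1)).fixingSubgroup ≤ (Ln k t f (n + 1)).fixingSubgroup ∧
      (Mn k t f (n + 1)).fixingSubgroup.relIndex (Ln k t f (n + 1)).fixingSubgroup ≠ 0 ∧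
      (Ln k t f (n + 1 + 1)).fixingSubgroup ≤ (Ln k t f (n + 1)).fixingSubgroup ∧
      (Mn k t f (n + 1 + 1)).fixingSubgroup ≤ (Mn k t f (n + 1)).fixingSubgroup ∧
      (Mn k t f (n + 1 + 1)).fixingSubgroup.relIndex (Mn k t f (n + 1)).fixingSubgroup ≠ 0) →
    ∀ n : ℕ, ∀ σ ∈ GK k t,
      (∀ S : Finset Gal(Om/ℚ),
        Reps (Ln k t f (n + 1)).fixingSubgroup (Mn k t f (n + 1)).fixingSubgroup S →
        AA f m d T n σ = ∑ s ∈ S, bb f m d T n (σ * s)) ∧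
      (∀ τ ∈ (Ln k t f (n + 1)).fixingSubgroup, AA f m d T n (σ * τ) = AA f m d T n σ) ∧
      ∀ R : Finset Gal(Om/ℚ),
        Reps (Ln k t f (n + 1)).fixingSubgroup (Ln k t f (n + 1 + 1)).fixingSubgroup R →
        ∑ r ∈ R, AA f m d T (n + 1) (σ * r) = AA f m d T n σ

/-- (80 lines) **Properties of `a n`.** Uses `DK.PI.S_RpT`. Edit of `DK/PI/aP.lean` (`n + 2` replaced by `n + 1`, a minus sign). -/
def S_aP : Prop :=
  DK.PI.S_RpT → ∀ (k t : ℕ) [SqT k t] (f : ℕ) (m : Ideal (OO k t)) (d : Gal(Om/ℚ))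
    (T : ℕ → Finset (OO k t)),
    (∀ n : ℕ, ∀ σ ∈ GK k t,
      (∀ τ ∈ (Ln k t f (n + 1)).fixingSubgroup, AA f m d T n (σ * τ) = AA f m d T n σ) ∧
      ∀ R : Finset Gal(Om/ℚ),
        Reps (Ln k t f (n + 1)).fixingSubgroup (Ln k t f (n + 1 + 1)).fixingSubgroup R →
        ∑ r ∈ R, AA f m d T (n + 1) (σ * r) = AA f m d T n σ) →
    (∀ n : ℕ, (Ln k t f (n + 1)).fixingSubgroup ≤ GK k t ∧
      (Ln k t f (n + 1 + 1)).fixingSubgroup ≤ (Ln k t f (n + 1)).fixingSubgroup ∧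
      ∀ σ ∈ GK k t, ∀ τ ∈ (Ln k t f (n + 1)).fixingSubgroup,
        σ * τ * σ⁻¹ ∈ (Ln k t f (n + 1)).fixingSubgroup) →
    ∀ g ∈ GK k t, ∀ n : ℕ, ∀ σ ∈ GK k t,
      (∀ τ ∈ (Ln k t f (n + 1)).fixingSubgroup, aG f m d T g n (σ * τ) = aG f m d T g n σ) ∧
      ∀ R : Finset Gal(Om/ℚ),
        Reps (Ln k t f (n + 1)).fixingSubgroup (Ln k t f (n + 1 + 1)).fixingSubgroup R →
        ∑ r ∈ R, aG f m d T g (n + 1) (σ * r) = aG f m d T g n σ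

/-- (150 lines) **Thaine's relation for `a n`.** Uses `S_H`, `DI.PI.S_RpS`, `DK.PI.S_RpT`. Edit of `DK/PI/AThm.lean`: the proof is the
same with `n + 1`, `VV 3 (Loc 3)`, `ZMod 3`; no condition on `i`; at the end the sum is
`Φ (g τ g⁻¹) - Φ τ = 0` (see the docstring of `DK.PI.S_AThm`). -/
def S_AThm : Prop :=
  S_H → DI.PI.S_RpS → DK.PI.S_RpT → ∀ (k t : ℕ) [SqT k t], Bas k t → ∀ (f : ℕ)
    (m : Ideal (OO k t)) (P : Ideal ZZ) (d : Gal(Om/ℚ)) (T : ℕ → Finset (OO k t)),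
    GDat k t f m P d T →
    ∀ n : ℕ, (Ln k t f (n + 1)).fixingSubgroup ≤ GK k t →
    (Mn k t f (n + 1)).fixingSubgroup ≤ (Ln k t f (n + 1)).fixingSubgroup →
    (Mn k t f (n + 1)).fixingSubgroup.relIndex (Ln k t f (n + 1)).fixingSubgroup ≠ 0 →
    (∀ σ ∈ GK k t, ∀ τ ∈ (Ln k t f (n + 1)).fixingSubgroup,
      σ * τ * σ⁻¹ ∈ (Ln k t f (n + 1)).fixingSubgroup) →
    (∀ σ ∈ GK k t, ∀ τ ∈ (Mn k t f (n + 1)).fixingSubgroup,
      σ * τ * σ⁻¹ ∈ (Mn k t f (n + 1)).fixingSubgroup) →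
    (∀ σ ∈ GK k t, ∀ τ ∈ GK k t, σ * τ * σ⁻¹ * τ⁻¹ ∈ (Mn k t f (n + 1)).fixingSubgroup) →
    (∀ σ ∈ GK k t,
      (∀ S : Finset Gal(Om/ℚ),
        Reps (Ln k t f (n + 1)).fixingSubgroup (Mn k t f (n + 1)).fixingSubgroup S →
        AA f m d T n σ = ∑ s ∈ S, bb f m d T n (σ * s)) ∧
      ∀ τ ∈ (Ln k t f (n + 1)).fixingSubgroup, AA f m d T n (σ * τ) = AA f m d T n σ) →
    ∀ g ∈ GK k t, ∀ φ ∈ VV 3 (Loc 3) (Ln k t f (n + 1)).fixingSubgroup,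
      ∀ τ ∈ (Ln k t f (n + 1)).fixingSubgroup, ∀ R : Finset Gal(Om/ℚ),
      Reps (GK k t) (Ln k t f (n + 1)).fixingSubgroup R →
      ∑ r ∈ R, aG f m d T g n r * φ (r * τ * r⁻¹) = 0

/-- (200 lines) **The system `D`.** Uses the statements named. Start from `DK/PI/DS.lean`.
PROOF. `N = n + 1`, `M = f 3 ^ N`, `E = Kn k t n = FixI (sN (1 * 3 ^ N)) (fun a => Gd (sN (3 * 1)) a ∧ Nm1 N a)` (nice by `S_KF1`,
`S_NiL` for `f = 1`), `F = Mn k t f N`; for `τ ∈ GK k t`, `Psi τ (sN M) a`: `τ ∈ E.fixingSubgroup ↔ Nm1 N a` (`down`,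
`sN M ≤ sN (1 * 3 ^ N)`, `S_GalI` (4); `Gd (sN (3 * 1)) a` holds: `Psi.ne`, `pni`) and
`τ ∈ F.fixingSubgroup ↔ HPN f N a ↔ HP f a ∧ 3 ^ N ∣ NI a - 1` (`S_LM`, `S_GM`). REMARK A: if `HP f a` then `3 ∣ NI a - 1`
(`HP f a → H3 f a` as in `S_LM`, `S_Ar3` (4)), so for `HP f a` the conditions `Nm1 N a` and `3 ^ N ∣ NI a - 1` are equivalent.
`c_r = c r` for `r ∈ R`. (1) let `c_r = c_r'`; `S_Ps` (5) for `r⁻¹`, `r'⁻¹`: `r r'⁻¹` has `Psi _ (sN M) ⊤`, so it is in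
`F.fixingSubgroup`, and so is its conjugate `r'⁻¹ r` (`S_LM`), `uni`. (2) `mem`: `Psi.ne`, `Psi.cop` (`Bas.pr3`), and
`r⁻¹ ∈ E.fixingSubgroup`. `ex`: let `Gd (sN (3 f)) b`; its norm `ν` is prime to `3` (`pni`). Let `c' ν ≡ 1` modulo `3 ^ N`; if
`3 ∤ c' - 1` replace `c'` by `-c'`: so `3 ∣ c' - 1` and `c' ν ≡ ±1` modulo `3 ^ N`. `v` from `S_Ar2` (2) with `3 f ∣ v - 1`,
`Nm v ≡ c' mod 3 ^ N` (so `v ≠ 0`, `PrI (sp v) (sN (3 f))`), `b' = sp v * b`: `NI b' ≡ ±1 mod 3 ^ N`, `PrI b' (sN M)`,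
`Ray (sN (3 f)) b b'` (`α = v`, `α' = 1`). `sur`: `τ ∈ GK k t`, `Psi τ (sN M) b'`; `τ` and `τ⁻¹` are in `E.fixingSubgroup`, so
`r⁻¹ τ⁻¹ ∈ F.fixingSubgroup` for some `r ∈ R`: `Psi (r⁻¹ τ⁻¹) (sN M) e`, `HP f e`, and `r⁻¹ = (r⁻¹ τ⁻¹) τ` has
`Psi _ (sN M) (e b')`: `Ray (sN M) c_r (e b')` (`uni`), hence modulo `3 f` (`mono`, `le3`). `e'` with `HP f e'`, `Ray (e e') ⊤`
(`S_Ar3` (6), `HP f` is nice by `S_GM`): `b ~ b' ~ e' e b' ~ e' c_r`. `uni`: let `HP f a`, `Ray (sN (3 f)) c_r' (a c_r)`. `r'⁻¹ r` has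
`Psi _ (sN M) (c_r' e)` where `Psi r (sN M) e`, `Ray (sN M) (c_r e) ⊤` (`S_Ps` (2)); `c_r' e ~ a c_r e ~ a` modulo `3 f`, so
`HP f (c_r' e)`, and `r'⁻¹ r ∈ E.fixingSubgroup`, so `Nm1 N (c_r' e)`: by REMARK A `r'⁻¹ r ∈ F.fixingSubgroup`, `r' = r`. -/
def S_DS : Prop :=
  S_Cg → S_Ar2 → S_Ar3 → S_NiL → S_Ps → S_GalI → S_KF1 → S_LM → S_GM → ∀ (k t : ℕ) [SqT k t],
    Bas k t → ∀ f n : ℕ, Fok f →
    (Kn k t n).fixingSubgroup ≤ GK k t ∧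
    (Mn k t f (n + 1)).fixingSubgroup ≤ (Kn k t n).fixingSubgroup ∧
    ∀ R : Finset Gal(Om/ℚ), Reps (Kn k t n).fixingSubgroup (Mn k t f (n + 1)).fixingSubgroup R →
      ∀ c : Gal(Om/ℚ) → Ideal (OO k t), (∀ r ∈ R, Psi r⁻¹ (sN k t (f * 3 ^ (n + 1))) (c r)) →
        (∀ r ∈ R, ∀ r' ∈ R, c r = c r' → r = r') ∧
          ∃ D : Finset (Ideal (OO k t)), (∀ a, a ∈ D ↔ ∃ r ∈ R, c r = a) ∧ IsDS f (n + 1) D

/-- (150 lines) **The component does not vanish.** Uses `DI.PI.S_RpS`, `DK.PI.S_RpT`, `S_BInv`. Edit of `DK/PI/ANv.lean` (see the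
docstring of `DK.PI.S_ANv`): `x ↦ (x.val : ZZ ⧸ P)` from `ZMod 3` is a ring homomorphism (`3 = 0` in `ZZ ⧸ P`), the total in STEP 3 is
`(χb g - 1) Σ'`, not `0` as `χb g ≠ 1`. -/
def S_ANv : Prop :=
  DI.PI.S_RpS → DK.PI.S_RpT → S_BInv → S_G3 → ∀ (k t : ℕ) [SqT k t], Bas k t → ∀ (f : ℕ)
    (m : Ideal (OO k t)) (P : Ideal ZZ) (d : Gal(Om/ℚ)) (T : ℕ → Finset (OO k t)),
    GDat k t f m P d T → (3 : ZZ) ∈ P →
  ∀ n : ℕ, (Kn k t n).fixingSubgroup ≤ GK k t →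
    (Ln k t f (n + 1)).fixingSubgroup ≤ (Kn k t n).fixingSubgroup →
    (Ln k t f (n + 1)).fixingSubgroup ≤ (Lf k t f).fixingSubgroup →
    (Mn k t f (n + 1)).fixingSubgroup ≤ (Ln k t f (n + 1)).fixingSubgroup →
    (Mn k t f (n + 1)).fixingSubgroup.relIndex (Ln k t f (n + 1)).fixingSubgroup ≠ 0 →
    (∀ σ ∈ GK k t, ∀ τ ∈ (Ln k t f (n + 1)).fixingSubgroup,
      σ * τ * σ⁻¹ ∈ (Ln k t f (n + 1)).fixingSubgroup) →
    (∀ σ ∈ GK k t,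
      (∀ S : Finset Gal(Om/ℚ),
        Reps (Ln k t f (n + 1)).fixingSubgroup (Mn k t f (n + 1)).fixingSubgroup S →
        AA f m d T n σ = ∑ s ∈ S, bb f m d T n (σ * s)) ∧
      ∀ τ ∈ (Ln k t f (n + 1)).fixingSubgroup, AA f m d T n (σ * τ) = AA f m d T n σ) →
  ∀ (χb : Gal(Om/ℚ) → ZZ ⧸ P) (χ : Ideal (OO k t) → ZZ),
    (∀ σ ∈ GK k t, ∀ τ ∈ GK k t, χb (σ * τ) = χb σ * χb τ) →
    (∀ σ ∈ (Lf k t f).fixingSubgroup, χb σ = 1) →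
    (∀ σ ∈ GK k t, ∀ a : Ideal (OO k t), Psi σ⁻¹ (sN k t (3 * f)) a →
      Ideal.Quotient.mk P (χ a) = χb σ) →
  ∀ (R' : Finset Gal(Om/ℚ)) (c : Gal(Om/ℚ) → Ideal (OO k t)) (D : Finset (Ideal (OO k t))),
    Reps (Kn k t n).fixingSubgroup (Mn k t f (n + 1)).fixingSubgroup R' →
    (∀ r ∈ R', Psi r⁻¹ (sN k t (f * 3 ^ (n + 1))) (c r)) →
    (∀ r ∈ R', ∀ r' ∈ R', c r = c r' → r = r') →
    (∀ a, a ∈ D ↔ ∃ r ∈ R', c r = a) →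
    ¬ MP P (∑ a ∈ D, (χ a : Om) * ((kap (uN f (n + 1) m (T n) a) d).val : Om)) →
  ∀ g ∈ (Kn k t n).fixingSubgroup, χb g ≠ 1 → ∀ R : Finset Gal(Om/ℚ),
    Reps (Kn k t n).fixingSubgroup (Ln k t f (n + 1)).fixingSubgroup R →
    ∑ r ∈ R, ((aG f m d T g n r).val : ZZ ⧸ P) * χb r ≠ 0

/-- (60 lines) **The element `g`.** Edit of `DK/PI/gEx.lean`: `g = σ ^ 3 ^ n`, `3 ^ n` and `m` are coprime. -/
def S_gEx : Prop :=
  S_Lay → ∀ (k t : ℕ) [SqT k t] (n : ℕ), FiniteDimensional ℚ (KQ k t) →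
    Layer 3 (KQ k t) n (Kn k t n) →
    (∀ σ ∈ GK k t, ∀ τ ∈ (Kn k t n).fixingSubgroup, σ * τ * σ⁻¹ ∈ (Kn k t n).fixingSubgroup) →
    ∀ (P : Ideal ZZ) (χb : Gal(Om/ℚ) → ZZ ⧸ P),
      (∀ σ ∈ GK k t, ∀ τ ∈ GK k t, χb (σ * τ) = χb σ * χb τ) → χb 1 = 1 →
      (∃ m : ℕ, m.Coprime 3 ∧ ∀ σ ∈ GK k t, χb σ ^ m = 1) → (∃ σ ∈ GK k t, χb σ ≠ 1) →
      ∃ g ∈ (Kn k t n).fixingSubgroup, χb g ≠ 1

/-- (150 lines) **The hypothesis of the descent for `Lf k t f`.** Assembly. Edit of `DK/PI/HypC.lean`.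
PROOF. `P` with `AbP k t P` (`S_ExP`). Let `χb` be given (nontrivial), `χ` and `m₀` from `S_Chi`. `m` := `sp q` for a prime number `q`
not dividing `3 f` (`FM f m`: `PrI` by `Bas.prsp`, `Nm q = q ^ 2`; `m ≠ ⊤` as `NI m = q ^ 2 ≠ 1`). `S_G` for `fun a => (χ a : Om)`: `N0 ≥ 1`;
`n0 = N0 - 1`, `N0 = n0 + 1`. `T n` from `S_GR` (choice) for `n + 1`. `R'` : representatives of
`(Kn k t n0).fixingSubgroup / (Mn k t f N0).fixingSubgroup` (`S_RpS` (3), finite index), `c r` from `psi` for `r⁻¹`, `D` from `S_DS`.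
`S_G` for `N = N0`, `T n0`, `D`: `d`. `GDat`. `g` from `S_gEx`. `a = aG f m d T g`. The layers: `Layer 3 (Lf k t f) n F` iff
`F = Ln k t f (n + 1)` (`hly` for `H = H3 f`, nice by `S_Ar3`, `S_LM` (2), and `hlu`); `Layer 3 (KQ k t) n E` iff `E = Kn k t n` (`hly` for
`f = 1`, `S_KF1`). `S_AP` (from `S_BInv`, `S_BNrm`, `S_LM`), `S_aP`: `inv`, `nrm`; `S_AThm`: `thm`; `S_ANv`: `nv`;
`(Ln k t f (n+1)).fixingSubgroup ≤ (Kn k t n).fixingSubgroup`: `Kn ≤ Ln` (definition of `FixI`, `down`; `Gd`, `Nm1` from `S_Ar3` (5)). -/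
def S_HypC : Prop :=
  S_ExP → S_Chi → S_LM → S_BInv → S_BNrm → DK.PI.S_RpT → S_AP → S_aP → S_AThm → S_DS → S_ANv →
  S_gEx → DI.PI.S_RpS → S_Kap → S_Tei → S_Cg → S_Ar2 → S_Ar3 → S_NiL → S_Ps → S_GalI → S_KF1 →
  S_Lay → S_GR → S_GM → S_G3 → S_G → S_H → ∀ (k t : ℕ) [SqT k t], Bas k t →
  (∀ (f : ℕ) (H : Ideal (OO k t) → Prop), 0 < f → f.Coprime 3 → NiceI (sN k t (3 * f)) H →
    ∀ n : ℕ, Layer 3 (FixI (sN k t (3 * f)) H) n (LyI f n H)) →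
  (∀ F : IntermediateField ℚ Om, FiniteDimensional ℚ F →
    ∀ (n : ℕ) (F₁ F₂ : IntermediateField ℚ Om), Layer 3 F n F₁ → Layer 3 F n F₂ → F₁ = F₂) →
  ∀ f : ℕ, Fok f → HypI 3 (KQ k t) (Lf k t f)

/-- (100 lines) **The field `Lf k t f` over `K`.** Edit of `DK/PI/LK0.lean`.
PROOF. `Lf k t f = FixI (sN (3 f)) (H3 f)`, nice (`S_Ar3`). (1), (2), (3) `S_GalI`. (4) `S_GalI` (7): `σ τ σ⁻¹ τ⁻¹` fixes
`τ σ x ∈ Lf`: `σ τ x = (σ τ σ⁻¹ τ⁻¹) (τ σ x) = τ σ x`. (5) Let `G = GK k t`, `D = (Lf k t f).fixingSubgroup.subgroupOf G`: normal,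
`G ⧸ D` is a finite group in which every element has order prime to `3` (`m` of `S_Ar3` (1): `τ ^ m` has `Psi _ _ (a ^ m)` and
`H3 f (a ^ m)`), so its order is prime to `3` (Cauchy, `exists_prime_orderOf_dvd_card`). Its order is
`finrank ℚ (Lf k t f) / finrank ℚ (KQ k t)`. -/
def S_LK0 : Prop :=
  S_Cg → S_Ar3 → S_Ps → S_GalI → ∀ (k t : ℕ) [SqT k t], Bas k t → ∀ f : ℕ, Fok f →
    FiniteDimensional ℚ (Lf k t f) ∧ KQ k t ≤ Lf k t f ∧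
    (∀ σ ∈ (KQ k t).fixingSubgroup, ∀ x ∈ Lf k t f, σ x ∈ Lf k t f) ∧
    (∀ σ ∈ (KQ k t).fixingSubgroup, ∀ τ ∈ (KQ k t).fixingSubgroup, ∀ x ∈ Lf k t f,
      σ (τ x) = τ (σ x)) ∧
    ¬ 3 * Module.finrank ℚ (KQ k t) ∣ Module.finrank ℚ (Lf k t f)

/-- (100 lines) **Square roots of integers are in cyclotomic fields.** Uses nothing.
PROOF. Call `n` good if such `m`, `g` exist. `0` (`g = 0`), `1` (`g = 1`), `-1` (`m = 4`, `g ^ 2 = -1`, `g ^ 4 = 1`), `2` (`m = 8`: `z` a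
primitive 8-th root of unity, `g = z + z⁻¹`, `z ^ 4 = -1`, `g ^ 2 = z ^ 2 + 2 + z⁻² = 2`). A product of good integers is good
(`m m'`, `g g'`; an `m`-th root of unity is an `m m'`-th root of unity). An odd prime `l`: Gauss sums: `ψ : AddChar (ZMod l) Om`
primitive (`AddChar.primitiveZModChar`, or `ZMod.stdAddChar` composed; or `AddChar.zmodChar` with a primitive `l`-th root of unity
`ζ` of `Om`, `IsPrimitiveRoot` from `IsAlgClosed`), `χ = (quadraticChar (ZMod l)).ringHomComp (Int.castRingHom Om)`; `gaussSum_sq`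
(`χ` is quadratic and nontrivial): `g = gaussSum χ ψ` has `g ^ 2 = χ (-1) * l = ± l`, and `σ g = g` if `σ ζ = ζ` (`g` is a sum of
integers times powers of `ζ`). If the sign is `-` multiply by a square root of `-1`. Every integer is a product of `-1` and
primes (`Int.induction_on_primes` or `Nat.recOnMul` for `n.natAbs`). -/
def S_Sqr : Prop :=
  ∀ n : ℤ, ∃ (m : ℕ) (g : Om), 0 < m ∧ g ^ 2 = (n : Om) ∧
    ∀ σ : Gal(Om/ℚ), (∀ z : Om, z ^ m = 1 → σ z = z) → σ g = g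

/-- (60 lines) **`μ = 0` for `K`.** Uses `S_Sqr` and the theorem of Ferrero and Washington (`FW.S_FWA`).
PROOF. `KQ k t` is finite dimensional: `wO k t` is algebraic (see `DK/PI/KQ0.lean`). `x = 2 wO - t` satisfies `x ^ 2 = t ^ 2 - 12 k`
(`wO ^ 2 = t wO - 3 k`, apply `io`), so `x = ± g` with `g`, `m` from `S_Sqr` for `n = t ^ 2 - 12 k`: a `σ` which fixes the `m`-th roots
of unity fixes `x`, hence `wO = (x + t) / 2`, hence `KQ k t`: `Ab0 (KQ k t)`. `S_FWA` for `p = 3`. -/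
def S_KQ0 : Prop :=
  S_Sqr → Pool.Agent.FW.S_FWA → ∀ (k t : ℕ) [SqT k t],
    FiniteDimensional ℚ (KQ k t) ∧ XFinGen 3 (cyc 3 (KQ k t))

end Pool.Agent.DT.PI
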