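import Pool.Agent.Lib.DT.PI.SpecC

/-!
# Theorem DT, part I, module AP: properties of `A n`
-/

set_option autoImplicit false

open scoped Pointwise

noncomputable section

namespace Pool.Agent.DT.PI

open Pool.Agent.MuZ Pool.Agent.DT
open Pool.Agent.DI.PI (Reps HypI Meas tr)
open Pool.Agent.DK.PI (rsys)

theorem pAP : S_AP := by
  intro hRpS hRpT k t _ f m d T hb hn hl n σ hσ
  obtain ⟨hWG, hHW, hrel, hW'W, hH'H, hrel'⟩ := hl n
  obtain ⟨hWG1, hHW1, hrel1, -, -, -⟩ := hl (n + 1)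
  -- a system of representatives
  have hS := (hRpT Gal(Om/ℚ) (Ln k t f (n + 1)).fixingSubgroup (Mn k t f (n + 1)).fixingSubgroup hHW).1
    hrel
  have hS' := (hRpT Gal(Om/ℚ) (Ln k t f (n + 1 + 1)).fixingSubgroup
    (Mn k t f (n + 1 + 1)).fixingSubgroup hHW1).1 hrel1
  -- part 1
  have h1 : ∀ σ ∈ GK k t, ∀ S : Finset Gal(Om/ℚ),
      Reps (Ln k t f (n + 1)).fixingSubgroup (Mn k t f (n + 1)).fixingSubgroup S →
        AA f m d T n σ = ∑ s ∈ S, bb f m d T n (σ * s) := by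
    intro σ hσ S hSS
    refine (hRpS Gal(Om/ℚ) _ _ _ hHW le_rfl).1 (ZMod 3) (fun s => bb f m d T n (σ * s)) ?_ _ S hS hSS
    intro g hg h hh
    change bb f m d T n (σ * (g * h)) = bb f m d T n (σ * g)
    rw [← mul_assoc]
    exact hb n (σ * g) (mul_mem hσ (hWG hg)) h hh
  refine ⟨h1 σ hσ, ?_, ?_⟩
  · intro τ hτ
    obtain ⟨R', hR', hsum⟩ := (hRpT Gal(Om/ℚ) (Ln k t f (n + 1)).fixingSubgroup
      (Mn k t f (n + 1)).fixingSubgroup hHW).2.1 τ hτ _ hS
    rw [h1 σ hσ R' hR', hsum (ZMod 3) (fun s => bb f m d T n (σ * s))]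
    unfold AA
    refine Finset.sum_congr rfl fun s _ => ?_
    rw [mul_assoc]
  · intro R hR
    obtain ⟨R', hR'⟩ := (hRpS Gal(Om/ℚ) _ _ _ hH'H le_rfl).2.2 hrel'
    obtain ⟨R1, hR1, hs1⟩ := (hRpS Gal(Om/ℚ) _ _ _ hW'W hHW1).2.1 R _ hR hS'
    obtain ⟨R2, hR2, hs2⟩ := (hRpS Gal(Om/ℚ) _ _ _ hHW hH'H).2.1 _ R' hS hR'
    have hF := (hRpS Gal(Om/ℚ) _ _ _ (hH'H.trans hHW) le_rfl).1 (ZMod 3)
      (fun x => bb f m d T (n + 1) (σ * x)) (by
        intro g hg h hh
        change bb f m d T (n + 1) (σ * (g * h)) = bb f m d T (n + 1) (σ * g)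
        rw [← mul_assoc]
        exact hb (n + 1) (σ * g) (mul_mem hσ (hWG hg)) h hh) R1 R2 hR1 hR2
    rw [hs1, hs2] at hF
    calc ∑ r ∈ R, AA f m d T (n + 1) (σ * r)
        = ∑ r ∈ R, ∑ s ∈ rsys (Ln k t f (n + 1 + 1)).fixingSubgroup
            (Mn k t f (n + 1 + 1)).fixingSubgroup, bb f m d T (n + 1) (σ * (r * s)) := by
          refine Finset.sum_congr rfl fun r _ => ?_
          unfold AA
          refine Finset.sum_congr rfl fun s _ => ?_
          rw [mul_assoc]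
      _ = _ := hF
      _ = AA f m d T n σ := by
          unfold AA
          refine Finset.sum_congr rfl fun s hs => ?_
          rw [← hn n (σ * s) (mul_mem hσ (hWG (hS.mem s hs))) R' hR']
          refine Finset.sum_congr rfl fun r _ => ?_
          rw [mul_assoc]

end Pool.Agent.DT.PI
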