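import Pool.Agent.Lib.DT.PI.SpecC

/-!
# THEOREM DT, Part I: Chinese remainder and surjectivity of the norm

Edit of `DK/PI/Ar2.lean` (helper69).
-/

set_option autoImplicit false

open scoped Pointwise

namespace Pool.Agent.DT.PI

open Pool.Agent.MuZ Pool.Agent.DT

private theorem Ar2_crt {k t : ℕ} (f N : ℕ) (a b : OO k t) (hf : f.Coprime 3) :
    ∃ v : OO k t, (f : OO k t) ∣ v - a ∧ ((3 ^ N : ℕ) : OO k t) ∣ v - b := by
  have h1 : f.Coprime (3 ^ N) := Nat.Coprime.pow_right N hf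
  obtain ⟨x, y, hxy⟩ : IsCoprime (f : OO k t) ((3 ^ N : ℕ) : OO k t) := Nat.Coprime.cast h1
  refine ⟨a * y * ((3 ^ N : ℕ) : OO k t) + b * x * (f : OO k t), ⟨x * (b - a), ?_⟩,
    ⟨y * (a - b), ?_⟩⟩
  · linear_combination a * hxy
  · linear_combination b * hxy

private theorem Ar2_unit (N : ℕ) (s : ZMod (3 ^ N)) : IsUnit (1 + 3 * s) := by
  apply IsNilpotent.isUnit_one_add
  have h2 : IsNilpotent (3 : ZMod (3 ^ N)) := by
    refine ⟨N, ?_⟩
    have h := ZMod.natCast_self (3 ^ N)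
    rw [Nat.cast_pow] at h
    exact_mod_cast h
  exact (Commute.all _ _).isNilpotent_mul_right h2

private theorem Ar2_t (k t : ℕ) [hS : SqT k t] : ∃ s : ℕ, t = 1 + 3 * s := by
  rcases hS.out with h | h
  · exact ⟨0, h.1⟩
  · exact ⟨1, h.1⟩

private theorem Ar2_surj (k t : ℕ) [SqT k t] (N : ℕ) (c : ℤ) :
    ∃ y : ℤ, (3 : ℤ) ^ N ∣ t * y + 9 * k * y ^ 2 - c := by
  obtain ⟨s, hs⟩ := Ar2_t k t
  have hne : NeZero (3 ^ N) := ⟨pow_ne_zero _ three_ne_zero⟩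
  have hinj : Function.Injective (fun y : ZMod (3 ^ N) =>
      (t : ZMod (3 ^ N)) * y + 9 * (k : ZMod (3 ^ N)) * y ^ 2) := by
    intro y y' h
    have ht : (t : ZMod (3 ^ N)) = 1 + 3 * (s : ZMod (3 ^ N)) := by
      rw [hs]
      push_cast
      ring
    have h1 : (y - y') * (1 + 3 * ((s : ZMod (3 ^ N)) + 3 * ((k : ZMod (3 ^ N)) * (y + y')))) =
        0 := by
      have h2 : (t : ZMod (3 ^ N)) * y + 9 * (k : ZMod (3 ^ N)) * y ^ 2 =
        (t : ZMod (3 ^ N)) * y' + 9 * (k : ZMod (3 ^ N)) * y' ^ 2 := h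
      rw [ht] at h2
      linear_combination h2
    have h3 := (Ar2_unit N _).mul_left_eq_zero.1 h1
    exact sub_eq_zero.1 h3
  have hsur := Finite.injective_iff_surjective.1 hinj
  obtain ⟨y0, hy0⟩ := hsur (c : ZMod (3 ^ N))
  obtain ⟨y, rfl⟩ := ZMod.intCast_surjective y0
  refine ⟨y, ?_⟩
  have h4 : ((t * y + 9 * k * y ^ 2 - c : ℤ) : ZMod (3 ^ N)) = 0 := by
    have h5 : (t : ZMod (3 ^ N)) * (y : ZMod (3 ^ N)) +
      9 * (k : ZMod (3 ^ N)) * (y : ZMod (3 ^ N)) ^ 2 = (c : ZMod (3 ^ N)) := hy0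
    push_cast at h5 ⊢
    linear_combination h5
  have h6 := (ZMod.intCast_zmod_eq_zero_iff_dvd _ _).1 h4
  rw [Nat.cast_pow] at h6
  exact h6

theorem pAr2 : S_Ar2 := by
  intro k t _
  refine ⟨Ar2_crt, ?_⟩
  intro f N c hf hc
  rcases Nat.eq_zero_or_pos N with hN0 | hN0
  · refine ⟨1, ?_, ?_⟩
    · rw [sub_self]
      exact dvd_zero _
    · rw [hN0, pow_zero]
      exact one_dvd _
  obtain ⟨M, rfl⟩ : ∃ M, N = M + 1 := ⟨N - 1, by omega⟩
  obtain ⟨c', hc'⟩ := hc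
  obtain ⟨y, hy⟩ := Ar2_surj k t M c'
  obtain ⟨v, hv1, u, hv2⟩ := Ar2_crt f (M + 1) 1 (⟨1, 3 * y⟩ : OO k t) hf
  refine ⟨v, ?_, ?_⟩
  · have h3 : ((3 : ℕ) : OO k t) ∣ v - 1 := by
      refine ⟨(⟨0, y⟩ : OO k t) + ((3 ^ M : ℕ) : OO k t) * u, ?_⟩
      have e1 : v - 1 = (v - (⟨1, 3 * y⟩ : OO k t)) + ((⟨1, 3 * y⟩ : OO k t) - 1) := by ring
      have e2 : (⟨1, 3 * y⟩ : OO k t) - 1 = ((3 : ℕ) : OO k t) * (⟨0, y⟩ : OO k t) := by
        apply QuadraticAlgebra.ext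
        · rw [QuadraticAlgebra.re_sub, QuadraticAlgebra.re_one, QuadraticAlgebra.re_mul,
            QuadraticAlgebra.re_natCast, QuadraticAlgebra.im_natCast]
          ring
        · rw [QuadraticAlgebra.im_sub, QuadraticAlgebra.im_one, QuadraticAlgebra.im_mul,
            QuadraticAlgebra.re_natCast, QuadraticAlgebra.im_natCast]
          push_cast
          ring
      rw [e1, hv2, e2, pow_succ]
      push_cast
      ring
    have hco : IsCoprime ((3 : ℕ) : OO k t) (f : OO k t) := Nat.Coprime.cast hf.symm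
    have h4 := hco.mul_dvd h3 hv1
    rw [Nat.cast_mul]
    exact h4
  · have h1 : v = (⟨1, 3 * y⟩ : OO k t) + ((3 ^ (M + 1) : ℕ) : OO k t) * u := by
      rw [← hv2]
      ring
    have hr : v.re = 1 + ((3 ^ (M + 1) : ℕ) : ℤ) * u.re := by
      rw [h1, QuadraticAlgebra.re_add, QuadraticAlgebra.re_mul, QuadraticAlgebra.re_natCast,
        QuadraticAlgebra.im_natCast]
      ring
    have hi : v.im = 3 * y + ((3 ^ (M + 1) : ℕ) : ℤ) * u.im := by
      rw [h1, QuadraticAlgebra.im_add, QuadraticAlgebra.im_mul, QuadraticAlgebra.re_natCast,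
        QuadraticAlgebra.im_natCast]
      ring
    rw [Nat.cast_pow] at hr hi
    have hN : ((3 : ℕ) : ℤ) = 3 := rfl
    rw [hN] at hr hi
    obtain ⟨m, hm⟩ := hy
    refine ⟨m + 2 * u.re + 3 ^ (M + 1) * u.re ^ 2 + t * u.im + 3 * t * y * u.re +
      t * 3 ^ (M + 1) * u.re * u.im + 18 * k * y * u.im + 3 * k * 3 ^ (M + 1) * u.im ^ 2, ?_⟩
    unfold Nm
    rw [hr, hi]
    linear_combination 3 * hm - hc'

end Pool.Agent.DT.PI
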