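import Pool.Agent.Lib.DT.PI.SpecC

/-!
# THEOREM DT, Part I: invariance of the functions `b n` (module BInv, helper50)
-/

set_option autoImplicit false

open scoped Pointwise nonZeroDivisors

noncomputable section

namespace Pool.Agent.DT.PI

open Pool.Agent.MuZ Pool.Agent.DT NumberField IsDedekindDomain
open Pool.Agent.DI (io ofC io_inj exists_io io_ofC ofC_io VP MP UP TP ex)

theorem pBInv : S_BInv := by
  intro hG3 k t _ hB f m P d T hD n σ hσ
  have hf : 0 < f := hD.fm.pos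
  have hpos : 0 < f * 3 ^ (n + 1) := by positivity
  have hσ' : σ⁻¹ ∈ GK k t := inv_mem hσ
  have key : ∀ a : Ideal (OO k t), Psi σ⁻¹ (sN k t (f * 3 ^ (n + 1))) a →
      Gd (sN k t (3 * f)) a ∧ σ⁻¹ (uN f (n + 1) m (T n) ⊤) = uN f (n + 1) m (T n) a := by
    intro a ha
    refine ⟨⟨ha.ne, (hB.pr3 hf (by omega) a).1 ha.cop⟩, ?_⟩
    obtain ⟨-, -, -, -, -, h6, -⟩ := hG3 k t f m (n + 1) (T n) hD.fm (by omega) (hD.rep n) ⊤
      hB.top_ne (prI_top _)
    have h7 := h6 _ hσ' a ha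
    rwa [Ideal.mul_top] at h7
  constructor
  · intro τ hτ
    obtain ⟨a, ha⟩ := hB.psi _ (sN_ne hpos) _ hσ'
    obtain ⟨hc, hu⟩ := key a ha
    have hm : uN f (n + 1) m (T n) a ∈ Mn k t f (n + 1) :=
      (hG3 k t f m (n + 1) (T n) hD.fm (by omega) (hD.rep n) a hc.1 hc.2).1
    have hfix : τ⁻¹ (uN f (n + 1) m (T n) a) = uN f (n + 1) m (T n) a :=
      (IntermediateField.mem_fixingSubgroup_iff _ _).1 (inv_mem hτ) _ hm
    have hst : (σ * τ)⁻¹ (uN f (n + 1) m (T n) ⊤) = σ⁻¹ (uN f (n + 1) m (T n) ⊤) := by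
      rw [mul_inv_rev, AlgEquiv.mul_apply, hu, hfix]
    unfold bb
    rw [hst]
  · intro a ha
    obtain ⟨hc, hu⟩ := key a ha
    refine ⟨hc, ?_⟩
    unfold bb
    rw [hu]

end Pool.Agent.DT.PI
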