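import Pool.Agent.Lib.DT.PI.SpecC
import Pool.Agent.Lib.DT.Base

/-!
# THEOREM DT, Part I: norm compatibility of `b n`
-/

set_option autoImplicit false

open scoped Pointwise

namespace Pool.Agent.DT.PI

open Pool.Agent.MuZ Pool.Agent.DT
open Pool.Agent.DI.PI (Reps)

theorem pBNrm : S_BNrm := by
  classical
  intro hInv hG3 hKap hGM hPs hAr2 k t _ hB f m P d T hd hl n σ hσ R hR
  have hFok : Fok f := hd.fm.toFok
  have hf : 0 < f := hFok.pos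
  have hpos : ∀ N : ℕ, 0 < f * 3 ^ N := fun N => Nat.mul_pos hf (pow_pos (by norm_num) _)
  have hne : ∀ N : ℕ, sN k t (f * 3 ^ N) ≠ ⊥ := fun N => sN_ne (hpos N)
  obtain ⟨hM1, hM2, -, -, hM5, -, -, -⟩ := hGM k t f hFok
  obtain ⟨hF3, hF5, hF6⟩ := hl n
  obtain ⟨-, hF5', -⟩ := hl (n + 1)
  have hlev : ∀ (τ : Gal(Om/ℚ)) (a : Ideal (OO k t)), Psi τ (sN k t (f * 3 ^ (n + 1 + 1))) a →
      Psi τ (sN k t (f * 3 ^ (n + 1))) a :=
    fun τ a h => hB.down _ _ (hne _) (le3' (by omega)) τ a h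
  have hmulP : ∀ (τ τ' : Gal(Om/ℚ)) (a a' : Ideal (OO k t)),
      Psi τ (sN k t (f * 3 ^ (n + 1 + 1))) a → Psi τ' (sN k t (f * 3 ^ (n + 1 + 1))) a' →
      Psi (τ * τ') (sN k t (f * 3 ^ (n + 1 + 1))) (a * a') := hB.pmu _ (hne _)
  have hPNI : ∀ N : ℕ, 1 ≤ N → ∀ a : Ideal (OO k t), a ≠ ⊥ → PrI a (sN k t (f * 3 ^ N)) →
      (HPN f N a ↔ HP f a ∧ (3 : ℤ) ^ N ∣ (NI a : ℤ) - 1) := fun N hN => (hM2 N hN).2.2.2.2
  set V := (Mn k t f (n + 1)).fixingSubgroup with hV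
  set V' := (Mn k t f (n + 1 + 1)).fixingSubgroup with hV'
  obtain ⟨q, hq⟩ : ∃ q : ℤ, q = (3 : ℤ) ^ (n + 1) := ⟨_, rfl⟩
  have hq0 : q ≠ 0 := by rw [hq]; positivity
  have hq3 : (3 : ℤ) ∣ q := by rw [hq]; exact dvd_pow_self 3 (by omega)
  have hqq : (3 : ℤ) ^ (n + 1 + 1) = q * 3 := by rw [hq, pow_succ]
  -- the exponents
  have hJ : ∀ τ ∈ V, ∀ a : Ideal (OO k t), Psi τ (sN k t (f * 3 ^ (n + 1 + 1))) a →
      HP f a ∧ ∃ j : ℤ, (NI a : ℤ) = 1 + q * j := by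
    intro τ hτ a ha
    have h1 := (hF5 τ (hF3 hτ) a (hlev τ a ha)).1 hτ
    obtain ⟨h2, j, hj⟩ := (hPNI _ (by omega) a ha.ne (hlev τ a ha).cop).1 h1
    refine ⟨h2, j, ?_⟩
    rw [hq]
    linarith
  let χ : Gal(Om/ℚ) → ZMod 3 := fun τ =>
    if h : ∃ a : Ideal (OO k t), Psi τ (sN k t (f * 3 ^ (n + 1 + 1))) a then
      ((((NI h.choose : ℤ) - 1) / q : ℤ) : ZMod 3) else 0
  have hχ : ∀ τ ∈ V, ∀ a : Ideal (OO k t), Psi τ (sN k t (f * 3 ^ (n + 1 + 1))) a → ∀ j : ℤ,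
      (NI a : ℤ) = 1 + q * j → χ τ = (j : ZMod 3) := by
    intro τ hτ a ha j hj
    have hex : ∃ a : Ideal (OO k t), Psi τ (sN k t (f * 3 ^ (n + 1 + 1))) a := ⟨a, ha⟩
    obtain ⟨-, j0, hj0⟩ := hJ τ hτ _ hex.choose_spec
    have h1 : χ τ = ((((NI hex.choose : ℤ) - 1) / q : ℤ) : ZMod 3) := dif_pos hex
    have h2 : ((NI hex.choose : ℤ) - 1) / q = j0 := by
      rw [hj0, add_sub_cancel_left, Int.mul_ediv_cancel_left _ hq0]
    rw [h1, h2]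
    have h3 := hB.rnm _ _ _ (hpos _) hex.choose_spec.cop ha.cop
      (hB.uni _ (hne _) τ _ _ hex.choose_spec ha)
    have h4 : q * 3 ∣ (NI hex.choose : ℤ) - NI a := by
      refine dvd_trans ?_ h3
      rw [← hqq]
      exact ⟨(f : ℤ), by push_cast; ring⟩
    rw [hj0, hj] at h4
    have h5 : q * 3 ∣ q * (j0 - j) := by
      have e : 1 + q * j0 - (1 + q * j) = q * (j0 - j) := by ring
      rwa [e] at h4
    have h6 : ((3 : ℕ) : ℤ) ∣ j0 - j := (mul_dvd_mul_iff_left hq0).1 h5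
    exact ((ZMod.intCast_eq_intCast_iff_dvd_sub j j0 3).2 h6).symm
  have hadd : ∀ τ ∈ V, ∀ τ' ∈ V, χ (τ * τ') = χ τ + χ τ' := by
    intro τ hτ τ' hτ'
    obtain ⟨a, ha⟩ := hB.psi _ (hne (n + 1 + 1)) τ (hF3 hτ)
    obtain ⟨a', ha'⟩ := hB.psi _ (hne (n + 1 + 1)) τ' (hF3 hτ')
    obtain ⟨-, j, hj⟩ := hJ τ hτ a ha
    obtain ⟨-, j', hj'⟩ := hJ τ' hτ' a' ha'
    obtain ⟨c, hc⟩ := hq3
    rw [hχ τ hτ a ha j hj, hχ τ' hτ' a' ha' j' hj',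
      hχ _ (mul_mem hτ hτ') _ (hmulP _ _ _ _ ha ha') (j + j' + q * (j * j')) (by
        rw [hB.imul, Nat.cast_mul, hj, hj']
        ring)]
    have h3 : ((3 : ℤ) : ZMod 3) = 0 := by decide
    rw [hc]
    push_cast
    have h4 : (3 : ZMod 3) = 0 := by decide
    rw [h4]
    ring
  have hker : ∀ τ ∈ V, χ τ = 0 → τ ∈ V' := by
    intro τ hτ h0
    obtain ⟨a, ha⟩ := hB.psi _ (hne (n + 1 + 1)) τ (hF3 hτ)
    obtain ⟨h1, j, hj⟩ := hJ τ hτ a ha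
    rw [hχ τ hτ a ha j hj] at h0
    refine (hF5' τ (hF3 hτ) a ha).2 ((hPNI _ (by omega) a ha.ne ha.cop).2 ⟨h1, ?_⟩)
    rw [hj, add_sub_cancel_left, hqq]
    exact mul_dvd_mul_left q ((ZMod.intCast_zmod_eq_zero_iff_dvd j 3).1 h0)
  have hker' : ∀ τ ∈ V, τ ∈ V' → χ τ = 0 := by
    intro τ hτ h0
    obtain ⟨a, ha⟩ := hB.psi _ (hne (n + 1 + 1)) τ (hF3 hτ)
    obtain ⟨-, j, hj⟩ := hJ τ hτ a ha
    rw [hχ τ hτ a ha j hj]
    have h1 := ((hPNI _ (by omega) a ha.ne ha.cop).1 ((hF5' τ (hF3 hτ) a ha).1 h0)).2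
    rw [hj, add_sub_cancel_left, hqq] at h1
    exact (ZMod.intCast_zmod_eq_zero_iff_dvd j 3).2 ((mul_dvd_mul_iff_left hq0).1 h1)
  have hone : χ 1 = 0 := hker' 1 (one_mem _) (one_mem _)
  -- an element with `χ = 1`
  have hout : ∃ τ ∈ V, χ τ = 1 := by
    obtain ⟨v, hv1, hv2⟩ := (hAr2 k t).2 f (n + 1 + 1) (1 + q) hFok.cop (by
      rw [add_sub_cancel_left]
      exact hq3)
    have h3f : 0 < 3 * f := by omega
    have hcv : IsCoprime (Nm v) ((3 * f : ℕ) : ℤ) :=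
      cop_congr (n := 3 * f) (a := 1) (b := v) (by rw [dvd_sub_comm]; exact hv1) (cop_one _)
    have hv0 : v ≠ 0 := by
      intro h
      have h1 := Nm_congr hv1
      rw [h, Nm_zero, Nm_one] at h1
      have h2 : ((3 * f : ℕ) : ℤ) ∣ 1 := by simpa using h1
      have h3 := Int.le_of_dvd one_pos h2
      push_cast at h3
      omega
    have hcf : PrI (sp v) (sN k t (3 * f)) := (hB.prsp h3f v).2 hcv
    have hpv : PrI (sp v) (sN k t (f * 3 ^ (n + 1 + 1))) := (hB.pr3 hf (by omega) _).2 hcf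
    have hpv' : PrI (sp v) (sN k t (f * 3 ^ (n + 1))) := (hB.pr3 hf (by omega) _).2 hcf
    have hsv : (sp v : Ideal (OO k t)) ≠ ⊥ := fun h => hv0 (Ideal.span_singleton_eq_bot.1 h)
    have hHP : HP f (sp v) := by
      refine hM1.2.2.1 ⊤ (sp v) hM1.1 ?_
      refine ⟨v, 1, hv0, one_ne_zero, hcf, ?_, mem_sN.2 hv1, ?_⟩
      · rw [hB.prsp h3f]
        exact cop_one _
      · have h1 : sp (1 : OO k t) = ⊤ := Ideal.span_singleton_one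
        rw [h1, Ideal.mul_top, Ideal.top_mul]
    obtain ⟨τ, hτ, hτP⟩ := hB.sur _ (sp v) (hne (n + 1 + 1)) hsv hpv
    obtain ⟨c, hc⟩ := hv2
    have hNI : (NI (sp v) : ℤ) = 1 + q * (1 + 3 * c) := by
      rw [hB.nsp]
      rw [hqq] at hc
      linear_combination hc
    have hτV : τ ∈ V := by
      refine (hF5 τ hτ _ (hlev τ _ hτP)).2 ((hPNI _ (by omega) _ hsv hpv').2 ⟨hHP, ?_⟩)
      rw [hNI, add_sub_cancel_left, ← hq]
      exact Dvd.intro _ rfl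
    refine ⟨τ, hτV, ?_⟩
    rw [hχ τ hτV _ hτP _ hNI]
    push_cast
    have h4 : (3 : ZMod 3) = 0 := by decide
    rw [h4, zero_mul, add_zero]
  obtain ⟨t', ht'V, ht'⟩ := hout
  have ht'G : t' ∈ GK k t := hF3 ht'V
  have hpow : ∀ i : ℕ, χ (t' ^ i) = (i : ZMod 3) := by
    intro i
    induction i with
    | zero => rw [pow_zero, Nat.cast_zero, hone]
    | succ i ih => rw [pow_succ, hadd _ (pow_mem ht'V i) _ ht'V, ih, ht', Nat.cast_succ]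
  have hinv : ∀ τ ∈ V, χ τ⁻¹ = -χ τ := by
    intro τ hτ
    have h1 := hadd _ (inv_mem hτ) _ hτ
    rw [inv_mul_cancel, hone] at h1
    exact eq_neg_of_add_eq_zero_left h1.symm
  obtain ⟨hI1, hI2⟩ := hInv hG3 k t hB f m P d T hd (n + 1) σ hσ
  -- the sum
  have hsum : ∑ r ∈ R, bb f m d T (n + 1) (σ * r) =
      ∑ c : ZMod 3, bb f m d T (n + 1) (σ * t' ^ c.val) := by
    refine Finset.sum_bij (fun r _ => χ r) (fun _ _ => Finset.mem_univ _) ?_ ?_ ?_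
    · intro r hr r' hr' h
      refine hR.uni r hr r' hr' (hker _ (mul_mem (inv_mem (hR.mem r hr)) (hR.mem r' hr')) ?_)
      rw [hadd _ (inv_mem (hR.mem r hr)) _ (hR.mem r' hr'), hinv _ (hR.mem r hr)]
      have h' : χ r = χ r' := h
      rw [h', neg_add_cancel]
    · intro c _
      obtain ⟨r, hr, hr'⟩ := hR.ex _ (pow_mem ht'V c.val)
      refine ⟨r, hr, ?_⟩
      have hrV := hR.mem r hr
      have h1 := hker' _ (mul_mem (inv_mem hrV) (pow_mem ht'V c.val)) hr'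
      rw [hadd _ (inv_mem hrV) _ (pow_mem ht'V c.val), hinv _ hrV, hpow,
        ZMod.natCast_zmod_val, neg_add_eq_zero] at h1
      exact h1
    · intro r hr
      have hrV := hR.mem r hr
      have h1 : r⁻¹ * t' ^ (χ r).val ∈ V' := by
        refine hker _ (mul_mem (inv_mem hrV) (pow_mem ht'V _)) ?_
        rw [hadd _ (inv_mem hrV) _ (pow_mem ht'V _), hinv _ hrV, hpow, ZMod.natCast_zmod_val,
          neg_add_cancel]
      have h2 := (hInv hG3 k t hB f m P d T hd (n + 1) (σ * r) (mul_mem hσ (hF3 hrV))).1 _ h1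
      rw [← h2, mul_assoc, mul_inv_cancel_left]
  rw [hsum]
  have h3sum : ∀ F : ZMod 3 → ZMod 3, ∑ c : ZMod 3, F c = F 0 + F 1 + F 2 :=
    fun F => Fin.sum_univ_three F
  rw [h3sum]
  have hv0 : (0 : ZMod 3).val = 0 := rfl
  have hv1 : (1 : ZMod 3).val = 1 := rfl
  have hv2 : (2 : ZMod 3).val = 2 := rfl
  rw [hv0, hv1, hv2, pow_zero, pow_one, pow_two, mul_one]
  -- the units
  have hsG : t'⁻¹ ∈ GK k t := inv_mem ht'G
  have hJ2 := (hInv hG3 k t hB f m P d T hd (n + 1) (σ * t') (mul_mem hσ ht'G)).2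
  have hJ3 := (hInv hG3 k t hB f m P d T hd (n + 1) (σ * (t' * t'))
    (mul_mem hσ (mul_mem ht'G ht'G))).2
  obtain ⟨a, ha⟩ := hB.psi _ (hne (n + 1 + 1)) σ⁻¹ (inv_mem hσ)
  obtain ⟨a', ha'⟩ := hB.psi _ (hne (n + 1 + 1)) t'⁻¹ hsG
  obtain ⟨hc1, hc2⟩ := hI2 a ha
  have hmul1 : Psi (σ * t')⁻¹ (sN k t (f * 3 ^ (n + 1 + 1))) (a' * a) := by
    rw [mul_inv_rev]
    exact hmulP _ _ _ _ ha' ha
  have hmul2 : Psi (σ * (t' * t'))⁻¹ (sN k t (f * 3 ^ (n + 1 + 1))) (a' * (a' * a)) := by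
    rw [← mul_assoc, mul_inv_rev]
    exact hmulP _ _ _ _ ha' hmul1
  obtain ⟨hc3, hc4⟩ := hJ2 _ hmul1
  obtain ⟨hc5, hc6⟩ := hJ3 _ hmul2
  obtain ⟨-, hc8⟩ := (hInv hG3 k t hB f m P d T hd n σ hσ).2 a (hlev _ _ ha)
  rw [hc2, hc4, hc6, hc8]
  have hG := hG3 k t f m (n + 1 + 1) (T (n + 1)) hd.fm (by omega) (hd.rep (n + 1))
  obtain ⟨hx1, hx2, -, -, -, hx6, -, -⟩ := hG a hc1.1 hc1.2
  obtain ⟨hz1, hz2, -, -, -, hz6, -, -⟩ := hG (a' * a) hc3.1 hc3.2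
  obtain ⟨hw1, hw2, -, -, -, -, -, -⟩ := hG (a' * (a' * a)) hc5.1 hc5.2
  obtain ⟨hy1, hy2, -, -, -, -, -, hy8⟩ := hG3 k t f m (n + 1) (T n) hd.fm (by omega)
    (hd.rep n) a hc1.1 hc1.2
  have hsx := hx6 _ hsG a' ha'
  have hsz := hz6 _ hsG a' ha'
  have hsV : t'⁻¹ ∈ V := inv_mem ht'V
  obtain ⟨c, hcM, hc0, hb3⟩ := hy8 (T (n + 1)) (hd.rep (n + 1)) t'⁻¹ hsG a' ha'
    ((hF5 _ hsG _ (hlev _ _ ha')).1 hsV) (by
      intro h
      have h3 := hker' _ hsV ((hF5' _ hsG _ ha').2 h)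
      rw [hinv _ ht'V, ht'] at h3
      exact absurd h3 (by decide))
  rw [hsx, hsz] at hb3
  have hdz : d (zet 3) = zet 3 := by
    refine hF6 d ?_
    rw [IntermediateField.mem_fixingSubgroup_iff]
    exact fun x hx => hd.fix (n + 1) (by omega) x hx
  have hdx := hd.fix _ (by omega) _ hx1
  have hdzz := hd.fix _ (by omega) _ hz1
  have hdw := hd.fix _ (by omega) _ hw1
  have hdy := hd.fix _ (by omega) _ hy1
  have hdc : d c = c := hd.fix 1 le_rfl c ((hM5 1 le_rfl).2.1 hcM)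
  rw [← hKap.1 d _ _ hx2 hz2 hdx hdzz hdz,
    ← hKap.1 d _ _ (mul_ne_zero hx2 hz2) hw2 (by rw [map_mul, hdx, hdzz]) hdw hdz, hb3]
  exact hKap.2 d _ _ hy2 hc0 hdy hdc hdz

end Pool.Agent.DT.PI
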