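import Pool.Agent.Lib.DT.PI.SpecD
import Pool.Agent.Lib.DT.Iface

/-!
# THEOREM DT, Part I: the basic facts from the statements of the parts O, B, R, E
-/

set_option autoImplicit false

open scoped Pointwise

noncomputable section

namespace Pool.Agent.DT.PI

open Pool.Agent.MuZ Pool.Agent.DT
open Pool.Agent.DI (io ofC io_inj exists_io io_ofC ofC_io VP MP UP TP ex)

theorem bas_of (O2 : S_O2) (O6 : S_O6) (O7 : S_O7) (O9 : S_O9) (E1 : S_E1) (E6 : S_E6)
    (E7 : S_E7) (E8 : S_E8) (k t : ℕ) [SqT k t] : Bas k t := by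
  obtain ⟨o21, o22, o23, o24, o25, o26, o27, o28⟩ := O2 k t
  obtain ⟨o61, o62, o63, o64, o65, o66, o67, o68⟩ := O6 k t
  exact
    { dd := inferInstance
      nmul := o21
      nsp := o24
      imul := o25
      izero := o26
      cj := o27
      pmul := fun n a b => o61 a b n
      pni := fun N a _ => o65 N a
      refl := fun n a hn => (O7 k t n hn).1 a
      symm := fun n a b hn => (O7 k t n hn).2.1 a b
      trans := fun n a b c hn => (O7 k t n hn).2.2.1 a b c
      mul := fun n a b c d hn => (O7 k t n hn).2.2.2.1 a b c d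
      bot := fun n a b hn h => ((O7 k t n hn).2.2.2.2.2.1 a b h).1
      pri := fun n a b hn h => ((O7 k t n hn).2.2.2.2.2.1 a b h).2
      mono := fun n m a b hn => (O7 k t n hn).2.2.2.2.2.2.1 m a b
      inv := fun n a hn => (O7 k t n hn).2.2.2.2.2.2.2.2.1 a
      fin := fun n hn => (O7 k t n hn).2.2.2.2.2.2.2.2.2
      rnm := fun N a a' hN _ _ h => O9 k t N hN a a' h
      psi := fun n hn τ hτ => by
        obtain ⟨a, ha, -⟩ := (E1 k t n hn).1 τ hτ 1 one_pos
        exact ⟨a, ha⟩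
      uni := fun n hn => (E1 k t n hn).2.1
      ray := fun n hn => (E1 k t n hn).2.2.1
      pmu := fun n hn => (E1 k t n hn).2.2.2.1
      down := fun n m hn hm τ a h => (E1 k t n hn).2.2.2.2 τ m a h hm
      cyc := fun N τ a hτ hN h => E6 k t τ N a hτ hN h
      sur := fun n a hn ha h => E7 k t n a hn ha h
      gal := fun n H hn h1 h2 h3 h4 => E8 k t n H hn h1 h2 h3 h4 }

theorem basX_of (B1 : S_B1) (B7 : S_B7) (R1 : S_R1) (R4 : S_R4) (k t : ℕ) [SqT k t] :
    BasX k t where
  per := fun b hb z l hl => ((B1 k t b hb).1 z l hl).2.2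
  hom := fun b hb α hα => by
    obtain ⟨h1, h2, -⟩ := (B7 k t b hb).1 α hα
    exact ⟨fun z => (h1 z).1, h2⟩
  rne := fun b hb => (B1 k t b hb).2.2.1
  dis := fun b hb h => (B1 k t b hb).2.2.2.2.1 (by rw [h]; ring)
  wp := fun b hb => (B1 k t b hb).2.2.2.2.2.2.2.2.2.1
  g2 := fun b hb => by
    have h := (B1 k t b hb).2.2.2.2.2.2.2.2.2.2.2.2.1
    rw [h]; ring
  g3 := fun b hb => by
    have h := (B1 k t b hb).2.2.2.2.2.2.2.2.2.2.2.2.2
    rw [h]; ring
  aalg := fun b hb => (R1 k t b hb).1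
  xalg := fun b hb => (R4.1 k t b hb).2

end Pool.Agent.DT.PI
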