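import Pool.Agent.Lib.DT.PI.SpecC
import Pool.Agent.Lib.DT.Base

/-!
# THEOREM DT, Part I, module DS: the system `D`
-/

set_option autoImplicit false

open scoped Pointwise

namespace Pool.Agent.DT.PI

open Pool.Agent.MuZ Pool.Agent.DT
open Pool.Agent.DI (io ofC io_inj exists_io io_ofC ofC_io VP MP UP TP ex)
open Pool.Agent.DI.PI (Reps HypI Meas tr)

/-- an element `v ≡ 1` modulo `3 f` -/
private theorem DS_v (k t : ℕ) [SqT k t] (hB : Bas k t) (f N : ℕ) (hf : 0 < f) (hN : 1 ≤ N)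
    (v : OO k t) (hv1 : ((3 * f : ℕ) : OO k t) ∣ v - 1) :
    sp v ≠ (⊥ : Ideal (OO k t)) ∧ PrI (sp v) (sN k t (f * 3 ^ N)) ∧
      Ray (sN k t (3 * f)) (⊤ : Ideal (OO k t)) (sp v) := by
  have hcf : PrI (sp v) (sN k t (3 * f)) := by
    change sp v ⊔ Ideal.span {((3 * f : ℕ) : OO k t)} = ⊤
    rw [Ideal.eq_top_iff_one]
    obtain ⟨w, hw⟩ := hv1
    have h1 : (1 : OO k t) = v + -(((3 * f : ℕ) : OO k t) * w) := by rw [← hw]; ring
    rw [h1]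
    exact Submodule.add_mem_sup (Ideal.mem_span_singleton_self v)
      (neg_mem (Ideal.mul_mem_right w _ (Ideal.mem_span_singleton_self _)))
  have hv0 : v ≠ 0 := by
    rintro rfl
    have h1 := (hB.prsp (by omega : 0 < 3 * f) 0).1 hcf
    rw [Nm_zero, isCoprime_zero_left, Int.isUnit_iff] at h1
    omega
  refine ⟨fun h => hv0 (Ideal.span_singleton_eq_bot.1 h), (hB.pr3 hf hN _).2 hcf, ?_⟩
  have hs1 : sp (1 : OO k t) = ⊤ := Ideal.span_singleton_one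
  refine ⟨v, 1, hv0, one_ne_zero, hcf, ?_, mem_sN.2 hv1, ?_⟩
  · rw [hs1]
    exact prI_top _
  · rw [Ideal.mul_top, hs1, Ideal.top_mul]

/-- The norm of an ideal of `HP f` is `1` modulo `3`. -/
private theorem DS_nm (k t : ℕ) [SqT k t] (hB : Bas k t) (f : ℕ) (hf : 0 < f)
    (a : Ideal (OO k t)) (ha : HP f a) (haf : PrI a (sN k t (3 * f))) :
    (3 : ℤ) ∣ (NI a : ℤ) - 1 := by
  obtain ⟨v, hv0, ⟨hvf, j, hj⟩, hR⟩ := ha
  have h1 : ((3 * f : ℕ) : ℤ) ∣ (NI a : ℤ) - NI (sp v) :=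
    hB.rnm (3 * f) a (sp v) (by omega) haf hvf hR
  rw [hB.nsp] at h1
  have h2 : ((3 * f : ℕ) : ℤ) ∣ Nm (v ^ 3 ^ j) - Nm (1 : OO k t) := Nm_congr hj
  have h3 : Nm (v ^ 3 ^ j) = Nm v ^ 3 ^ j := by
    generalize 3 ^ j = m
    induction m with
    | zero => rw [pow_zero, pow_zero, Nm_one]
    | succ m ih => rw [pow_succ, pow_succ, Nm_mul, ih]
  rw [h3, Nm_one] at h2
  have h30 : (3 : ℤ) ∣ ((3 * f : ℕ) : ℤ) := ⟨(f : ℤ), by push_cast; ring⟩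
  have h4 : (3 : ℤ) ∣ Nm v ^ 3 ^ j - 1 := h30.trans h2
  have h5 : (3 : ℤ) ∣ (NI a : ℤ) - Nm v := h30.trans h1
  have : Fact (Nat.Prime 3) := ⟨Nat.prime_three⟩
  have e4 : ((Nm v : ℤ) : ZMod 3) ^ 3 ^ j - 1 = 0 := by
    have := (ZMod.intCast_zmod_eq_zero_iff_dvd (Nm v ^ 3 ^ j - 1) 3).2 (by exact_mod_cast h4)
    push_cast at this
    exact this
  rw [ZMod.pow_card_pow] at e4
  have h6 : (3 : ℤ) ∣ Nm v - 1 := by
    have := (ZMod.intCast_zmod_eq_zero_iff_dvd (Nm v - 1) 3).1 (by push_cast; exact e4)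
    exact_mod_cast this
  have h7 := dvd_add h5 h6
  have h8 : (NI a : ℤ) - Nm v + (Nm v - 1) = (NI a : ℤ) - 1 := by ring
  rwa [h8] at h7

theorem pDS : S_DS := by
  intro hCg hAr2 hAr3 hNiL hPs hGalI hKF1 hLM hGM k t _ hB f n hfok
  classical
  have hf0 : 0 < f := hfok.pos
  have h3N : 0 < 3 ^ (n + 1) := pow_pos (by norm_num) _
  have h3f : 0 < 3 * f := by omega
  have hM0 : 0 < f * 3 ^ (n + 1) := Nat.mul_pos hf0 h3N
  have hM : sN k t (f * 3 ^ (n + 1)) ≠ ⊥ := sN_ne hM0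
  have hm : sN k t (3 * f) ≠ ⊥ := sN_ne h3f
  have hMm3 : sN k t (f * 3 ^ (n + 1)) ≤ sN k t (3 * f) := le3 (by omega)
  obtain ⟨-, s2, -, -, s5⟩ := hPs k t hB _ hM
  -- the field `E`
  obtain ⟨hn1, -⟩ := hKF1 hPs hGalI k t hB
  have hnE := hNiL k t hB 1 _ Nat.one_pos hn1 n
  obtain ⟨-, -, EGK, Emem, -, -, -, -⟩ :=
    hGalI hPs k t hB _ _ (sN_ne (Nat.mul_pos Nat.one_pos h3N)) hnE
  change (Kn k t n).fixingSubgroup ≤ GK k t at EGK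
  -- the field `F`
  obtain ⟨hLG, -, hlm⟩ := hLM hCg hAr3 hNiL hPs hGalI hGM k t hB f hfok
  obtain ⟨hLL, hML, -, -, -, -, -, Mcon, -, Mmem, -⟩ := hlm n
  obtain ⟨⟨hp1, hp2, hp3, hp4⟩, hpn, -⟩ := hGM k t f hfok
  have hMG : (Mn k t f (n + 1)).fixingSubgroup ≤ GK k t := (hML.trans hLL).trans hLG
  have hMm : ∀ τ ∈ GK k t, ∀ a : Ideal (OO k t), Psi τ (sN k t (f * 3 ^ (n + 1))) a →
      (τ ∈ (Mn k t f (n + 1)).fixingSubgroup ↔ HP f a ∧ (3 : ℤ) ^ (n + 1) ∣ (NI a : ℤ) - 1) :=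
    fun τ hτ a ha =>
      (Mmem τ hτ a ha).trans ((hpn (n + 1) (by omega)).2.2.2.2 a ha.ne ha.cop)
  have hEm : ∀ τ ∈ GK k t, ∀ a : Ideal (OO k t), Psi τ (sN k t (f * 3 ^ (n + 1))) a →
      (τ ∈ (Kn k t n).fixingSubgroup ↔ Nm1 (n + 1) a) := by
    intro τ hτ a ha
    have h1 : Psi τ (sN k t (1 * 3 ^ (n + 1))) a :=
      hB.down _ _ hM (sN_le (by rw [one_mul]; exact Dvd.intro_left f rfl)) τ a ha
    have h2 : PrI a (sN k t (3 * 1)) := by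
      have h3 := (hB.pni _ _ h3f).1 ((hB.pr3 hf0 (by omega) a).1 ha.cop)
      rw [hB.pni _ _ (by norm_num)]
      exact Nat.Coprime.coprime_dvd_right (Nat.mul_dvd_mul_left 3 (one_dvd f)) h3
    exact (Emem τ hτ a h1).trans ⟨fun h => h.2, fun h => ⟨⟨ha.ne, h2⟩, h⟩⟩
  -- remark A
  have remA : ∀ a : Ideal (OO k t), HP f a → Nm1 (n + 1) a →
      (3 : ℤ) ^ (n + 1) ∣ (NI a : ℤ) - 1 := by
    intro a ha h1
    rcases h1 with h1 | h1
    · exact h1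
    · exfalso
      have h2 := DS_nm k t hB f hf0 a ha (hp2 a ha).2
      have h4 : (3 : ℤ) ∣ (NI a : ℤ) + 1 := (dvd_pow_self 3 (by omega)).trans h1
      omega
  refine ⟨EGK, ?_, ?_⟩
  · intro τ hτ
    obtain ⟨a, ha⟩ := hB.psi _ hM τ (hMG hτ)
    exact (hEm τ (hMG hτ) a ha).2 (Or.inl ((hMm τ (hMG hτ) a ha).1 hτ).2)
  intro R hR c hc
  have RGK : ∀ r ∈ R, r ∈ GK k t := fun r hr => EGK (hR.mem r hr)
  refine ⟨?_, R.image c, fun a => Finset.mem_image, ?_, ?_, ?_⟩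
  · intro r hr r' hr' hcc
    have h1 : Psi (r⁻¹⁻¹ * r'⁻¹) (sN k t (f * 3 ^ (n + 1))) (⊤ : Ideal (OO k t)) :=
      s5 r⁻¹ (inv_mem (RGK r hr)) r'⁻¹ (inv_mem (RGK r' hr')) _ _ (hc r hr) (hc r' hr')
        (by rw [hcc]; exact hB.refl _ _ hM)
    rw [inv_inv] at h1
    have h2 : r * r'⁻¹ ∈ (Mn k t f (n + 1)).fixingSubgroup :=
      (Mmem _ (mul_mem (RGK r hr) (inv_mem (RGK r' hr'))) _ h1).2 (hpn (n + 1) (by omega)).1
    have h4 := Mcon r'⁻¹ (inv_mem (RGK r' hr')) _ h2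
    rw [inv_inv, mul_assoc, mul_assoc, inv_mul_cancel, mul_one] at h4
    exact (hR.uni r' hr' r hr h4).symm
  · -- `mem`
    intro a ha
    obtain ⟨r, hr, rfl⟩ := Finset.mem_image.1 ha
    exact ⟨(hc r hr).ne, (hB.pr3 hf0 (by omega) _).1 (hc r hr).cop,
      (hEm r⁻¹ (inv_mem (RGK r hr)) _ (hc r hr)).1 (inv_mem (hR.mem r hr))⟩
  · -- `ex`
    intro b hb0 hbf
    have hν0 : (NI b).Coprime (3 * f) := (hB.pni _ _ h3f).1 hbf
    have hν : (NI b).Coprime 3 := Nat.Coprime.coprime_dvd_right (Nat.dvd_mul_right 3 f) hν0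
    have hν2 : (NI b).Coprime (3 ^ (n + 1)) := Nat.Coprime.pow_right _ hν
    obtain ⟨c', e', hce⟩ : IsCoprime ((NI b : ℕ) : ℤ) ((3 ^ (n + 1) : ℕ) : ℤ) :=
      Nat.isCoprime_iff_coprime.2 hν2
    push_cast at hce
    -- the sign
    obtain ⟨ε, hε, c1, hc1, hc11⟩ : ∃ ε : ℤ, (ε = 1 ∨ ε = -1) ∧ ∃ c1 : ℤ, c1 = ε * c' ∧
        (3 : ℤ) ∣ c1 - 1 := by
      have h5 : ¬ (3 : ℤ) ∣ c' := by
        rintro ⟨x, hx⟩
        rw [hx, pow_succ] at hce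
        have h6 : (3 : ℤ) ∣ 1 := ⟨x * (NI b : ℤ) + e' * 3 ^ n, by rw [← hce]; ring⟩
        exact absurd h6 (by decide)
      rcases (by omega : (3 : ℤ) ∣ c' - 1 ∨ (3 : ℤ) ∣ -c' - 1) with h6 | h6
      · exact ⟨1, Or.inl rfl, c', by ring, h6⟩
      · exact ⟨-1, Or.inr rfl, -c', by ring, h6⟩
    obtain ⟨v, hv1, hv2⟩ := (hAr2 k t).2 f (n + 1) c1 hfok.cop hc11
    obtain ⟨hsv, hpv, hrv⟩ := DS_v k t hB f (n + 1) hf0 (by omega) v hv1
    have hb' : sp v * b ≠ (⊥ : Ideal (OO k t)) := by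
      have := hB.dd
      exact mul_ne_zero hsv hb0
    have hpb' : PrI (sp v * b) (sN k t (f * 3 ^ (n + 1))) :=
      (hB.pmul _ _ _).2 ⟨hpv, (hB.pr3 hf0 (by omega) b).2 hbf⟩
    have hnm : Nm1 (n + 1) (sp v * b) := by
      have h7 : (3 : ℤ) ^ (n + 1) ∣ (NI (sp v * b) : ℤ) - ε := by
        rw [hB.imul]
        push_cast
        rw [hB.nsp]
        obtain ⟨x, hx⟩ := hv2
        refine ⟨x * (NI b : ℤ) - ε * e', ?_⟩
        rw [hc1] at hx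
        linear_combination (NI b : ℤ) * hx + ε * hce
      rcases hε with rfl | rfl
      · exact Or.inl h7
      · right
        rwa [sub_neg_eq_add] at h7
    have hrb : Ray (sN k t (3 * f)) b (sp v * b) := by
      have h1 := hB.mul _ _ _ _ _ hm hrv (hB.refl _ b hm)
      rwa [Ideal.top_mul] at h1
    obtain ⟨τ, hτ, hτ'⟩ := hB.sur _ _ hM hb' hpb'
    have hτE : τ ∈ (Kn k t n).fixingSubgroup := (hEm τ hτ _ hτ').2 hnm
    obtain ⟨r, hr, hrτ⟩ := hR.ex τ⁻¹ (inv_mem hτE)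
    obtain ⟨e, he⟩ := hB.psi _ hM _ (hMG hrτ)
    have hHPe : HP f e := ((hMm _ (hMG hrτ) e he).1 hrτ).1
    have h5 := hB.pmu _ hM _ _ _ _ he hτ'
    rw [inv_mul_cancel_right] at h5
    have h6 : Ray (sN k t (3 * f)) (c r) (e * (sp v * b)) :=
      hB.mono _ _ _ _ hM hMm3 (hB.uni _ hM _ _ _ (hc r hr) h5)
    obtain ⟨a', ha', hea'⟩ := (hAr3 hCg k t hB).2 (sN k t (3 * f)) (HP f) hm
      ⟨hp1, hp2, hp3, hp4⟩ e hHPe
    refine ⟨c r, Finset.mem_image_of_mem c hr, a', ha', ?_⟩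
    have h7 : Ray (sN k t (3 * f)) (sp v * b) (a' * (e * (sp v * b))) := by
      have h8 := hB.mul _ _ _ _ _ hm (hB.symm _ _ _ hm hea') (hB.refl _ (sp v * b) hm)
      rw [Ideal.top_mul] at h8
      have h9 : e * a' * (sp v * b) = a' * (e * (sp v * b)) := by
        rw [mul_comm e a', mul_assoc]
      rwa [h9] at h8
    exact hB.trans _ _ _ _ hm hrb (hB.trans _ _ _ _ hm h7
      (hB.mul _ _ _ _ _ hm (hB.refl _ a' hm) (hB.symm _ _ _ hm h6)))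
  · -- `uni`
    intro x hx y hy hxy
    obtain ⟨r, hr, rfl⟩ := Finset.mem_image.1 hx
    obtain ⟨r', hr', rfl⟩ := Finset.mem_image.1 hy
    obtain ⟨a, ha, hay⟩ := hxy
    obtain ⟨e, he, hre⟩ := s2 r⁻¹ (inv_mem (RGK r hr)) _ (hc r hr)
    rw [inv_inv] at he
    have h1 : Psi (r'⁻¹ * r) (sN k t (f * 3 ^ (n + 1))) (c r' * e) :=
      hB.pmu _ hM _ _ _ _ (hc r' hr') he
    have hg : r'⁻¹ * r ∈ GK k t := mul_mem (inv_mem (RGK r' hr')) (RGK r hr)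
    have h2 : Ray (sN k t (3 * f)) (c r' * e) a := by
      have h5 := hB.mul _ _ _ _ _ hm hay (hB.refl _ e hm)
      rw [mul_assoc] at h5
      have h6 := hB.mul _ _ _ _ _ hm (hB.refl _ a hm) (hB.mono _ _ _ _ hM hMm3 hre)
      rw [Ideal.mul_top] at h6
      exact hB.trans _ _ _ _ hm h5 h6
    have h4 : HP f (c r' * e) := hp3 _ _ ha (hB.symm _ _ _ hm h2)
    have h5 : Nm1 (n + 1) (c r' * e) :=
      (hEm _ hg _ h1).1 (mul_mem (inv_mem (hR.mem r' hr')) (hR.mem r hr))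
    have h6 : r' = r := hR.uni r' hr' r hr ((hMm _ hg _ h1).2 ⟨h4, remA _ h4 h5⟩)
    rw [h6]

end Pool.Agent.DT.PI
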