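import Pool.Agent.Lib.DT.PI.SpecC
import Pool.Agent.Lib.DT.Base
import Pool.Agent.Lib.DI.B.A12

/-!
# THEOREM DT, Part I: a prime above `𝔭` exists (`S_ExP`)
-/

set_option autoImplicit false

open scoped Pointwise

noncomputable section

namespace Pool.Agent.DT.PI

open Pool.Agent.MuZ Pool.Agent.DT
open Pool.Agent.DI (io ofC io_inj VP MP)

variable {k t : ℕ}

/-- The number `wO` is integral. -/
private theorem ExP_int [SqT k t] : IsIntegral ℤ (wO k t) := by
  refine ⟨Polynomial.X ^ 2 - Polynomial.C (t : ℤ) * Polynomial.X + Polynomial.C (3 * (k : ℤ)),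
    ?_, ?_⟩
  · monicity!
  · simp only [Polynomial.eval₂_add, Polynomial.eval₂_sub, Polynomial.eval₂_mul,
      Polynomial.eval₂_pow, Polynomial.eval₂_X, Polynomial.eval₂_C]
    rw [wO_sq]
    simp

/-- The integral element `wO`. -/
private def ExP_w (k t : ℕ) [SqT k t] : ZZ := ⟨wO k t, ExP_int⟩

private theorem ExP_w_coe [SqT k t] : ((ExP_w k t : ZZ) : Om) = wO k t := rfl

private theorem ExP_three_coe : ((3 : ZZ) : Om) = 3 := rfl

private theorem ExP_three : ¬ IsUnit (3 : ZZ) := by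
  intro h
  obtain ⟨u, hu⟩ := h.exists_right_inv
  have h1 : (3 : Om) * (u : Om) = 1 := by
    have := congrArg (fun t : ZZ => (t : Om)) hu
    simpa [ExP_three_coe] using this
  have h2 : ((1 / 3 : ℚ) : Om) = (u : Om) := by
    push_cast
    field_simp
    linear_combination -h1
  have h3 : IsIntegral ℤ (algebraMap ℚ Om (1 / 3 : ℚ)) := by
    have : algebraMap ℚ Om (1 / 3 : ℚ) = (u : Om) := by
      rw [← h2]; simp
    rw [this]
    exact u.2
  have h4 : IsIntegral ℤ (1 / 3 : ℚ) :=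
    (isIntegral_algebraMap_iff (algebraMap ℚ Om).injective).1 h3
  obtain ⟨y, hy⟩ := IsIntegrallyClosed.isIntegral_iff.1 h4
  have h5 : ((y : ℤ) : ℚ) = 1 / 3 := by simpa using hy
  have h6 : ((3 * y : ℤ) : ℚ) = ((1 : ℤ) : ℚ) := by
    push_cast
    rw [h5]; norm_num
  have h7 : (3 * y : ℤ) = 1 := by exact_mod_cast h6
  omega

private theorem ExP_conj [SqT k t] (c : Gal(Om/ℚ))
    (hc : ∀ x : Om, io (c x) = (starRingEnd ℂ) (io x)) :
    c (wO k t) = t - wO k t := by
  apply io_inj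
  rw [hc, map_sub, map_natCast, io_wO, conj_wC]

private theorem ExP_ne_top [SqT k t] : Ideal.span {(3 : ZZ), ExP_w k t} ≠ ⊤ := by
  obtain ⟨c, hc⟩ := DI.tA1
  intro h
  obtain ⟨x, y, hxy⟩ := Ideal.mem_span_pair.1 ((Ideal.eq_top_iff_one _).1 h)
  have h1 : (x : Om) * 3 + (y : Om) * wO k t = 1 := by
    have := congrArg (fun t : ZZ => (t : Om)) hxy
    simpa [ExP_three_coe, ExP_w_coe] using this
  have h2 : c (x : Om) * 3 + c (y : Om) * (t - wO k t) = 1 := by
    have := congrArg c h1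
    rw [map_add, map_mul, map_mul, map_one, ExP_conj c hc, map_ofNat] at this
    exact this
  have hint : ∀ u : ZZ, IsIntegral ℤ (c (u : Om)) := by
    intro u
    have : IsIntegral ℤ ((u : Om)) := u.2
    exact this.map ((c : Om ≃ₐ[ℚ] Om).toAlgHom.restrictScalars ℤ)
  set x' : ZZ := ⟨c (x : Om), hint x⟩ with hx'
  set y' : ZZ := ⟨c (y : Om), hint y⟩ with hy'
  have hx'' : ((x' : ZZ) : Om) = c (x : Om) := rfl
  have hy'' : ((y' : ZZ) : Om) = c (y : Om) := rfl
  apply ExP_three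
  refine IsUnit.of_mul_eq_one (x + x' - 3 * (x * x') + (k : ZZ) * (y * y')) ?_
  apply Subtype.ext
  push_cast
  rw [ExP_three_coe, hx'', hy'']
  have h3 : (wO k t : Om) ^ 2 = t * wO k t - 3 * k := wO_sq
  have h4 : (1 - (x : Om) * 3) * (1 - c (x : Om) * 3) = 3 * k * ((y : Om) * c (y : Om)) := by
    have e1 : 1 - (x : Om) * 3 = (y : Om) * wO k t := by linear_combination -h1
    have e2 : 1 - c (x : Om) * 3 = c (y : Om) * (t - wO k t) := by linear_combination -h2
    rw [e1, e2]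
    linear_combination (-(y : Om) * c (y : Om)) * h3
  linear_combination -h4

theorem pExP : S_ExP := by
  intro k t _
  refine ⟨?_, ?_⟩
  · obtain ⟨P, hP, hle⟩ := Ideal.exists_le_maximal _ (ExP_ne_top (k := k) (t := t))
    have h2 : (3 : ZZ) ∈ P := hle (Ideal.subset_span (by simp))
    have hw : ExP_w k t ∈ P := hle (Ideal.subset_span (by simp))
    have h1 : (1 : ZZ) ∉ P := fun h => hP.ne_top ((Ideal.eq_top_iff_one P).2 h)
    refine ⟨P, ⟨hP.isPrime, ?_⟩, ⟨3, 1, h2, h1, ?_⟩, ⟨ExP_w k t, 1, hw, h1, ?_⟩⟩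
    · rintro rfl
      rw [Ideal.mem_bot] at h2
      have h3 : (3 : Om) = 0 := congrArg (fun t : ZZ => (t : Om)) h2
      norm_num at h3
    · rw [ExP_three_coe]; simp
    · rw [ExP_w_coe]; simp
  · rintro P ⟨hN, h2, -⟩
    refine ⟨?_, hN, h2⟩
    obtain ⟨a, b, ha, hb, hab⟩ := h2
    have h3 : 3 * b = a := by
      apply Subtype.ext
      push_cast
      rw [ExP_three_coe]
      exact hab
    have h4 : 3 * b ∈ P := by rw [h3]; exact ha
    exact (hN.1.mem_or_mem h4).resolve_right hb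

end Pool.Agent.DT.PI
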