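import Pool.Agent.Lib.DT.PI.SpecD
import Pool.Agent.Lib.DT.Base

/-!
# THEOREM DT, Part I, module FT: number fields inside the field of the Weber function
-/

set_option autoImplicit false

open scoped Pointwise

noncomputable section

namespace Pool.Agent.DT.PI

open Pool.Agent.MuZ Pool.Agent.DT
open Pool.Agent.DI (io ofC)

private theorem FT_mem (k t : ℕ) [SqT k t]
    (hR : ∀ M : ℕ, 0 < M → wO k t ∈ RCF k t M ∧ ofC (jC k t) ∈ RCF k t M ∧
      ∀ z : ℂ, z ∉ Lam (⊤ : Ideal (OO k t)) → (M : ℂ) * z ∈ Lam (⊤ : Ideal (OO k t)) →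
        ofC (weC k t z) ∈ RCF k t M) (x : Om) (hx : x ∈ Wf k t) :
    ∃ M : ℕ, 0 < M ∧ ∀ M' : ℕ, 0 < M' → M ∣ M' → x ∈ RCF k t M' := by
  have two : ∀ x y : Om, (∃ M : ℕ, 0 < M ∧ ∀ M' : ℕ, 0 < M' → M ∣ M' → x ∈ RCF k t M') →
      (∃ M : ℕ, 0 < M ∧ ∀ M' : ℕ, 0 < M' → M ∣ M' → y ∈ RCF k t M') →
      ∃ M : ℕ, 0 < M ∧ ∀ M' : ℕ, 0 < M' → M ∣ M' → x ∈ RCF k t M' ∧ y ∈ RCF k t M' := by
    rintro x y ⟨M, hM, hx⟩ ⟨M', hM', hy⟩
    refine ⟨M * M', Nat.mul_pos hM hM', fun M'' h0 h => ⟨?_, ?_⟩⟩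
    · exact hx M'' h0 ((Dvd.intro _ rfl).trans h)
    · exact hy M'' h0 ((Dvd.intro_left _ rfl).trans h)
  unfold Wf at hx
  induction hx using IntermediateField.adjoin_induction with
  | mem a ha =>
    rcases ha with ha | ⟨z, hz, hz0, rfl⟩
    · refine ⟨1, one_pos, fun M' h0 _ => ?_⟩
      rcases ha with rfl | ha
      · exact (hR M' h0).1
      · rw [Set.mem_singleton_iff] at ha
        subst ha
        exact (hR M' h0).2.1
    · obtain ⟨N, hN, hNz⟩ := (tor_iff (b := (⊤ : Ideal (OO k t))) top_ne_bot).1 hz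
      refine ⟨N, hN, fun M' h0 hd => ?_⟩
      obtain ⟨c, rfl⟩ := hd
      refine (hR _ h0).2.2 z hz0 ?_
      have h1 : ((N * c : ℕ) : ℂ) * z = toC ((c : ℕ) : OO k t) * ((N : ℂ) * z) := by
        rw [toC_nat]
        push_cast
        ring
      rw [h1]
      exact lam_mul _ hNz
  | algebraMap r => exact ⟨1, one_pos, fun M' _ _ => IntermediateField.algebraMap_mem _ r⟩
  | add x y _ _ hx hy =>
    obtain ⟨M, hM, h⟩ := two x y hx hy
    exact ⟨M, hM, fun M' h0 hd => add_mem (h M' h0 hd).1 (h M' h0 hd).2⟩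
  | inv x _ hx =>
    obtain ⟨M, hM, h1⟩ := hx
    exact ⟨M, hM, fun M' h0 hd => inv_mem (h1 M' h0 hd)⟩
  | mul x y _ _ hx hy =>
    obtain ⟨M, hM, h⟩ := two x y hx hy
    exact ⟨M, hM, fun M' h0 hd => mul_mem (h M' h0 hd).1 (h M' h0 hd).2⟩

theorem pFT : S_FT := by
  classical
  intro k t _ hR F hF hFT
  obtain ⟨s, hs⟩ := hF.fg_top
  choose! Mf hMf1 hMf2 using FT_mem k t hR
  have h0 : 0 < 12 * ∏ x ∈ s, Mf (x : Om) := by
    apply Nat.mul_pos (by norm_num)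
    exact Finset.prod_pos fun x _ => hMf1 x (hFT x.2)
  obtain ⟨N, f, hf, hfN⟩ := Nat.exists_eq_pow_mul_and_not_dvd h0.ne' 3 (by norm_num)
  have hcop : Nat.Coprime f 3 := ((Nat.Prime.coprime_iff_not_dvd Nat.prime_three).2 hf).symm
  have hf0 : 0 < f := Nat.pos_of_ne_zero fun h => hf (h ▸ dvd_zero 3)
  have h4 : 4 ∣ f := by
    have h3 : 4 ∣ 3 ^ N * f := by
      rw [← hfN]
      exact (by norm_num : 4 ∣ 12).mul_right _
    exact (Nat.Coprime.pow_right N (by norm_num : Nat.Coprime 4 3)).dvd_of_dvd_mul_left h3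
  have hN : 1 ≤ N := by
    rcases Nat.eq_zero_or_pos N with h | h
    · exfalso
      apply hf
      rw [h, pow_zero, one_mul] at hfN
      rw [← hfN]
      exact (by norm_num : 3 ∣ 12).mul_right _
    · exact h
  refine ⟨f, N, ⟨hf0, h4, hcop⟩, hN, ?_⟩
  rw [mul_comm f, ← hfN]
  intro y hy
  have h1 : (⟨y, hy⟩ : F) ∈ Submodule.span ℚ (s : Set F) := by
    rw [hs]
    exact Submodule.mem_top
  have h2 : ∀ z : F, z ∈ Submodule.span ℚ (s : Set F) →
      (z : Om) ∈ RCF k t (12 * ∏ x ∈ s, Mf (x : Om)) := by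
    intro z hz
    induction hz using Submodule.span_induction with
    | mem x hx =>
      refine hMf2 x (hFT x.2) _ h0 ?_
      exact Dvd.dvd.mul_left (Finset.dvd_prod_of_mem (fun x : F => Mf (x : Om)) hx) 12
    | zero => exact zero_mem _
    | add x y _ _ hx hy => exact add_mem hx hy
    | smul a x _ hx =>
      have h3 : ((a • x : F) : Om) = algebraMap ℚ Om a * (x : Om) := by
        rw [← Algebra.smul_def]
        rfl
      rw [h3]
      exact mul_mem (IntermediateField.algebraMap_mem _ a) hx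
  exact h2 _ h1

end Pool.Agent.DT.PI
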