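import Pool.Agent.Lib.DT.PI.SpecC
import Pool.Agent.Lib.MuZ.AsmA
import Pool.Agent.Lib.MuZ.Inst

/-!
# THEOREM DT, Part I, module HypC (helper91): the hypothesis of the descent for `Lf k t f`
-/

set_option autoImplicit false

open scoped Pointwise

namespace Pool.Agent.DT.PI

open Pool.Agent.MuZ Pool.Agent.DT
open Pool.Agent.DI (io ofC io_inj exists_io io_ofC ofC_io VP MP UP TP ex)
open Pool.Agent.DI.PI (Reps HypI Meas tr)
open Pool.Agent.DK.PI (rsys)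

private theorem HypC_rel (F : IntermediateField ℚ Om) [FiniteDimensional ℚ F]
    (W : Subgroup Gal(Om/ℚ)) : F.fixingSubgroup.relIndex W ≠ 0 := by
  have hidx : F.fixingSubgroup.index ≠ 0 := by
    rw [← IntermediateField.finrank_eq_fixingSubgroup_index]
    exact Module.finrank_pos.ne'
  intro h
  exact hidx (Subgroup.index_eq_zero_of_relIndex_eq_zero h)

/-- An auxiliary ideal. -/
private theorem HypC_m {k t : ℕ} [SqT k t] (hB : Bas k t) (f : ℕ) (hf : 0 < f) :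
    ∃ m : Ideal (OO k t), m ≠ ⊥ ∧ m ≠ ⊤ ∧ PrI m (sN k t (3 * f)) := by
  obtain ⟨q, hq1, hq⟩ := Nat.exists_infinite_primes (3 * f + 1)
  have hNm : Nm ((q : ℕ) : OO k t) = (q : ℤ) ^ 2 := by
    unfold Nm
    rw [QuadraticAlgebra.re_natCast, QuadraticAlgebra.im_natCast]
    ring
  have hNIq : (NI (sp ((q : ℕ) : OO k t)) : ℤ) = (q : ℤ) ^ 2 := by rw [hB.nsp, hNm]
  refine ⟨sp ((q : ℕ) : OO k t), ?_, ?_, ?_⟩
  · intro h
    have h1 := (hB.izero _).2 h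
    rw [h1] at hNIq
    have h2 : (q : ℤ) ≠ 0 := by exact_mod_cast hq.ne_zero
    exact pow_ne_zero 2 h2 hNIq.symm
  · intro h
    rw [h, hB.top] at hNIq
    have h3 : (2 : ℤ) ≤ (q : ℤ) := by exact_mod_cast hq.two_le
    push_cast at hNIq
    nlinarith
  · refine (hB.prsp (by omega) _).2 ?_
    rw [hNm]
    have h1 : q.Coprime (3 * f) := by
      refine (Nat.Prime.coprime_iff_not_dvd hq).2 fun h => ?_
      have := Nat.le_of_dvd (by omega) h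
      omega
    exact IsCoprime.pow_left (Nat.isCoprime_iff_coprime.2 h1)

theorem pHypC : S_HypC := by
  classical
  intro hExP hChi hLM hBInv hBNrm hRpT hAP haP hAThm hDS hANv hgEx hRpS hKap hTei hCg hAr2 hAr3
    hNiL hPs hGalI hKF1 hLay hGR hGM hG3 hG hH k t _ hB hly hlu f hf
  have hfpos : 0 < f := hf.pos
  obtain ⟨⟨P, hAb⟩, hExP2⟩ := hExP k t
  obtain ⟨h3P, hNpr, hMP3⟩ := hExP2 P hAb
  have hnice : NiceI (sN k t (3 * f)) (H3 (k := k) (t := t) f) :=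
    ((hAr3 hCg k t hB).1 f hfpos hf.cop).2.2.1
  have hGal := hGalI hPs k t hB
  have hfdL : FiniteDimensional ℚ (Lf k t f) :=
    (hGal (sN k t (3 * f)) (H3 f) (sN_ne (by omega)) hnice).1
  obtain ⟨hLG, hLy, hLMn⟩ := hLM hCg hAr3 hNiL hPs hGalI hGM k t hB f hf
  have hlayL : ∀ n : ℕ, Layer 3 (Lf k t f) n (Ln k t f (n + 1)) := by
    intro n
    rw [hLy n]
    exact hly f (H3 f) hfpos hf.cop hnice n
  have hlayL' : ∀ (n : ℕ) (F : IntermediateField ℚ Om), Layer 3 (Lf k t f) n F →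
      F = Ln k t f (n + 1) := fun n F hF => hlu (Lf k t f) hfdL n F _ hF (hlayL n)
  obtain ⟨hnice1, hKQ⟩ := hKF1 hPs hGalI k t hB
  have hfdK : FiniteDimensional ℚ (KQ k t) := by
    have h1 := (hGal (sN k t (3 * 1)) (Gd (sN k t (3 * 1))) (sN_ne (by omega)) hnice1).1
    rwa [hKQ] at h1
  have hlayKn : ∀ n : ℕ, Layer 3 (KQ k t) n (Kn k t n) := by
    intro n
    have h1 := hly 1 (Gd (sN k t (3 * 1))) one_pos (Nat.coprime_one_left 3) hnice1 n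
    rw [hKQ] at h1
    exact h1
  have hlayK : ∀ (n : ℕ) (E : IntermediateField ℚ Om), Layer 3 (KQ k t) n E → E = Kn k t n :=
    fun n E hE => hlu (KQ k t) hfdK n E _ hE (hlayKn n)
  have hniceK : ∀ n : ℕ, NiceI (sN k t (1 * 3 ^ (n + 1)))
      (fun a : Ideal (OO k t) => Gd (sN k t (3 * 1)) a ∧ Nm1 (n + 1) a) :=
    fun n => hNiL k t hB 1 _ one_pos hnice1 n
  have hLnLf : ∀ n : ℕ, (Ln k t f (n + 1)).fixingSubgroup ≤ (Lf k t f).fixingSubgroup :=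
    fun n => (hLMn n).1
  have hMnLn : ∀ n : ℕ, (Mn k t f (n + 1)).fixingSubgroup ≤ (Ln k t f (n + 1)).fixingSubgroup :=
    fun n => (hLMn n).2.1
  have hLnG : ∀ n : ℕ, (Ln k t f (n + 1)).fixingSubgroup ≤ GK k t :=
    fun n => (hLnLf n).trans hLG
  have hMnG : ∀ n : ℕ, (Mn k t f (n + 1)).fixingSubgroup ≤ GK k t :=
    fun n => (hMnLn n).trans (hLnG n)
  refine ⟨P, hAb.1.1, by exact_mod_cast h3P, ?_⟩
  intro χb hmul hone hnt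
  obtain ⟨χ, hχ, hχb, m0, hm0, hχm⟩ := hChi hTei hPs hGalI hAr3 hCg k t hB f hf P hAb.1.1 h3P χb
    hmul hone
  obtain ⟨m, hmb, hmt, hm3⟩ := HypC_m hB f hfpos
  have hFM : FM f m := ⟨hf, hmb, hm3⟩
  obtain ⟨N0, hN01, hGN⟩ := hG k t f m (fun a => (χ a : Om)) P hFM hmt hχ hAb
  obtain ⟨n0, rfl⟩ : ∃ n0, N0 = n0 + 1 := ⟨N0 - 1, by omega⟩
  choose T hT using fun n : ℕ => (hGR k t f (n + 1) hf (Nat.le_add_left 1 n)).1
  obtain ⟨hKnG, hMnKn, hDSR⟩ := hDS hCg hAr2 hAr3 hNiL hPs hGalI hKF1 hLM hGM k t hB f n0 hf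
  have hfdM : FiniteDimensional ℚ (Mn k t f (n0 + 1)) :=
    ((hGM k t f hf).2.2.2.2.1 (n0 + 1) (Nat.le_add_left 1 n0)).1
  obtain ⟨R', hR'⟩ := (hRpS Gal(Om/ℚ) (Kn k t n0).fixingSubgroup
    (Mn k t f (n0 + 1)).fixingSubgroup (Mn k t f (n0 + 1)).fixingSubgroup hMnKn le_rfl).2.2
      (HypC_rel _ _)
  have hMpos : 0 < f * 3 ^ (n0 + 1) := by positivity
  have hexc : ∀ r : Gal(Om/ℚ), ∃ a : Ideal (OO k t),
      r ∈ R' → Psi r⁻¹ (sN k t (f * 3 ^ (n0 + 1))) a := by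
    intro r
    by_cases hr : r ∈ R'
    · obtain ⟨a, ha⟩ := hB.psi _ (sN_ne hMpos) r⁻¹ ((GK k t).inv_mem (hKnG (hR'.mem r hr)))
      exact ⟨a, fun _ => ha⟩
    · exact ⟨⊤, fun h => absurd h hr⟩
  choose c hc using hexc
  obtain ⟨hinj, D, hDm, hDD⟩ := hDSR R' hR' c hc
  obtain ⟨d, hdec, hfix, hnot⟩ := hGN (n0 + 1) le_rfl (T n0) (hT n0) D hDD
  have hGD : GDat k t f m P d T := ⟨hFM, hAb, hdec, hfix, hT⟩
  have hb : ∀ n : ℕ, ∀ σ ∈ GK k t, ∀ τ ∈ (Mn k t f (n + 1)).fixingSubgroup,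
      bb f m d T n (σ * τ) = bb f m d T n σ :=
    fun n σ hσ => (hBInv hG3 k t hB f m P d T hGD n σ hσ).1
  have hn := hBNrm hBInv hG3 hKap hGM hPs hAr2 k t hB f m P d T hGD
    (fun n => ⟨hMnG n, (hLMn n).2.2.2.2.2.2.2.2.2.1, (hLMn n).2.2.2.2.2.2.2.2.2.2⟩)
  have hA := hAP hRpS hRpT k t f m d T hb hn (fun n => ⟨hLnG n, (hLMn n).2.1, (hLMn n).2.2.1,
    (hLMn n).2.2.2.1, (hLMn n).2.2.2.2.1, (hLMn n).2.2.2.2.2.1⟩)
  have hstab : ∀ n : ℕ, ∀ σ ∈ GK k t, ∀ τ ∈ (Ln k t f (n + 1)).fixingSubgroup,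
      σ * τ * σ⁻¹ ∈ (Ln k t f (n + 1)).fixingSubgroup := fun n => (hLMn n).2.2.2.2.2.2.1
  have hstabM : ∀ n : ℕ, ∀ σ ∈ GK k t, ∀ τ ∈ (Mn k t f (n + 1)).fixingSubgroup,
      σ * τ * σ⁻¹ ∈ (Mn k t f (n + 1)).fixingSubgroup := fun n => (hLMn n).2.2.2.2.2.2.2.1
  have hcomM : ∀ n : ℕ, ∀ σ ∈ GK k t, ∀ τ ∈ GK k t,
      σ * τ * σ⁻¹ * τ⁻¹ ∈ (Mn k t f (n + 1)).fixingSubgroup :=
    fun n => (hLMn n).2.2.2.2.2.2.2.2.1
  have hstabK : ∀ σ ∈ GK k t, ∀ τ ∈ (Kn k t n0).fixingSubgroup,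
      σ * τ * σ⁻¹ ∈ (Kn k t n0).fixingSubgroup :=
    (hGal (sN k t (1 * 3 ^ (n0 + 1))) _ (sN_ne (by positivity)) (hniceK n0)).2.2.2.2.2.2.2
  obtain ⟨g, hgK, hg1⟩ := hgEx hLay k t n0 hfdK (hlayKn n0) hstabK P χb hmul
    (hone 1 (Subgroup.one_mem _)) ⟨m0, hm0, hχm⟩ hnt
  have hgG : g ∈ GK k t := hKnG hgK
  have ha := haP hRpT k t f m d T (fun n σ hσ => ⟨(hA n σ hσ).2.1, (hA n σ hσ).2.2⟩)
    (fun n => ⟨hLnG n, (hLMn n).2.2.2.1, hstab n⟩) g hgG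
  have hLnKn : (Ln k t f (n0 + 1)).fixingSubgroup ≤ (Kn k t n0).fixingSubgroup := by
    apply IntermediateField.fixingSubgroup_le
    intro x hx τ hτ a hPsi hHa
    have hle : sN k t (f * 3 ^ (n0 + 1)) ≤ sN k t (1 * 3 ^ (n0 + 1)) :=
      sN_le (mul_dvd_mul_right (one_dvd f) _)
    have hPs1 := hB.down _ _ (sN_ne hMpos) hle τ a hPsi
    have hpr : PrI a (sN k t (3 * 1)) :=
      (hB.pr3 one_pos (Nat.le_add_left 1 n0) a).1 hPs1.cop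
    exact hx τ hτ a hPs1 ⟨⟨hPsi.ne, hpr⟩, Or.inl hHa.2⟩
  refine ⟨n0, aG f m d T g, ⟨?_, ?_, ?_, ?_⟩⟩
  · intro n _ F hF σ hσ τ hτ
    rw [hlayL' n F hF] at hτ
    exact (ha n σ hσ).1 τ hτ
  · intro n _ F F' hF hF' σ hσ R hR
    rw [hlayL' n F hF, hlayL' (n + 1) F' hF'] at hR
    exact (ha n σ hσ).2 R hR
  · intro n _ F hF φ hφ τ hτ R hR
    rw [hlayL' n F hF] at hφ hτ hR
    exact hAThm hH hRpS hRpT k t hB f m P d T hGD n (hLnG n) (hMnLn n) (hLMn n).2.2.1 (hstab n)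
      (hstabM n) (hcomM n) (fun σ hσ => ⟨(hA n σ hσ).1, (hA n σ hσ).2.1⟩) g hgG φ hφ τ hτ R hR
  · intro E F hE hF R hR
    rw [hlayK n0 E hE, hlayL' n0 F hF] at hR
    exact hANv hRpS hRpT hBInv hG3 k t hB f m P d T hGD h3P n0 hKnG hLnKn (hLnLf n0) (hMnLn n0)
      (hLMn n0).2.2.1 (hstab n0) (fun σ hσ => ⟨(hA n0 σ hσ).1, (hA n0 σ hσ).2.1⟩) χb χ hmul hone
      hχb R' c D hR' (fun r hr => hc r hr) hinj hDm hnot g hgK hg1 R hR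

end Pool.Agent.DT.PI
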