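import Pool.Agent.Lib.DT.PI.SpecC

/-!
# THEOREM DT, Part I, module KF1: the field `K` as `FixI`
-/

set_option autoImplicit false

open scoped Pointwise

namespace Pool.Agent.DT.PI

open Pool.Agent.MuZ Pool.Agent.DT

theorem pKF1 : S_KF1 := by
  intro hPs hGalI k t _ hB
  have := hB.dd
  have h31 : 0 < 3 * 1 := by norm_num
  have hne : sN k t (3 * 1) ≠ ⊥ := sN_ne h31
  have hn : NiceI (sN k t (3 * 1)) (Gd (sN k t (3 * 1))) := by
    refine ⟨⟨hB.top_ne, prI_top _⟩, fun a ha => ha, fun a a' ha hr => ?_, fun a a' ha ha' => ?_⟩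
    · exact ⟨(hB.bot _ a a' hne hr).1 ha.1, (hB.pri _ a a' hne hr).1 ha.2⟩
    · exact ⟨mul_ne_zero ha.1 ha'.1, (hB.pmul _ a a').2 ⟨ha.2, ha'.2⟩⟩
  refine ⟨hn, le_antisymm ?_ (hGalI hPs k t hB (sN k t (3 * 1)) _ hne hn).2.1⟩
  intro x hx
  have h1 : x ∈ IntermediateField.fixedField (KQ k t).fixingSubgroup := by
    rw [IntermediateField.mem_fixedField_iff]
    intro τ hτ
    obtain ⟨a, ha⟩ := hB.psi _ hne τ hτ
    exact hx τ hτ a ha ⟨ha.ne, ha.cop⟩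
  rwa [InfiniteGalois.fixedField_fixingSubgroup] at h1

end Pool.Agent.DT.PI
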