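import Pool.Agent.Lib.DT.PI.SpecC
import Pool.Agent.Lib.MuZ.AsmA

/-!
# THEOREM DT, Part I, module LK0: the field `Lf k t f` over `K`
-/

set_option autoImplicit false

open scoped Pointwise

namespace Pool.Agent.DT.PI

open Pool.Agent.MuZ Pool.Agent.DT

private theorem LK0_index (K L : IntermediateField ℚ Om) (hKL : K ≤ L) :
    Module.finrank ℚ L = (L.fixingSubgroup.subgroupOf K.fixingSubgroup).index *
      Module.finrank ℚ K := by
  have hle : L.fixingSubgroup ≤ K.fixingSubgroup := IntermediateField.fixingSubgroup_le hKL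
  have h1 := Subgroup.relIndex_mul_index hle
  rw [← IntermediateField.finrank_eq_fixingSubgroup_index,
    ← IntermediateField.finrank_eq_fixingSubgroup_index] at h1
  exact h1.symm

/-- A normal subgroup of finite index such that the `m`-th powers are in it, `m` prime to `3`, has
index prime to `3`. -/
private theorem LK0_cop {G : Type*} [Group G] (D : Subgroup G) [D.Normal] (hfin : D.index ≠ 0)
    (m : ℕ) (hm : m.Coprime 3) (h : ∀ g : G, g ^ m ∈ D) : ¬ 3 ∣ D.index := by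
  intro h2
  have : D.FiniteIndex := ⟨hfin⟩
  have : Fact (Nat.Prime 3) := ⟨Nat.prime_three⟩
  have h3 : 3 ∣ Nat.card (G ⧸ D) := h2
  obtain ⟨x, hx⟩ := exists_prime_orderOf_dvd_card' 3 h3
  obtain ⟨g, rfl⟩ := QuotientGroup.mk_surjective x
  have h4 : ((g : G ⧸ D)) ^ m = 1 := by
    rw [← QuotientGroup.mk_pow, QuotientGroup.eq_one_iff]
    exact h g
  have h5 := orderOf_dvd_of_pow_eq_one h4
  rw [hx] at h5
  have h6 : 3 ∣ Nat.gcd m 3 := Nat.dvd_gcd h5 (dvd_refl 3)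
  rw [hm] at h6
  omega

theorem pLK0 : S_LK0 := by
  intro hCg hAr3 hPs hGalI k t _ hB f hf
  have hf0 : 0 < f := hf.pos
  have hn : sN k t (3 * f) ≠ ⊥ := sN_ne (by omega)
  obtain ⟨⟨m, hm, hpow⟩, -, hnice, -, -⟩ := (hAr3 hCg k t hB).1 f hf0 hf.cop
  obtain ⟨hfin, hKL, hsub, hiff, -, hst, hcm, hconj⟩ := hGalI hPs k t hB _ (H3 f) hn hnice
  obtain ⟨-, -, hpw, -, -⟩ := hPs k t hB _ hn
  have hcomm : ∀ σ ∈ (KQ k t).fixingSubgroup, ∀ τ ∈ (KQ k t).fixingSubgroup, ∀ x ∈ Lf k t f,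
      σ (τ x) = τ (σ x) := by
    intro σ hσ τ hτ x hx
    have h1 : τ (σ x) ∈ Lf k t f := hst τ hτ _ (hst σ hσ x hx)
    have h2 : (σ * τ * σ⁻¹ * τ⁻¹) (τ (σ x)) = τ (σ x) :=
      hcm σ hσ τ hτ ⟨τ (σ x), h1⟩
    have h4 : (σ * τ * σ⁻¹ * τ⁻¹) (τ (σ x)) = σ (τ x) := by
      change (σ * τ * σ⁻¹ * τ⁻¹) ((τ * σ) x) = (σ * τ) x
      rw [← AlgEquiv.mul_apply]
      congr 1
      group
    rw [← h4, h2]
  refine ⟨hfin, hKL, fun σ hσ x hx => hst σ hσ x hx, hcomm, ?_⟩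
  intro hdvd
  have hL : FiniteDimensional ℚ (Lf k t f) := hfin
  have hK : FiniteDimensional ℚ (KQ k t) :=
    FiniteDimensional.of_injective (IntermediateField.inclusion hKL).toLinearMap
      (IntermediateField.inclusion hKL).injective
  have hKpos : 0 < Module.finrank ℚ (KQ k t) := Module.finrank_pos
  have hLpos : 0 < Module.finrank ℚ (Lf k t f) := Module.finrank_pos
  have hidx : Module.finrank ℚ (Lf k t f) =
      ((Lf k t f).fixingSubgroup.subgroupOf (KQ k t).fixingSubgroup).index *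
        Module.finrank ℚ (KQ k t) := LK0_index (KQ k t) (Lf k t f) hKL
  have hnorm : ((Lf k t f).fixingSubgroup.subgroupOf (KQ k t).fixingSubgroup).Normal := by
    refine ⟨?_⟩
    intro d hd g
    rw [Subgroup.mem_subgroupOf] at hd ⊢
    exact hconj g g.2 d hd
  refine LK0_cop ((Lf k t f).fixingSubgroup.subgroupOf (KQ k t).fixingSubgroup) ?_ m hm ?_ ?_
  · intro h0
    rw [h0, zero_mul] at hidx
    omega
  · intro g
    rw [Subgroup.mem_subgroupOf]
    have hg : (g : Gal(Om/ℚ)) ∈ GK k t := g.2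
    obtain ⟨a, ha⟩ := hB.psi _ hn (g : Gal(Om/ℚ)) hg
    have h2 : Psi ((g : Gal(Om/ℚ)) ^ m) (sN k t (3 * f)) (a ^ m) := hpw _ a m ha
    have h4 : H3 f (a ^ m) := hpow a ⟨ha.ne, ha.cop⟩
    rw [Subgroup.coe_pow]
    exact (hiff ((g : Gal(Om/ℚ)) ^ m) (pow_mem hg m) (a ^ m) h2).2 h4
  · rw [hidx] at hdvd
    exact Nat.dvd_of_mul_dvd_mul_right hKpos hdvd

end Pool.Agent.DT.PI
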