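import Pool.Agent.Lib.DT.PI.SpecC
import Pool.Agent.Lib.MuZ.AsmA

/-!
# THEOREM DT, Part I, module LyI: the layers of the cyclotomic `ℤ_3`-extension of `FixI (sN (3 f)) H`
-/

set_option autoImplicit false

open scoped Pointwise

namespace Pool.Agent.DT.PI

open Pool.Agent.MuZ Pool.Agent.DT
open Pool.Agent.DI (io ofC io_inj exists_io io_ofC ofC_io VP MP UP TP ex)

/-- the index of the subgroup generated by `-1` -/
private theorem LyI_index (n : ℕ) :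
    (Subgroup.zpowers (-1 : (ZMod (3 ^ (n + 1)))ˣ)).index = 3 ^ n := by
  have hne : NeZero (3 ^ (n + 1)) := ⟨(pow_pos (by norm_num : 0 < 3) _).ne'⟩
  have hlt : Fact (2 < 3 ^ (n + 1)) := ⟨by
    rw [pow_succ]
    have := Nat.one_le_pow n 3 (by norm_num)
    omega⟩
  have hne1 : (-1 : (ZMod (3 ^ (n + 1)))ˣ) ≠ 1 := by
    intro h
    have h1 := congrArg (Units.val) h
    rw [Units.val_neg, Units.val_one] at h1
    exact ZMod.neg_one_ne_one h1
  have hord : orderOf (-1 : (ZMod (3 ^ (n + 1)))ˣ) = 2 :=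
    orderOf_eq_prime (by rw [sq, neg_mul_neg, one_mul]) hne1
  have h1 := Subgroup.index_mul_card (Subgroup.zpowers (-1 : (ZMod (3 ^ (n + 1)))ˣ))
  rw [Nat.card_zpowers, hord, Nat.card_eq_fintype_card, ZMod.card_units_eq_totient,
    Nat.totient_prime_pow_succ Nat.prime_three] at h1
  have h2 : 3 ^ n * (3 - 1) = 3 ^ n * 2 := by norm_num
  exact Nat.eq_of_mul_eq_mul_right two_pos (h1.trans h2)

private theorem LyI_mem {R : Type} [CommRing R] (u : Rˣ) :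
    u ∈ Subgroup.zpowers (-1 : Rˣ) ↔ u = 1 ∨ u = -1 := by
  constructor
  · rintro ⟨k, rfl⟩
    have h2 : (-1 : Rˣ) ^ (2 : ℤ) = 1 := by
      rw [zpow_ofNat, sq, neg_mul_neg, one_mul]
    rcases Int.even_or_odd' k with ⟨j, rfl | rfl⟩
    · left
      change (-1 : Rˣ) ^ (2 * j) = 1
      rw [zpow_mul, h2, one_zpow]
    · right
      change (-1 : Rˣ) ^ (2 * j + 1) = -1
      rw [zpow_add, zpow_mul, h2, one_zpow, one_mul, zpow_one]
  · rintro (rfl | rfl)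
    · exact Subgroup.one_mem _
    · exact Subgroup.mem_zpowers _

theorem pLyI : S_LyI := by
  intro hNoC hTFix hGalI hNiL hPs hAr2 hLay k t _ hB f H hf hf3 hH n
  have h3N : 0 < 3 ^ (n + 1) := pow_pos (by norm_num) _
  have hM : 0 < f * 3 ^ (n + 1) := Nat.mul_pos hf h3N
  have hMb : sN k t (f * 3 ^ (n + 1)) ≠ ⊥ := sN_ne hM
  have h3f : 0 < 3 * f := by omega
  have h3b : sN k t (3 * f) ≠ ⊥ := sN_ne h3f
  have hle : sN k t (f * 3 ^ (n + 1)) ≤ sN k t (3 * f) := le3 (by omega)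
  have hno := hNoC hTFix k t hB
  have hNice := hNiL k t hB f H hf hH n
  obtain ⟨Lfin, -, LGK, Lmem, -, -, -, -⟩ := hGalI hPs k t hB _ H h3b hH
  obtain ⟨Ffin, -, FGK, Fmem, -, -, -, -⟩ := hGalI hPs k t hB _ _ hMb hNice
  obtain ⟨ps1, -, -, -, -⟩ := hPs k t hB _ hMb
  change (LyI f n H).fixingSubgroup ≤ GK k t at FGK
  change FiniteDimensional ℚ (LyI f n H) at Ffin
  have down : ∀ (τ : Gal(Om/ℚ)) (a : Ideal (OO k t)), Psi τ (sN k t (f * 3 ^ (n + 1))) a →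
      Psi τ (sN k t (3 * f)) a := fun τ a h => hB.down _ _ hMb hle τ a h
  have hFL : (LyI f n H).fixingSubgroup ≤ (FixI (sN k t (3 * f)) H).fixingSubgroup := by
    intro τ hτ
    obtain ⟨a, ha⟩ := hB.psi _ hMb τ (FGK hτ)
    have hHa := (Fmem τ (FGK hτ) a ha).1 hτ
    exact (Lmem τ (FGK hτ) a (down τ a ha)).2 hHa.1
  -- the second part of `S_Lay`
  obtain ⟨-, hlay⟩ := hLay 3 (FixI (sN k t (3 * f)) H) Lfin
  -- the norm
  have key : ∀ (τ : Gal(Om/ℚ)) (a a' : Ideal (OO k t)), Psi τ (sN k t (f * 3 ^ (n + 1))) a →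
      Psi τ (sN k t (f * 3 ^ (n + 1))) a' →
      ((NI a : ℤ) : ZMod (3 ^ (n + 1))) = ((NI a' : ℤ) : ZMod (3 ^ (n + 1))) := by
    intro τ a a' h h'
    have h1 := hB.rnm _ a a' hM h.cop h'.cop (hB.uni _ hMb τ a a' h h')
    have h2 : ((3 ^ (n + 1) : ℕ) : ℤ) ∣ (NI a : ℤ) - NI a' := by
      refine dvd_trans ?_ h1
      exact_mod_cast Dvd.intro_left f rfl
    exact ((ZMod.intCast_eq_intCast_iff_dvd_sub _ _ _).2 h2).symm
  have hex : ∀ τ : (FixI (sN k t (3 * f)) H).fixingSubgroup, ∃ a : Ideal (OO k t),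
      Psi (τ : Gal(Om/ℚ)) (sN k t (f * 3 ^ (n + 1))) a := fun τ => hB.psi _ hMb τ (LGK τ.2)
  choose α hα using hex
  let φ0 : (FixI (sN k t (3 * f)) H).fixingSubgroup →* ZMod (3 ^ (n + 1)) :=
    { toFun := fun τ => ((NI (α τ) : ℤ) : ZMod (3 ^ (n + 1)))
      map_one' := by
        have h1 : Psi ((1 : (FixI (sN k t (3 * f)) H).fixingSubgroup) : Gal(Om/ℚ))
            (sN k t (f * 3 ^ (n + 1))) (⊤ : Ideal (OO k t)) := ps1
        rw [key _ _ _ (hα 1) h1, hB.top]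
        norm_num
      map_mul' := by
        intro τ σ
        have h1 : Psi ((τ * σ : (FixI (sN k t (3 * f)) H).fixingSubgroup) : Gal(Om/ℚ))
            (sN k t (f * 3 ^ (n + 1))) (α τ * α σ) := hB.pmu _ hMb _ _ _ _ (hα τ) (hα σ)
        rw [key _ _ _ (hα (τ * σ)) h1, hB.imul]
        push_cast
        rfl }
  let φ : (FixI (sN k t (3 * f)) H).fixingSubgroup →* (ZMod (3 ^ (n + 1)))ˣ := φ0.toHomUnits
  have hφ : ∀ τ, ((φ τ : (ZMod (3 ^ (n + 1)))ˣ) : ZMod (3 ^ (n + 1))) =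
      ((NI (α τ) : ℤ) : ZMod (3 ^ (n + 1))) := fun τ => rfl
  -- the values of `φ`
  have hval : ∀ c : ℤ, (3 : ℤ) ∣ c - 1 → ∃ τ, ((φ τ : (ZMod (3 ^ (n + 1)))ˣ) :
      ZMod (3 ^ (n + 1))) = (c : ZMod (3 ^ (n + 1))) := by
    intro c hc
    obtain ⟨v, hv1, hv2⟩ := (hAr2 k t).2 f (n + 1) c hf3 hc
    have hcv : IsCoprime (Nm v) ((3 * f : ℕ) : ℤ) :=
      cop_congr (n := 3 * f) (a := 1) (b := v) (by rw [dvd_sub_comm]; exact hv1) (cop_one _)
    have hv0 : v ≠ 0 := by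
      intro h
      have h1 := Nm_congr hv1
      rw [h, Nm_zero, Nm_one] at h1
      have h2 : ((3 * f : ℕ) : ℤ) ∣ 1 := by simpa using h1
      have h3 := Int.le_of_dvd one_pos h2
      push_cast at h3
      omega
    have hcf : PrI (sp v) (sN k t (3 * f)) := (hB.prsp h3f v).2 hcv
    have hpv : PrI (sp v) (sN k t (f * 3 ^ (n + 1))) := (hB.pr3 hf (by omega) _).2 hcf
    have hsv : (sp v : Ideal (OO k t)) ≠ ⊥ := fun h => hv0 (Ideal.span_singleton_eq_bot.1 h)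
    have hray : Ray (sN k t (3 * f)) (⊤ : Ideal (OO k t)) (sp v) := by
      refine ⟨v, 1, hv0, one_ne_zero, hcf, ?_, mem_sN.2 hv1, ?_⟩
      · rw [hB.prsp h3f]
        exact cop_one _
      · have h1 : sp (1 : OO k t) = ⊤ := Ideal.span_singleton_one
        rw [h1, Ideal.mul_top, Ideal.top_mul]
    have hHv : H (sp v) := hH.ray _ _ hH.top hray
    obtain ⟨τ, hτ, hτ'⟩ := hB.sur _ (sp v) hMb hsv hpv
    have hτL : τ ∈ (FixI (sN k t (3 * f)) H).fixingSubgroup :=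
      (Lmem τ hτ (sp v) (down τ _ hτ')).2 hHv
    refine ⟨⟨τ, hτL⟩, ?_⟩
    rw [hφ, key _ _ _ (hα ⟨τ, hτL⟩) hτ', hB.nsp]
    have h3 : ((3 ^ (n + 1) : ℕ) : ℤ) ∣ Nm v - c := by
      push_cast
      exact hv2
    exact ((ZMod.intCast_eq_intCast_iff_dvd_sub _ _ _).2 h3).symm
  let ψ : (FixI (sN k t (3 * f)) H).fixingSubgroup →*
      (ZMod (3 ^ (n + 1)))ˣ ⧸ (Subgroup.zpowers (-1 : (ZMod (3 ^ (n + 1)))ˣ)) :=
    (QuotientGroup.mk' (Subgroup.zpowers (-1 : (ZMod (3 ^ (n + 1)))ˣ))).comp φ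
  have hsurj : Function.Surjective ψ := by
    intro x
    obtain ⟨u, rfl⟩ := QuotientGroup.mk_surjective x
    have hne : NeZero (3 ^ (n + 1)) := ⟨h3N.ne'⟩
    have hcop := ZMod.val_coe_unit_coprime u
    have h3c : (u : ZMod (3 ^ (n + 1))).val.Coprime 3 := by
      rwa [Nat.coprime_pow_right_iff (by omega)] at hcop
    have h3d : ¬ 3 ∣ (u : ZMod (3 ^ (n + 1))).val := by
      rw [Nat.coprime_comm, Nat.Prime.coprime_iff_not_dvd Nat.prime_three] at h3c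
      exact h3c
    have hu : (((u : ZMod (3 ^ (n + 1))).val : ℤ) : ZMod (3 ^ (n + 1))) = u := by
      rw [Int.cast_natCast, ZMod.natCast_zmod_val]
    have hcase : (3 : ℤ) ∣ ((u : ZMod (3 ^ (n + 1))).val : ℤ) - 1 ∨
        (3 : ℤ) ∣ -((u : ZMod (3 ^ (n + 1))).val : ℤ) - 1 := by
      omega
    rcases hcase with h | h
    · obtain ⟨τ, hτ⟩ := hval _ h
      refine ⟨τ, ?_⟩
      change (QuotientGroup.mk (φ τ) : _ ⧸ (Subgroup.zpowers (-1 : (ZMod (3 ^ (n + 1)))ˣ))) =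
        QuotientGroup.mk u
      congr 1
      apply Units.ext
      rw [hτ, hu]
    · obtain ⟨τ, hτ⟩ := hval _ h
      refine ⟨τ, ?_⟩
      change (QuotientGroup.mk (φ τ) : _ ⧸ (Subgroup.zpowers (-1 : (ZMod (3 ^ (n + 1)))ˣ))) =
        QuotientGroup.mk u
      rw [QuotientGroup.eq, LyI_mem]
      right
      have h1 : φ τ = -u := by
        apply Units.ext
        rw [hτ, Int.cast_neg, hu, Units.val_neg]
      rw [h1, inv_neg, neg_mul, inv_mul_cancel]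
  -- `Y` as a preimage
  have hY : (LyI f n H).fixingSubgroup.subgroupOf (FixI (sN k t (3 * f)) H).fixingSubgroup =
      (⊥ : Subgroup ((ZMod (3 ^ (n + 1)))ˣ ⧸
        (Subgroup.zpowers (-1 : (ZMod (3 ^ (n + 1)))ˣ)))).comap ψ := by
    ext τ
    rw [Subgroup.mem_subgroupOf, Subgroup.mem_comap, Subgroup.mem_bot]
    have h0 : ψ τ = 1 ↔ φ τ = 1 ∨ φ τ = -1 := by
      rw [← LyI_mem]
      exact QuotientGroup.eq_one_iff (φ τ)
    rw [h0]
    have h1 : ((τ : Gal(Om/ℚ)) ∈ (LyI f n H).fixingSubgroup ↔ _) :=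
      Fmem τ (LGK τ.2) (α τ) (hα τ)
    have h2 : H (α τ) := (Lmem τ (LGK τ.2) (α τ) (down _ _ (hα τ))).1 τ.2
    rw [h1, Units.ext_iff, Units.ext_iff, hφ, Units.val_neg, Units.val_one]
    have hc : ((3 ^ (n + 1) : ℕ) : ℤ) = (3 : ℤ) ^ (n + 1) := by push_cast; rfl
    have h3 : ((3 : ℤ) ^ (n + 1) ∣ (NI (α τ) : ℤ) - 1) ↔
        ((NI (α τ) : ℤ) : ZMod (3 ^ (n + 1))) = 1 := by
      have h4 := ZMod.intCast_eq_intCast_iff_dvd_sub 1 (NI (α τ) : ℤ) (3 ^ (n + 1))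
      rw [← hc, ← h4, Int.cast_one, eq_comm]
    have h5 : ((3 : ℤ) ^ (n + 1) ∣ (NI (α τ) : ℤ) + 1) ↔
        ((NI (α τ) : ℤ) : ZMod (3 ^ (n + 1))) = -1 := by
      have h4 := ZMod.intCast_eq_intCast_iff_dvd_sub (-1) (NI (α τ) : ℤ) (3 ^ (n + 1))
      rw [sub_neg_eq_add] at h4
      rw [← hc, ← h4, Int.cast_neg, Int.cast_one, eq_comm]
    change H (α τ) ∧ ((3 : ℤ) ^ (n + 1) ∣ (NI (α τ) : ℤ) - 1 ∨
      (3 : ℤ) ^ (n + 1) ∣ (NI (α τ) : ℤ) + 1) ↔ _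
    rw [h3, h5]
    exact ⟨fun h => h.2, fun h => ⟨h2, h⟩⟩
  obtain ⟨F', hF', hF'2⟩ := hlay n
    ((LyI f n H).fixingSubgroup.subgroupOf (FixI (sN k t (3 * f)) H).fixingSubgroup)
    ((IntermediateField.fixingSubgroup_isOpen (LyI f n H)).preimage continuous_subtype_val)
    (by
      intro τ hτ
      rw [Subgroup.mem_subgroupOf, fix_cyc] at hτ
      obtain ⟨h1, h2⟩ := hτ
      have h3 := hno τ (LGK h1) h2 f (n + 1) (α τ) hf (hα τ)
      have h4 : H (α τ) := (Lmem τ (LGK τ.2) (α τ) (down _ _ (hα τ))).1 τ.2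
      exact (Fmem τ (LGK τ.2) (α τ) (hα τ)).2 ⟨h4, h3⟩)
    (by
      rw [hY, Subgroup.index_comap_of_surjective _ hsurj, Subgroup.index_bot]
      exact LyI_index n)
  have hLF' : F'.fixingSubgroup ≤ (FixI (sN k t (3 * f)) H).fixingSubgroup :=
    IntermediateField.fixingSubgroup_le hF'.1
  have heq : F'.fixingSubgroup = (LyI f n H).fixingSubgroup := by
    rw [← Subgroup.map_subgroupOf_eq_of_le hLF', hF'2, Subgroup.map_subgroupOf_eq_of_le hFL]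
  have heq2 : F' = LyI f n H := by
    rw [← InfiniteGalois.fixedField_fixingSubgroup F', heq,
      InfiniteGalois.fixedField_fixingSubgroup]
  rw [← heq2]
  exact hF'

end Pool.Agent.DT.PI
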