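import Pool.Agent.Lib.DT.PI.SpecD

/-!
# THEOREM DT, Part I, module MN1: the ray class field
-/

set_option autoImplicit false

open scoped Pointwise

namespace Pool.Agent.DT.PI

open Pool.Agent.MuZ Pool.Agent.DT

private theorem MN1_nice {k t : ℕ} [SqT k t] (hB : Bas k t) (n : Ideal (OO k t)) (hn : n ≠ ⊥) :
    NiceI n (fun a : Ideal (OO k t) => Ray n a ⊤) := by
  refine ⟨hB.refl n ⊤ hn, fun a ha => ⟨(hB.bot n a ⊤ hn ha).2 hB.top_ne,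
    (hB.pri n a ⊤ hn ha).2 (prI_top n)⟩,
    fun a a' ha haa' => hB.trans n _ _ _ hn (hB.symm n _ _ hn haa') ha, fun a a' ha ha' => ?_⟩
  have h := hB.mul n _ _ _ _ hn ha ha'
  rwa [Ideal.mul_top] at h

theorem pMN1 : S_MN1 := by
  intro hCg hAr3 hPs hGalI k t _ hB f N hf hN
  have hf0 : 0 < f := hf.pos
  have hn : sN k t (f * 3 ^ N) ≠ ⊥ := sN_ne (Nat.mul_pos hf0 (pow_pos (by norm_num) N))
  have hn3 : sN k t (3 * f) ≠ ⊥ := sN_ne (by omega)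
  have hle : sN k t (f * 3 ^ N) ≤ sN k t (3 * f) := le3 hN
  have hH := MN1_nice hB _ hn
  obtain ⟨hA1, -⟩ := hAr3 hCg k t hB
  obtain ⟨-, hA2, hL, -, -⟩ := hA1 f hf0 hf.cop
  obtain ⟨g1, -, -, g4, -, g6, -⟩ := hGalI hPs k t hB (sN k t (f * 3 ^ N)) _ hn hH
  obtain ⟨-, l2, l3, l4, -⟩ := hGalI hPs k t hB (sN k t (3 * f)) _ hn3 hL
  obtain ⟨-, -, p3, -⟩ := hPs k t hB (sN k t (f * 3 ^ N)) hn
  refine ⟨g1, g6, l2, ?_, ?_⟩
  · intro x hx τ hτ a ha hr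
    exact hx τ hτ a (hB.down _ _ hn hle τ a ha) ⟨0, by
      rw [pow_zero, pow_one]
      exact hB.mono _ _ a ⊤ hn hle hr⟩
  · obtain ⟨e, he⟩ := hA2 N hN
    refine ⟨e, fun σ hσ => ?_⟩
    have hσK : σ ∈ GK k t := l3 hσ
    obtain ⟨b, hb⟩ := hB.psi _ hn σ hσK
    have hH3 : H3 f b := (l4 σ hσK b (hB.down _ _ hn hle σ b hb)).1 hσ
    exact (g4 (σ ^ 3 ^ e) (pow_mem hσK _) _ (p3 σ b (3 ^ e) hb)).2 (he b ⟨hb.ne, hb.cop⟩ hH3)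

end Pool.Agent.DT.PI
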