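import Pool.Agent.Lib.DT.PI.SpecC

/-!
# THEOREM DT, Part I, module NiL: the group of a layer is nice
-/

set_option autoImplicit false

open scoped Pointwise

namespace Pool.Agent.DT.PI

open Pool.Agent.MuZ Pool.Agent.DT

theorem pNiL : S_NiL := by
  intro k t _ hB f H hf hH n
  have hpos : 0 < f * 3 ^ (n + 1) := by positivity
  have hne : sN k t (f * 3 ^ (n + 1)) ≠ ⊥ := sN_ne hpos
  have hpr : ∀ a : Ideal (OO k t), H a → PrI a (sN k t (f * 3 ^ (n + 1))) := fun a ha =>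
    (hB.pr3 hf (Nat.succ_le_succ (Nat.zero_le n)) a).2 (hH.cop a ha).2
  refine ⟨⟨hH.top, Or.inl ?_⟩, ?_, ?_, ?_⟩
  · rw [hB.top, Nat.cast_one, sub_self]
    exact dvd_zero _
  · rintro a ⟨ha, -⟩
    exact ⟨(hH.cop a ha).1, hpr a ha⟩
  · rintro a a' ⟨ha, hn⟩ hr
    have hle : sN k t (f * 3 ^ (n + 1)) ≤ sN k t (3 * f) :=
      le3 (Nat.succ_le_succ (Nat.zero_le n))
    refine ⟨hH.ray a a' ha (hB.mono _ _ a a' hne hle hr), ?_⟩
    have h9 := hB.rnm _ a a' hpos (hpr a ha) ((hB.pri _ a a' hne hr).1 (hpr a ha)) hr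
    have h10 : ((3 : ℤ) ^ (n + 1)) ∣ (NI a : ℤ) - NI a' := by
      refine dvd_trans ?_ h9
      push_cast
      exact Dvd.intro_left _ rfl
    obtain ⟨c, hc⟩ := h10
    rcases hn with ⟨l, hl⟩ | ⟨l, hl⟩
    · exact Or.inl ⟨l - c, by linear_combination hl - hc⟩
    · exact Or.inr ⟨l - c, by linear_combination hl - hc⟩
  · rintro a b ⟨ha, hn⟩ ⟨hb, hm⟩
    refine ⟨hH.mul a b ha hb, ?_⟩
    have h11 : (NI (a * b) : ℤ) = NI a * NI b := by
      rw [hB.imul]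
      push_cast
      rfl
    show (3 : ℤ) ^ (n + 1) ∣ (NI (a * b) : ℤ) - 1 ∨ (3 : ℤ) ^ (n + 1) ∣ (NI (a * b) : ℤ) + 1
    rw [h11]
    rcases hn with ⟨c, hc⟩ | ⟨c, hc⟩ <;> rcases hm with ⟨l, hl⟩ | ⟨l, hl⟩
    · exact Or.inl ⟨c * NI b + l, by linear_combination (NI b : ℤ) * hc + hl⟩
    · exact Or.inr ⟨c * NI b + l, by linear_combination (NI b : ℤ) * hc + hl⟩
    · exact Or.inr ⟨c * NI b - l, by linear_combination (NI b : ℤ) * hc - hl⟩
    · exact Or.inl ⟨c * NI b - l, by linear_combination (NI b : ℤ) * hc - hl⟩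

end Pool.Agent.DT.PI
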