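import Pool.Agent.Lib.DT.PI.SpecD
import Pool.Agent.Lib.DT.Base

/-!
# THEOREM DT, Part I, module RX: `Al(O)` and `X(z; O)` are in the ray class field
-/

set_option autoImplicit false

open scoped Pointwise

namespace Pool.Agent.DT.PI

open Pool.Agent.MuZ Pool.Agent.DT

theorem pRX : S_RX := by
  intro k t _ hB hX M hM
  have hnt : (⊤ : Ideal (OO k t)) ≠ ⊥ := hB.top_ne
  refine ⟨?_, ?_, ?_⟩
  · intro τ _ a hψ hR
    obtain ⟨α, α', hα, hα', -, -, -, he⟩ := hR
    have h1 := (hX.hom a hψ.ne α hα).2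
    have h2 := (hX.hom ⊤ hnt α' hα').2
    rw [hψ.aa ⊤ hnt, Ideal.mul_top]
    unfold aO
    rw [← h1, ← h2, he]
  · intro z hz hMz τ _ a hψ hR
    obtain ⟨α, α', hα, hα', hc0, -, hd0, he⟩ := hR
    have hc : Cop α M := (hB.prsp hM α).1 hc0
    have hd : (M : OO k t) ∣ α - α' := mem_sN.1 hd0
    obtain ⟨β, -, hβ⟩ := cop_inv hc
    have hβ' : (M : OO k t) ∣ α' * β - 1 := by
      have h3 : α' * β - 1 = (α * β - 1) - (α - α') * β := by ring
      rw [h3]
      exact dvd_sub hβ (dvd_mul_of_dvd_left hd β)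
    have hβ0 : β ≠ 0 := by
      rintro rfl
      have h4 : (M : OO k t) ∣ 1 := by
        rw [mul_zero, zero_sub] at hβ
        exact (dvd_neg).1 hβ
      obtain ⟨u, hu⟩ := h4
      apply hz
      have h5 : (1 : ℂ) = (M : ℂ) * toC u := by
        have h6 := congrArg toC hu
        rw [toC_mul, toC_nat, toC_one] at h6
        exact h6
      have h7 : z = toC u * ((M : ℂ) * z) := by linear_combination z * h5
      rw [h7]
      exact lam_mul u hMz
    have key : ∀ (u : OO k t) (b : Ideal (OO k t)), (M : OO k t) ∣ u - 1 → b ≠ ⊥ →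
        XC b (toC u * z) = XC b z := by
      intro u b hu hb
      obtain ⟨c, hc1⟩ := hu
      have h8 : toC u * z = z + toC c * ((M : ℂ) * z) := by
        have h9 := congrArg toC hc1
        rw [toC_sub, toC_mul, toC_nat, toC_one] at h9
        linear_combination z * h9
      rw [h8]
      exact hX.per b hb z _ (lam_mul c (lam_anti le_top hMz))
    have h10 : XC a z = XC (sp (α * β) * a) z := by
      rw [(hX.hom a hψ.ne (α * β) (mul_ne_zero hα hβ0)).1 z]
      exact (key _ a hβ hψ.ne).symm
    have h11 : XC (⊤ : Ideal (OO k t)) z = XC (sp (α' * β) * ⊤) z := by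
      rw [(hX.hom ⊤ hnt (α' * β) (mul_ne_zero hα' hβ0)).1 z]
      exact (key _ ⊤ hβ' hnt).symm
    have h12 : sp (α * β) * a = sp (α' * β) * (⊤ : Ideal (OO k t)) := by
      have h13 : sp (α * β) = sp β * sp α := by
        rw [mul_comm α β]
        exact (Ideal.span_singleton_mul_span_singleton β α).symm
      have h14 : sp (α' * β) = sp β * sp α' := by
        rw [mul_comm α' β]
        exact (Ideal.span_singleton_mul_span_singleton β α').symm
      rw [h13, h14, mul_assoc, mul_assoc]
      exact congrArg (fun I => sp β * I) he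
    have hMz' : z ∈ Lam (sN k t M * (⊤ : Ideal (OO k t))) := by
      rw [lam_sp, toC_nat]
      exact hMz
    rw [hψ.xx ⊤ hnt z hMz', Ideal.mul_top]
    unfold xO
    rw [h10, h11, h12]
  · intro τ hτ a _ _
    exact mem_GK_iff.1 hτ

end Pool.Agent.DT.PI
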