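import Pool.Agent.Lib.DT.PI.Asm
import Pool.Agent.Lib.DT.PI.BasOf
import Pool.Agent.Lib.DT.PI.Cg
import Pool.Agent.Lib.DT.PI.Ar2
import Pool.Agent.Lib.DT.PI.Ar3
import Pool.Agent.Lib.DT.PI.NiL
import Pool.Agent.Lib.DT.PI.Ps
import Pool.Agent.Lib.DT.PI.GalI
import Pool.Agent.Lib.DT.PI.NoC
import Pool.Agent.Lib.DT.PI.LyI
import Pool.Agent.Lib.DT.PI.KF1
import Pool.Agent.Lib.DT.PI.ExP
import Pool.Agent.Lib.DT.PI.Tei
import Pool.Agent.Lib.DT.PI.Kap
import Pool.Agent.Lib.DT.PI.Chi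
import Pool.Agent.Lib.DT.PI.LM
import Pool.Agent.Lib.DT.PI.BInv
import Pool.Agent.Lib.DT.PI.BNrm
import Pool.Agent.Lib.DT.PI.AP
import Pool.Agent.Lib.DT.PI.aP
import Pool.Agent.Lib.DT.PI.AThm
import Pool.Agent.Lib.DT.PI.DS
import Pool.Agent.Lib.DT.PI.ANv
import Pool.Agent.Lib.DT.PI.gEx
import Pool.Agent.Lib.DT.PI.HypC
import Pool.Agent.Lib.DT.PI.LK0
import Pool.Agent.Lib.DT.PI.Sqr
import Pool.Agent.Lib.DT.PI.KQ0
import Pool.Agent.Lib.DT.PI.RX
import Pool.Agent.Lib.DT.PI.We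
import Pool.Agent.Lib.DT.PI.FT
import Pool.Agent.Lib.DT.PI.MN1
import Pool.Agent.Lib.DT.PI.FinD

/-!
# THEOREM DT, Part I: the final theorem of Part I

`thmDT_of`: Theorem DT, from the statements of the other parts (the structure `PIn`).
-/

set_option autoImplicit false

namespace Pool.Agent.DT.PI

open Pool.Agent.DT

/-- All statements of Part I. -/
theorem allPI : AllPI where
  Cg := pCg
  Ar2 := pAr2
  Ar3 := pAr3
  NiL := pNiL
  Ps := pPs
  GalI := pGalI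
  NoC := pNoC
  LyI := pLyI
  KF1 := pKF1
  ExP := pExP
  Tei := pTei
  Kap := pKap
  Chi := pChi
  LM := pLM
  BInv := pBInv
  BNrm := pBNrm
  AP := pAP
  aP := paP
  AThm := pAThm
  DS := pDS
  ANv := pANv
  gEx := pgEx
  HypC := pHypC
  LK0 := pLK0
  Sqr := pSqr
  KQ0 := pKQ0
  RX := pRX
  We := pWe
  FT := pFT
  MN1 := pMN1
  FinD := pFinD

/-- The statements of the other parts used by Part I. -/
structure PIn : Prop where
  O2 : S_O2
  O6 : S_O6
  O7 : S_O7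
  O9 : S_O9
  B1 : S_B1
  B7 : S_B7
  R1 : S_R1
  R4 : S_R4
  E1 : S_E1
  E6 : S_E6
  E7 : S_E7
  E8 : S_E8
  GR : S_GR
  GM : S_GM
  G3 : S_G3
  G : S_G
  H : S_H

/-- The inputs in the form of `DT/PI/Asm.lean`. -/
theorem allIn_of (i : PIn) : AllIn where
  bas := bas_of i.O2 i.O6 i.O7 i.O9 i.E1 i.E6 i.E7 i.E8
  basX := basX_of i.B1 i.B7 i.R1 i.R4
  GR := i.GR
  GM := i.GM
  G3 := i.G3
  G := i.G
  H := i.H

/-- **The result for the fields `Lf k t f`**, from the statements of the other parts. -/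
theorem sI_of (i : PIn) : S_I := asm_I allPI (allIn_of i)

/-- **Theorem DT**, from the statements of the other parts. -/
theorem thmDT_of (i : PIn) : ThmDT := asm_DT allPI (allIn_of i)

end Pool.Agent.DT.PI
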