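import Pool.Agent.Lib.DT.PI.SpecD
import Pool.Agent.Lib.DK.PI.RpT
import Pool.Agent.Lib.DI.PI.Top
import Pool.Agent.Lib.FW.AsmFW2

/-!
# THEOREM DT, Part I: assembly with all statements as hypotheses
-/

set_option autoImplicit false

open scoped Pointwise

noncomputable section

namespace Pool.Agent.DT.PI

open Pool.Agent.MuZ Pool.Agent.DT
open Pool.Agent.DI.PI (Reps HypI Meas tr)

/-- The statements of Part I. -/
structure AllPI : Prop where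
  Cg : S_Cg
  Ar2 : S_Ar2
  Ar3 : S_Ar3
  NiL : S_NiL
  Ps : S_Ps
  GalI : S_GalI
  NoC : S_NoC
  LyI : S_LyI
  KF1 : S_KF1
  ExP : S_ExP
  Tei : S_Tei
  Kap : S_Kap
  Chi : S_Chi
  LM : S_LM
  BInv : S_BInv
  BNrm : S_BNrm
  AP : S_AP
  aP : S_aP
  AThm : S_AThm
  DS : S_DS
  ANv : S_ANv
  gEx : S_gEx
  HypC : S_HypC
  LK0 : S_LK0
  Sqr : S_Sqr
  KQ0 : S_KQ0
  RX : S_RX
  We : S_We
  FT : S_FT
  MN1 : S_MN1
  FinD : S_FinD

/-- The inputs from the other parts. -/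
structure AllIn : Prop where
  bas : ∀ (k t : ℕ) [SqT k t], Bas k t
  basX : ∀ (k t : ℕ) [SqT k t], BasX k t
  GR : S_GR
  GM : S_GM
  G3 : S_G3
  G : S_G
  H : S_H

/-- **The result for the fields `Lf k t f`.** -/
theorem asm_I (p : AllPI) (i : AllIn) : S_I := by
  intro k t _ f hf
  have hb := i.bas k t
  have hly := p.LyI p.NoC c_TFix p.GalI p.NiL p.Ps p.Ar2 c_Lay k t hb
  have hlu : ∀ F : IntermediateField ℚ Om, FiniteDimensional ℚ F →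
      ∀ (n : ℕ) (F₁ F₂ : IntermediateField ℚ Om), Layer 3 F n F₁ → Layer 3 F n F₂ → F₁ = F₂ :=
    DI.PI.pLyU DI.PI.pUnq c_QZ c_Sub c_PL c_Pc c_TFix c_NF c_Lay 3
  have hC : HypI 3 (KQ k t) (Lf k t f) :=
    p.HypC p.ExP p.Chi p.LM p.BInv p.BNrm DK.PI.pRpT p.AP p.aP p.AThm p.DS p.ANv p.gEx DI.PI.pRpS
      p.Kap p.Tei p.Cg p.Ar2 p.Ar3 p.NiL p.Ps p.GalI p.KF1 c_Lay i.GR i.GM i.G3 i.G i.H k t hb hly
      hlu f hf
  obtain ⟨h1, h2, h3', h4, h5⟩ := p.LK0 p.Cg p.Ar3 p.Ps p.GalI k t hb f hf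
  obtain ⟨-, h6⟩ := p.KQ0 p.Sqr Pool.Agent.FW.fwa k t
  exact DI.PI.pJMain DI.PI.Top_C DI.PI.pJSit DI.PI.pJLay DI.PI.pJKF DI.PI.pJCor DI.PI.pRel1
    DI.PI.pFinW DI.PI.pBnd DI.PI.pUnq DI.PI.pEle DI.PI.pRep DI.PI.pRp2 DI.PI.pAlg1 DI.PI.pFld1
    DI.PI.pRpS DI.PI.pJCh c_QZ c_Sub c_PL c_Pc c_TFix c_NF c_Val c_Lev c_Semi c_Uni c_EB c_Lay c_Tr
    c_LK conj c_InT ram frob pow tot orb DI.PI.Top_KF 3 (KQ k t) (Lf k t f) h1 h2 h3' h4 h5 hC h6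

/-- **Theorem DT**, from the statements of the other parts. -/
theorem asm_DT (p : AllPI) (i : AllIn) : ThmDT := by
  refine p.FinD DI.PI.pJPe DI.PI.Top_A (asm_I p i) ?_ ?_ (DI.PI.pUp res sup fld fwd bwd 3)
  · intro k t _
    refine p.FT k t ?_
    intro M hM
    have h1 := p.RX k t (i.bas k t) (i.basX k t) M hM
    obtain ⟨h2, h3⟩ := p.We k t (i.bas k t) (i.basX k t) M hM h1
    exact ⟨h1.2.2, h2, h3⟩
  · intro k t _ f N hf hN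
    exact p.MN1 p.Cg p.Ar3 p.Ps p.GalI k t (i.bas k t) f N hf hN

end Pool.Agent.DT.PI
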