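import Pool.Agent.Lib.DT.PI.SpecC

set_option autoImplicit false

/-!
# THEOREM DT, Part I: the lift of a character
-/

open scoped Pointwise

noncomputable section

namespace Pool.Agent.DT.PI

open Pool.Agent.MuZ Pool.Agent.DT

/-- `σ⁻¹` acts as `a`. -/
private def Chi_R {k t : ℕ} (n : Ideal (OO k t)) (σ : Gal(Om/ℚ)) (a : Ideal (OO k t)) : Prop :=
  σ ∈ GK k t ∧ Psi σ⁻¹ n a

open Classical in
/-- The lift. -/
private def Chi_c {k t : ℕ} {P : Ideal ZZ} (n : Ideal (OO k t)) (χb : Gal(Om/ℚ) → ZZ ⧸ P)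
    (T : ZZ ⧸ P → ZZ) (a : Ideal (OO k t)) : ZZ :=
  if h : ∃ σ, Chi_R n σ a then T (χb h.choose) else 0

theorem pChi : S_Chi := by
  intro hTei hPs0 hGal0 hAr30 hCg k t _ hB f hf P hP h3 χb hmul hL
  have hn0 : sN k t (3 * f) ≠ ⊥ := sN_ne (Nat.mul_pos (by norm_num) hf.pos)
  obtain ⟨ps1, ps2, ps3, -, ps5⟩ := hPs0 k t hB _ hn0
  obtain ⟨⟨m, hm, hmH⟩, -, hNice, -⟩ := (hAr30 hCg k t hB).1 f hf.pos hf.cop
  obtain ⟨⟨T, hT⟩, -⟩ := hTei P hP h3 m hm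
  obtain ⟨-, -, -, hgal, -⟩ := hGal0 hPs0 k t hB (sN k t (3 * f)) (H3 f) hn0 hNice
  have hgal' : ∀ τ ∈ GK k t, ∀ a : Ideal (OO k t), Psi τ (sN k t (3 * f)) a → H3 f a →
      χb τ = 1 := fun τ hτ a ha hH => hL τ ((hgal τ hτ a ha).2 hH)
  have hRex : ∀ a : Ideal (OO k t), Gd (sN k t (3 * f)) a → ∃ σ, Chi_R (sN k t (3 * f)) σ a := by
    intro a ha
    obtain ⟨τ, hτ, h⟩ := hB.sur _ a hn0 ha.1 ha.2
    refine ⟨τ⁻¹, inv_mem hτ, ?_⟩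
    rw [inv_inv]
    exact h
  -- fact 1
  have fact1 : ∀ (σ σ' : Gal(Om/ℚ)) (a a' : Ideal (OO k t)), Chi_R (sN k t (3 * f)) σ a →
      Chi_R (sN k t (3 * f)) σ' a' → Ray (sN k t (3 * f)) a a' → χb σ = χb σ' := by
    intro σ σ' a a' hσ hσ' hr
    obtain ⟨c, hc1, hc2⟩ := ps2 σ⁻¹ (inv_mem hσ.1) a hσ.2
    rw [inv_inv] at hc1
    have hρ : Psi (σ'⁻¹ * σ) (sN k t (3 * f)) (a' * c) := hB.pmu _ hn0 _ _ _ _ hσ'.2 hc1
    have hρG : σ'⁻¹ * σ ∈ GK k t := mul_mem (inv_mem hσ'.1) hσ.1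
    have h3 : Ray (sN k t (3 * f)) (⊤ : Ideal (OO k t)) (a' * c) := by
      refine hB.symm _ _ _ hn0 (hB.trans _ _ _ _ hn0 (hB.mul _ _ _ _ _ hn0 ?_ ?_) hc2)
      · exact hB.symm _ _ _ hn0 hr
      · exact hB.refl _ c hn0
    have h4 := hgal' _ hρG _ hρ (hNice.ray _ _ hNice.top h3)
    have h5 := hmul σ' hσ'.1 (σ'⁻¹ * σ) hρG
    rw [h4, mul_one, mul_inv_cancel_left] at h5
    exact h5
  -- fact 2
  have hpow : ∀ σ ∈ GK k t, ∀ n : ℕ, χb (σ ^ n) = χb σ ^ n := by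
    intro σ hσ n
    induction n with
    | zero =>
      rw [pow_zero, pow_zero]
      exact hL 1 (one_mem _)
    | succ n ih => rw [pow_succ, pow_succ, hmul _ (pow_mem hσ n) _ hσ, ih]
  have fact2 : ∀ σ ∈ GK k t, χb σ ^ m = 1 := by
    intro σ hσ
    obtain ⟨a, ha⟩ := hB.psi _ hn0 σ hσ
    rw [← hpow σ hσ m]
    exact hgal' _ (pow_mem hσ m) _ (ps3 σ a m ha) (hmH a ⟨ha.ne, ha.cop⟩)
  -- the lift
  have hc : ∀ (σ : Gal(Om/ℚ)) (a : Ideal (OO k t)), Chi_R (sN k t (3 * f)) σ a →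
      Chi_c (sN k t (3 * f)) χb T a = T (χb σ) := by
    intro σ a hσ
    have hex : ∃ σ, Chi_R (sN k t (3 * f)) σ a := ⟨σ, hσ⟩
    unfold Chi_c
    rw [dif_pos hex]
    rw [fact1 _ _ a a hex.choose_spec hσ (hB.refl _ a hn0)]
  have hc0 : ∀ a : Ideal (OO k t), ¬ Gd (sN k t (3 * f)) a →
      Chi_c (sN k t (3 * f)) χb T a = 0 := by
    intro a ha
    unfold Chi_c
    rw [dif_neg]
    rintro ⟨σ, hσ⟩
    exact ha ⟨hσ.2.ne, hσ.2.cop⟩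
  refine ⟨Chi_c (sN k t (3 * f)) χb T, ⟨?_, ?_, ?_, ⟨m, hm, ?_⟩⟩, ?_, ⟨m, hm, fact2⟩⟩
  · intro a ha
    have h3 : ¬ Gd (sN k t (3 * f)) a := by
      rintro ⟨h4, h5⟩
      rcases ha with h | h
      · exact h4 h
      · exact h h5
    change ((Chi_c (sN k t (3 * f)) χb T a : ZZ) : Om) = 0
    rw [hc0 a h3, ZeroMemClass.coe_zero]
  · intro a a' ha ha' hp hp' hr
    obtain ⟨σ, hσ⟩ := hRex a ⟨ha, hp⟩
    obtain ⟨σ', hσ'⟩ := hRex a' ⟨ha', hp'⟩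
    rw [hc σ a hσ, hc σ' a' hσ', fact1 σ σ' a a' hσ hσ' hr]
  · intro a b
    by_cases ha : Gd (sN k t (3 * f)) a
    · by_cases hb : Gd (sN k t (3 * f)) b
      · obtain ⟨σ, hσ⟩ := hRex a ha
        obtain ⟨τ, hτ⟩ := hRex b hb
        have hστ : Chi_R (sN k t (3 * f)) (σ * τ) (a * b) := by
          refine ⟨mul_mem hσ.1 hτ.1, ?_⟩
          rw [mul_inv_rev, mul_comm a b]
          exact hB.pmu _ hn0 _ _ _ _ hτ.2 hσ.2
        have h4 := (hT (χb σ) (fact2 σ hσ.1)).2.2 (χb τ) (fact2 τ hτ.1)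
        rw [hc σ a hσ, hc τ b hτ, hc _ _ hστ, hmul σ hσ.1 τ hτ.1, h4]
        push_cast
        rfl
      · have h3 : ¬ Gd (sN k t (3 * f)) (a * b) := by
          rintro ⟨h5, h6⟩
          refine hb ⟨?_, ((hB.pmul _ a b).1 h6).2⟩
          rintro rfl
          exact h5 (Ideal.mul_bot a)
        rw [hc0 b hb, hc0 _ h3, ZeroMemClass.coe_zero, mul_zero]
    · have h3 : ¬ Gd (sN k t (3 * f)) (a * b) := by
        rintro ⟨h5, h6⟩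
        refine ha ⟨?_, ((hB.pmul _ a b).1 h6).1⟩
        rintro rfl
        exact h5 (Ideal.bot_mul b)
      rw [hc0 a ha, hc0 _ h3, ZeroMemClass.coe_zero, zero_mul]
  · intro a ha hp
    obtain ⟨σ, hσ⟩ := hRex a ⟨ha, hp⟩
    rw [hc σ a hσ]
    have h3 := (hT (χb σ) (fact2 σ hσ.1)).1
    exact congrArg (fun x : ZZ => (x : Om)) h3
  · intro σ hσ a ha
    have hR : Chi_R (sN k t (3 * f)) σ a := ⟨hσ, ha⟩
    rw [hc σ a hR]
    exact (hT (χb σ) (fact2 σ hσ)).2.1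

end Pool.Agent.DT.PI
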