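import Pool.Agent.Lib.DT.PI.SpecC

/-!
# THEOREM DT, Part I (helper55), chapter D: the ray class fields and the field of the Weber function

Same conventions as in `SpecC.lean`: `S_<Name>` is proved in the module `Pool/Agent/Lib/DT/PI/<Name>.lean`, theorem
`p<Name> : S_<Name>`; the statements named as hypotheses only have to be introduced. `BasX k t` lists the facts on the
model of the curves which are used; it is proved at the end from the statements of the parts B, R.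
Elementary facts on `Lam`, `Tor`: `DT/Base.lean` (`lam_prod`, `lam_sp`, `lam_top`, `lam_mono`, `tor_iff`, ...).
-/

set_option autoImplicit false

open scoped Pointwise nonZeroDivisors

noncomputable section

namespace Pool.Agent.DT.PI

open Pool.Agent.MuZ Pool.Agent.DT NumberField IsDedekindDomain
open Pool.Agent.DI (io ofC io_inj exists_io io_ofC ofC_io VP MP UP TP ex)

/-- The facts on the model of the curves `ℂ / Lam b`. -/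
structure BasX (k t : ℕ) [SqT k t] : Prop where
  /-- `X` is periodic. -/
  per : ∀ b : Ideal (OO k t), b ≠ ⊥ → ∀ z l : ℂ, l ∈ Lam b → XC b (z + l) = XC b z
  /-- Homogeneity. -/
  hom : ∀ b : Ideal (OO k t), b ≠ ⊥ → ∀ α : OO k t, α ≠ 0 →
    (∀ z : ℂ, XC (sp α * b) z = XC b (toC α * z)) ∧ AC (sp α * b) = AC b
  /-- The Weierstrass invariants in terms of `Al` and `r²`. -/
  rne : ∀ b : Ideal (OO k t), b ≠ ⊥ → r2 b ≠ 0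
  dis : ∀ b : Ideal (OO k t), b ≠ ⊥ → AC b ^ 3 ≠ 27
  wp : ∀ b : Ideal (OO k t), b ≠ ⊥ → ∀ z : ℂ, wpC b z = r2 b * (XC b z + AC b ^ 2 / 12)
  g2 : ∀ b : Ideal (OO k t), b ≠ ⊥ → 12 * (LP b).g₂ = r2 b ^ 2 * (AC b ^ 4 - 24 * AC b)
  g3 : ∀ b : Ideal (OO k t), b ≠ ⊥ →
    216 * (LP b).g₃ = r2 b ^ 3 * (-AC b ^ 6 + 36 * AC b ^ 3 - 216)
  /-- Algebraicity. -/
  aalg : ∀ b : Ideal (OO k t), b ≠ ⊥ → io (aO b) = AC b
  xalg : ∀ b : Ideal (OO k t), b ≠ ⊥ → ∀ z : ℂ, Tor k t z → io (xO b z) = XC b z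

/-- The ray class field modulo `M` (the field of all elements fixed by the `τ` with `Psi τ (sN M) ⊤`). -/
def RCF (k t M : ℕ) : IntermediateField ℚ Om :=
  FixI (sN k t M) (fun a : Ideal (OO k t) => Ray (sN k t M) a ⊤)

/-- (100 lines) **`Al(O)` and `X(z; O)` are in the ray class field.** Start from `DK/PI/RX.lean`.
PROOF. By the definition of `FixI`: let `τ ∈ GK k t`, `Psi τ (sN M) a`, `Ray (sN M) a ⊤`: `sp α * a = sp α' * ⊤ = sp α'`,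
`α - α' ∈ sN M`, `α, α' ≠ 0`, `PrI (sp α) (sN M)`. (1) `τ (aO ⊤) = aO (a * ⊤) = aO a` (`Psi.aa`), and `AC a = AC (sp α * a) =
AC (sp α' * ⊤) = AC ⊤` (`hom`, `Psi.ne`). (2) `τ (xO ⊤ z) = xO (a * ⊤) z = xO a z` (`Psi.xx`; `z ∈ Lam (sN M * ⊤)`: `lam_sp`). `M > 1`,
because `z ∉ Lam ⊤`. Choose `β` with `M ∣ α β - 1` (`Bas.prsp`, `cop_inv`); then `M ∣ α' β - 1`, and `β ≠ 0` as `M > 1`. For `u` with
`M ∣ u - 1`: `toC u * z = z + toC (u - 1) * z`, `toC (u - 1) * z = toC u' * (M z) ∈ Lam ⊤` (`lam_mul`), and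
`Lam ⊤ ⊆ Lam (a * ⊤) = Lam a` (`lam_mono`). So `XC a z = XC a (toC (α β) * z) = XC (sp (α β) * a) z` (`per`, `hom`),
`sp (α β) * a = sp β * sp α' = sp (α' β) * ⊤`, and `XC (sp (α' β) * ⊤) z = XC ⊤ (toC (α' β) * z) = XC ⊤ z`. (3) elements of
`GK k t` fix `wO k t`. -/
def S_RX : Prop :=
  ∀ (k t : ℕ) [SqT k t], Bas k t → BasX k t → ∀ M : ℕ, 0 < M →
    aO (⊤ : Ideal (OO k t)) ∈ RCF k t M ∧
    (∀ z : ℂ, z ∉ Lam (⊤ : Ideal (OO k t)) → (M : ℂ) * z ∈ Lam (⊤ : Ideal (OO k t)) →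
      xO (⊤ : Ideal (OO k t)) z ∈ RCF k t M) ∧ wO k t ∈ RCF k t M

/-- (100 lines) **`j(O)` and the Weber function.** The last hypothesis is the conclusion of `S_RX`. Start from `DK/PI/We.lean`.
PROOF. `b = ⊤` (`⊤ ≠ ⊥`: `Bas.top_ne`), `r = r2 ⊤ ≠ 0` (`rne`), `A = AC ⊤`, `A ^ 3 ≠ 27`. `g₂ = r ^ 2 (A ^ 4 - 24 A) / 12`,
`g₃ = r ^ 3 (-A ^ 6 + 36 A ^ 3 - 216) / 216`, so `g₂ ^ 3 - 27 g₃ ^ 2 = r ^ 6 (A ^ 3 - 27)` (`ring`: `(A ^ 4 - 24 A) ^ 3 -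
(A ^ 6 - 36 A ^ 3 + 216) ^ 2 = 1728 (A ^ 3 - 27)`). (1) `jC k t = (A ^ 4 - 24 A) ^ 3 / (1728 (A ^ 3 - 27))`. `a = aO ⊤`, `io a = A`
(`aalg`); the element `j'` of `Om` given by the same formula in `a` has `io j' = jC k t` (`map_div₀`, ...), so `ofC (jC k t) = j'`
(`ofC_io`), and `j' ∈ RCF k t M` (a field, `div_mem`, ...). (2) `℘(z; O) = r (X(z) + A ^ 2 / 12)`, so
`weC k t z = (A ^ 4 - 24 A) (-A ^ 6 + 36 A ^ 3 - 216) / (2592 (A ^ 3 - 27)) * (X(z) + A ^ 2 / 12)`. `io (xO ⊤ z) = XC ⊤ z` (`xalg`;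
`Tor k t z` by `tor_iff` with `N = M`). As before. -/
def S_We : Prop :=
  ∀ (k t : ℕ) [SqT k t], Bas k t → BasX k t → ∀ M : ℕ, 0 < M →
    (aO (⊤ : Ideal (OO k t)) ∈ RCF k t M ∧
      (∀ z : ℂ, z ∉ Lam (⊤ : Ideal (OO k t)) → (M : ℂ) * z ∈ Lam (⊤ : Ideal (OO k t)) →
        xO (⊤ : Ideal (OO k t)) z ∈ RCF k t M) ∧ wO k t ∈ RCF k t M) →
    ofC (jC k t) ∈ RCF k t M ∧
    ∀ z : ℂ, z ∉ Lam (⊤ : Ideal (OO k t)) → (M : ℂ) * z ∈ Lam (⊤ : Ideal (OO k t)) →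
      ofC (weC k t z) ∈ RCF k t M

/-- (100 lines) **Number fields inside the field of the Weber function.** The hypothesis is the conclusion of
`S_RX` and `S_We`. Start from `DK/PI/FT.lean`.
PROOF. As there, with `M = 12 * ∏ n_a`: `M = f 3 ^ N` with `f` prime to `3` (`Nat.exists_eq_pow_mul_and_not_dvd`); `4 ∣ f` as
`4 ∣ f 3 ^ N`; `N ≥ 1` as `3 ∣ M`. -/
def S_FT : Prop :=
  ∀ (k t : ℕ) [SqT k t], (∀ M : ℕ, 0 < M → wO k t ∈ RCF k t M ∧ ofC (jC k t) ∈ RCF k t M ∧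
      ∀ z : ℂ, z ∉ Lam (⊤ : Ideal (OO k t)) → (M : ℂ) * z ∈ Lam (⊤ : Ideal (OO k t)) →
        ofC (weC k t z) ∈ RCF k t M) →
    ∀ F : IntermediateField ℚ Om, FiniteDimensional ℚ F → F ≤ Wf k t →
      ∃ f N : ℕ, Fok f ∧ 1 ≤ N ∧ F ≤ RCF k t (f * 3 ^ N)

/-- (80 lines) **The field `RCF`.** Uses `S_Ar3`, `S_GalI`, `S_Ps`. Start from `DK/PI/MN1.lean`.
PROOF. `M = f 3 ^ N > 0`. `H = fun a => Ray (sN M) a ⊤` is nice: `top`: `refl`; `cop`: `bot`, `pri` (`Bas.top_ne`, `prI_top`); `ray`: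
`symm`, `trans`; `mul`: `mul`, `⊤ * ⊤ = ⊤`. `H3 f` is nice (`S_Ar3`). (1), (2): `S_GalI` (1), (6). (3): `S_GalI` (2) for `H3 f`.
(4): definition of `FixI`: `x ∈ Lf k t f`, `τ ∈ GK k t`, `Psi τ (sN M) a`, `Ray (sN M) a ⊤`: then `Psi τ (sN (3 f)) a` (`down`, `le3`) and
`Ray (sN (3 f)) (a ^ 3 ^ 0) ⊤` (`mono`), so `τ x = x`. (5) Let `a = e` be given by `S_Ar3` (2). Let `σ` fix `Lf k t f`; `σ ∈ GK k t`,
`Psi σ (sN M) b` (`psi`), `Psi σ (sN (3 f)) b`, so `H3 f b` (`S_GalI` (4)), `Gd (sN M) b`; `Psi (σ ^ 3 ^ e) (sN M) (b ^ 3 ^ e)`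
(`S_Ps` (3)) and `Ray (sN M) (b ^ 3 ^ e) ⊤`: `σ ^ 3 ^ e` fixes `RCF k t M` (`S_GalI` (4)). -/
def S_MN1 : Prop :=
  S_Cg → S_Ar3 → S_Ps → S_GalI → ∀ (k t : ℕ) [SqT k t], Bas k t → ∀ f N : ℕ, Fok f → 1 ≤ N →
    FiniteDimensional ℚ (RCF k t (f * 3 ^ N)) ∧
    (∀ σ ∈ (KQ k t).fixingSubgroup, ∀ x ∈ RCF k t (f * 3 ^ N), σ x ∈ RCF k t (f * 3 ^ N)) ∧
    KQ k t ≤ Lf k t f ∧ Lf k t f ≤ RCF k t (f * 3 ^ N) ∧
    ∃ a : ℕ, ∀ σ ∈ (Lf k t f).fixingSubgroup, σ ^ 3 ^ a ∈ (RCF k t (f * 3 ^ N)).fixingSubgroup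

/-- (60 lines) **Theorem DT, assembly of the last descent.** The hypotheses are the conclusions of `S_FT`,
`S_MN1`, `DI.PI.S_Up` and `S_I`. Edit of `DK/PI/FinD.lean`.
PROOF. Let `F ≤ Wf k t` be a number field; `f`, `N` from the first, so `F ≤ RCF k t (f 3 ^ N)`. `XFinGen 3 (cyc 3 (Lf k t f))` by
`S_I`; `S_JPe` with `p = 3`, `k = KQ k t`, `E = Lf k t f`, `L = RCF k t (f 3 ^ N)`: `XFinGen 3 (cyc 3 (RCF _ _ _))`; the last hypothesis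
for `F ≤ RCF _ _ _`. -/
def S_FinD : Prop :=
  DI.PI.S_JPe → ThmA → S_I →
  (∀ (k t : ℕ) [SqT k t] (F : IntermediateField ℚ Om), FiniteDimensional ℚ F → F ≤ Wf k t →
    ∃ f N : ℕ, Fok f ∧ 1 ≤ N ∧ F ≤ RCF k t (f * 3 ^ N)) →
  (∀ (k t : ℕ) [SqT k t] (f N : ℕ), Fok f → 1 ≤ N →
    FiniteDimensional ℚ (RCF k t (f * 3 ^ N)) ∧
    (∀ σ ∈ (KQ k t).fixingSubgroup, ∀ x ∈ RCF k t (f * 3 ^ N), σ x ∈ RCF k t (f * 3 ^ N)) ∧
    KQ k t ≤ Lf k t f ∧ Lf k t f ≤ RCF k t (f * 3 ^ N) ∧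
    ∃ a : ℕ, ∀ σ ∈ (Lf k t f).fixingSubgroup, σ ^ 3 ^ a ∈ (RCF k t (f * 3 ^ N)).fixingSubgroup) →
  (∀ (F L : IntermediateField ℚ Om), FiniteDimensional ℚ L → F ≤ L → XFinGen 3 (cyc 3 L) →
    XFinGen 3 (cyc 3 F)) → ThmDT

end Pool.Agent.DT.PI
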