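import Pool.Agent.Lib.DT.PI.SpecD
import Pool.Agent.Lib.DT.Base

set_option autoImplicit false

/-!
# THEOREM DT, Part I: `j(O)` and the values of the Weber function
-/

open scoped Pointwise

noncomputable section

namespace Pool.Agent.DT.PI

open Pool.Agent.MuZ Pool.Agent.DT
open Pool.Agent.DI (io ofC io_inj exists_io io_ofC ofC_io VP MP UP TP ex)

private theorem We_d {r A G2 G3 : ℂ} (h2 : 12 * G2 = r ^ 2 * (A ^ 4 - 24 * A))
    (h3 : 216 * G3 = r ^ 3 * (-A ^ 6 + 36 * A ^ 3 - 216)) :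
    G2 ^ 3 - 27 * G3 ^ 2 = r ^ 6 * (A ^ 3 - 27) := by
  have e : G2 = r ^ 2 * (A ^ 4 - 24 * A) / 12 := by
    rw [← h2]
    ring
  have e3 : G3 = r ^ 3 * (-A ^ 6 + 36 * A ^ 3 - 216) / 216 := by
    rw [← h3]
    ring
  rw [e, e3]
  ring

private theorem We_j {r A G2 G3 : ℂ} (hr : r ≠ 0) (hA : A ^ 3 - 27 ≠ 0)
    (h2 : 12 * G2 = r ^ 2 * (A ^ 4 - 24 * A))
    (h3 : 216 * G3 = r ^ 3 * (-A ^ 6 + 36 * A ^ 3 - 216)) :
    G2 ^ 3 / (G2 ^ 3 - 27 * G3 ^ 2) = (A ^ 4 - 24 * A) ^ 3 / (1728 * (A ^ 3 - 27)) := by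
  have e : G2 = r ^ 2 * (A ^ 4 - 24 * A) / 12 := by
    rw [← h2]
    ring
  rw [We_d h2 h3, e, div_eq_div_iff (mul_ne_zero (pow_ne_zero 6 hr) hA)
    (mul_ne_zero (by norm_num) hA)]
  ring

private theorem We_w {r A G2 G3 X p : ℂ} (hr : r ≠ 0) (hA : A ^ 3 - 27 ≠ 0)
    (h1 : p = r * (X + A ^ 2 / 12)) (h2 : 12 * G2 = r ^ 2 * (A ^ 4 - 24 * A))
    (h3 : 216 * G3 = r ^ 3 * (-A ^ 6 + 36 * A ^ 3 - 216)) :
    G2 * G3 / (G2 ^ 3 - 27 * G3 ^ 2) * p =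
      (A ^ 4 - 24 * A) * (36 * A ^ 3 - A ^ 6 - 216) * (12 * X + A ^ 2) /
        (31104 * (A ^ 3 - 27)) := by
  have e : G2 = r ^ 2 * (A ^ 4 - 24 * A) / 12 := by
    rw [← h2]
    ring
  have e3 : G3 = r ^ 3 * (-A ^ 6 + 36 * A ^ 3 - 216) / 216 := by
    rw [← h3]
    ring
  rw [We_d h2 h3, e, e3, h1, div_mul_eq_mul_div,
    div_eq_div_iff (mul_ne_zero (pow_ne_zero 6 hr) hA) (mul_ne_zero (by norm_num) hA)]
  ring

theorem pWe : S_We := by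
  intro k t _ hB hX M hM ⟨hd, hx, _⟩
  have ht : (⊤ : Ideal (OO k t)) ≠ ⊥ := hB.top_ne
  have hr := hX.rne ⊤ ht
  have hA : AC (⊤ : Ideal (OO k t)) ^ 3 - 27 ≠ 0 := sub_ne_zero.2 (hX.dis ⊤ ht)
  have g2 := hX.g2 ⊤ ht
  have g3 := hX.g3 ⊤ ht
  have hiA : io (aO (⊤ : Ideal (OO k t))) = AC (⊤ : Ideal (OO k t)) := hX.aalg ⊤ ht
  have hn : ∀ n : ℕ, (n : Om) ∈ RCF k t M := fun n => natCast_mem (RCF k t M) n
  have h12 : (12 : Om) ∈ RCF k t M := by exact_mod_cast hn 12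
  have h24 : (24 : Om) ∈ RCF k t M := by exact_mod_cast hn 24
  have h27 : (27 : Om) ∈ RCF k t M := by exact_mod_cast hn 27
  have h36 : (36 : Om) ∈ RCF k t M := by exact_mod_cast hn 36
  have h216 : (216 : Om) ∈ RCF k t M := by exact_mod_cast hn 216
  have h1728 : (1728 : Om) ∈ RCF k t M := by exact_mod_cast hn 1728
  have h31104 : (31104 : Om) ∈ RCF k t M := by exact_mod_cast hn 31104
  have hN : aO (⊤ : Ideal (OO k t)) ^ 4 - 24 * aO (⊤ : Ideal (OO k t)) ∈ RCF k t M :=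
    sub_mem (pow_mem hd 4) (mul_mem h24 hd)
  have hden : aO (⊤ : Ideal (OO k t)) ^ 3 - 27 ∈ RCF k t M := sub_mem (pow_mem hd 3) h27
  constructor
  · have e : ofC (jC k t) = (aO (⊤ : Ideal (OO k t)) ^ 4 - 24 * aO (⊤ : Ideal (OO k t))) ^ 3 /
        (1728 * (aO (⊤ : Ideal (OO k t)) ^ 3 - 27)) := by
      rw [← ofC_io ((aO (⊤ : Ideal (OO k t)) ^ 4 - 24 * aO (⊤ : Ideal (OO k t))) ^ 3 /
        (1728 * (aO (⊤ : Ideal (OO k t)) ^ 3 - 27)))]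
      congr 1
      simp only [map_div₀, map_mul, map_pow, map_sub, map_ofNat, hiA]
      unfold jC
      exact We_j hr hA g2 g3
    rw [e]
    exact div_mem (pow_mem hN 3) (mul_mem h1728 hden)
  · intro z hz hMz
    have hzt : Tor k t z := (tor_iff ht).2 ⟨M, hM, hMz⟩
    have hiX : io (xO (⊤ : Ideal (OO k t)) z) = XC (⊤ : Ideal (OO k t)) z := hX.xalg ⊤ ht z hzt
    have hxz := hx z hz hMz
    have e : ofC (weC k t z) =
        (aO (⊤ : Ideal (OO k t)) ^ 4 - 24 * aO (⊤ : Ideal (OO k t))) *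
          (36 * aO (⊤ : Ideal (OO k t)) ^ 3 - aO (⊤ : Ideal (OO k t)) ^ 6 - 216) *
          (12 * xO (⊤ : Ideal (OO k t)) z + aO (⊤ : Ideal (OO k t)) ^ 2) /
        (31104 * (aO (⊤ : Ideal (OO k t)) ^ 3 - 27)) := by
      rw [← ofC_io ((aO (⊤ : Ideal (OO k t)) ^ 4 - 24 * aO (⊤ : Ideal (OO k t))) *
          (36 * aO (⊤ : Ideal (OO k t)) ^ 3 - aO (⊤ : Ideal (OO k t)) ^ 6 - 216) *
          (12 * xO (⊤ : Ideal (OO k t)) z + aO (⊤ : Ideal (OO k t)) ^ 2) /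
        (31104 * (aO (⊤ : Ideal (OO k t)) ^ 3 - 27)))]
      congr 1
      simp only [map_div₀, map_mul, map_pow, map_sub, map_add, map_ofNat, hiA, hiX]
      unfold weC
      exact We_w hr hA (hX.wp ⊤ ht z) g2 g3
    rw [e]
    exact div_mem (mul_mem (mul_mem hN (sub_mem (sub_mem (mul_mem h36 (pow_mem hd 3))
      (pow_mem hd 6)) h216)) (add_mem (mul_mem h12 hxz) (pow_mem hd 2))) (mul_mem h31104 hden)

end Pool.Agent.DT.PI
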